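import Pool.Agent.Strip051.LC.E1.V1.Rw
import Pool.Agent.Strip051.LC.E0.Ch.Cell

/-! # Rests near the full period: the row between `W` and `1.15`, certificates -/

set_option maxRecDepth 100000

namespace Pool.Agent.Strip051.LC.E1.V1

open Pool.Agent.Strip051.PB
open Pool.Agent.Strip051.LC.E0.Ch (onCell Tree)

def y1f_t0 : T :=
  (.a (.b (.c (.l 20392) (.c (.l 13608) (.l 10152))) (.c (.b (.l 20392) (.c (.l 40872) (.a (.l
      20392) (.l 20392)))) (.b (.c (.l 13608) (.l 10152)) (.c (.a (.l 13608) (.l 13608)) (.a (.l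
      10152) (.l 10152)))))) (.b (.c (.b (.l 20392) (.l 20392)) (.b (.l 10152) (.l 10152))) (.c
      (.b (.l 20392) (.c (.l 40872) (.l 20392))) (.b (.l 10152) (.l 10152)))))

theorem y1f_h0 : chk3 (onCell 0 2684354560 0 1073741824 0 26843546 T1f) y1f_t0 8 2 2 = true := by decide +kernel

def y1f_t1 : T :=
  (.b (.c (.a (.b (.l 20392) (.l 20392)) (.b (.c (.a (.b (.l 40864) (.l 40864)) (.b (.l 40864)
      (.l 40864))) (.a (.b (.l 20384) (.l 20384)) (.b (.l 20384) (.l 20384)))) (.c (.a (.l 40864)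
      (.b (.l 40864) (.l 40864))) (.a (.l 20384) (.l 20384))))) (.a (.b (.l 10152) (.l 10152))
      (.b (.c (.a (.b (.l 13600) (.l 13600)) (.b (.l 13600) (.l 13600))) (.b (.a (.l 10144) (.l
      10144)) (.a (.l 10144) (.l 10144)))) (.c (.a (.l 13600) (.l 13600)) (.a (.l 10144) (.l
      10144)))))) (.c (.a (.b (.l 20392) (.l 20392)) (.b (.c (.a (.l 40864) (.l 40864)) (.a (.l
      20384) (.l 20384))) (.c (.a (.l 40864) (.l 40864)) (.a (.l 20384) (.l 20384))))) (.a (.b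
      (.l 10152) (.l 10152)) (.b (.c (.a (.l 13600) (.l 13600)) (.a (.l 10144) (.l 10144))) (.c
      (.l 13600) (.l 10144))))))

theorem y1f_h1 : chk3 (onCell 0 2684354560 0 1073741824 0 26843546 T1f) y1f_t1 9 2 2 = true := by decide +kernel

def y1f_t2 : T :=
  (.a (.c (.b (.c (.a (.l 40872) (.l 40872)) (.a (.l 20392) (.l 20392))) (.c (.a (.b (.l 40872)
      (.l 40872)) (.b (.l 40872) (.l 40872))) (.a (.b (.l 20392) (.l 20393)) (.b (.l 20392) (.l
      20392))))) (.b (.c (.a (.l 13608) (.l 13608)) (.a (.l 10152) (.l 10152))) (.c (.a (.b (.l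
      13608) (.l 13608)) (.l 13608)) (.a (.b (.l 10152) (.l 10152)) (.l 10152))))) (.c (.b (.c
      (.a (.l 40872) (.l 40872)) (.a (.l 20392) (.l 20392))) (.c (.a (.b (.l 40872) (.l 40872))
      (.l 40872)) (.a (.l 20392) (.l 20392)))) (.b (.c (.l 13608) (.l 10152)) (.c (.a (.l 13608)
      (.l 13608)) (.a (.l 10152) (.l 10152))))))

theorem y1f_h2 : chk3 (onCell 0 2684354560 0 1073741824 0 26843546 T1f) y1f_t2 8 6 2 = true := by decide +kernel

def y1f_t3 : T :=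
  (.c (.a (.b (.c (.l 81832) (.l 40873)) (.c (.a (.l 81832) (.l 81832)) (.a (.l 40872) (.l
      40872)))) (.b (.c (.l 81832) (.a (.l 40872) (.l 40864))) (.c (.a (.l 81832) (.l 81832)) (.a
      (.l 40872) (.l 40872))))) (.a (.b (.c (.l 27305) (.l 20393)) (.c (.a (.l 27304) (.l 27304))
      (.a (.l 20392) (.l 20392)))) (.b (.c (.l 27304) (.l 20392)) (.c (.l 27304) (.l 20392)))))

theorem y1f_h3 : chk3 (onCell 0 2684354560 0 1073741824 0 26843546 T1f) y1f_t3 16 14 4 = true := by decide +kernel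

def y1f_t4 : T :=
  (.c (.a (.c (.a (.b (.l 81832) (.c (.l 163752) (.l 81832))) (.b (.l 81832) (.c (.l 5238948) (.l
      81832)))) (.a (.b (.l 40872) (.l 40872)) (.b (.l 40872) (.c (.l 1745060) (.l 1306788)))))
      (.a (.c (.l 2617380) (.l 1306660)) (.l 1306660))) (.a (.c (.a (.b (.l 27304) (.l 27304))
      (.b (.l 27304) (.l 872612))) (.a (.b (.l 20392) (.l 20392)) (.b (.l 20392) (.l 651428))))
      (.a (.c (.l 872484) (.l 651300)) (.l 651300))))

theorem y1f_h4 : chk3 (onCell 0 2684354560 0 1073741824 0 26843546 T1f) y1f_t4 16 30 4 = true := by decide +kernel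

def y1f_t5 : T :=
  (.c (.b (.a (.c (.a (.c (.a (.l 163752) (.l 5239076)) (.a (.l 81832) (.l 2617636))) (.l
      2617636)) (.a (.c (.a (.l 54568) (.l 1745188)) (.a (.l 1308964) (.l 1306916))) (.l
      1306916))) (.a (.l 1306916) (.l 1306916))) (.a (.c (.b (.a (.c (.a (.l 5239204) (.l
      5239204)) (.a (.l 2617764) (.l 2617764))) (.l 2617764)) (.a (.c (.b (.a (.l 5239204) (.l
      5239204)) (.a (.l 5239204) (.l 5239204))) (.b (.a (.l 2617764) (.l 2617764)) (.a (.l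
      2619812) (.l 2617764)))) (.l 2617764))) (.b (.a (.c (.a (.l 1747364) (.l 1745316)) (.l
      1309092)) (.l 1307044)) (.a (.c (.l 1747364) (.l 1309092)) (.l 1307044)))) (.l 1307044)))
      (.b (.a (.c (.a (.c (.a (.l 1046820) (.l 1044772)) (.l 27305)) (.l 872740)) (.a (.l 653604)
      (.l 651556))) (.l 651556)) (.a (.c (.b (.a (.l 874916) (.l 872868)) (.l 874916)) (.l
      653732)) (.l 651684))))

theorem y1f_h5 : chk3 (onCell 0 2684354560 0 1073741824 0 26843546 T1f) y1f_t5 16 31 4 = true := by decide +kernel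

def y1f_t6 : T :=
  (.b (.c (.a (.b (.c (.l 81832) (.l 40872)) (.c (.a (.l 81832) (.l 81832)) (.l 40872))) (.b (.l
      40872) (.c (.l 81832) (.l 40872)))) (.a (.b (.l 20392) (.l 20392)) (.b (.l 20392) (.l
      20392)))) (.a (.c (.a (.l 1306660) (.l 1306660)) (.a (.l 651300) (.l 651300))) (.l 652324)))

theorem y1f_h6 : chk3 (onCell 0 2684354560 0 1073741824 0 26843546 T1f) y1f_t6 17 7 4 = true := by decide +kernel

def y1f_t7 : T :=
  (.a (.b (.c (.a (.b (.c (.l 16296) (.l 13608)) (.c (.a (.l 16296) (.l 16296)) (.a (.l 13608)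
      (.l 13608)))) (.b (.l 13608) (.c (.l 16296) (.l 13608)))) (.a (.b (.c (.l 11688) (.l
      10152)) (.c (.a (.l 11688) (.l 11688)) (.a (.l 10152) (.l 10152)))) (.b (.l 10152) (.l
      10152)))) (.b (.c (.a (.c (.a (.b (.l 16296) (.l 522404)) (.l 16296)) (.a (.l 13609) (.l
      13608))) (.a (.l 434212) (.l 434212))) (.a (.c (.a (.l 374820) (.l 11688)) (.a (.l 325668)
      (.l 10152))) (.a (.l 323620) (.l 323620)))) (.c (.b (.a (.c (.a (.l 522532) (.l 520484))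
      (.a (.l 436516) (.l 436516))) (.l 434468)) (.a (.l 436644) (.l 434596))) (.b (.a (.l
      325924) (.l 323876)) (.l 326052))))) (.b (.c (.a (.b (.l 13608) (.l 13608)) (.b (.l 13608)
      (.l 13608))) (.a (.b (.l 10152) (.l 10152)) (.b (.l 10144) (.l 10152)))) (.a (.c (.a (.l
      434212) (.l 434212)) (.a (.l 323620) (.l 323620))) (.l 324644))))

theorem y1f_h7 : chk3 (onCell 0 2684354560 0 1073741824 0 26843546 T1f) y1f_t7 8 7 5 = true := by decide +kernel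

def y1f_t8 : T :=
  (.a (.c (.b (.c (.l 40872) (.l 20392)) (.c (.a (.l 40872) (.l 40872)) (.l 20392))) (.b (.l
      10152) (.c (.l 13608) (.l 10152)))) (.c (.b (.a (.c (.b (.l 40864) (.l 40864)) (.l 20384))
      (.c (.b (.l 40864) (.l 40864)) (.l 20384))) (.a (.c (.b (.l 40864) (.c (.l 81824) (.l
      40864))) (.l 20384)) (.c (.b (.c (.l 81824) (.l 40864)) (.c (.b (.l 81824) (.l 81824)) (.l
      40864))) (.b (.l 20384) (.l 20384))))) (.b (.c (.a (.l 13600) (.l 13600)) (.a (.l 10144)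
      (.l 10144))) (.c (.a (.l 13600) (.l 13600)) (.a (.l 10144) (.l 10144))))))

theorem y1f_h8 : chk3 (onCell 0 2684354560 0 1073741824 0 26843546 T1f) y1f_t8 9 6 2 = true := by decide +kernel

def y1f_t9 : T :=
  (.c (.a (.c (.b (.a (.l 40872) (.l 40872)) (.a (.c (.l 81832) (.l 40872)) (.c (.l 81832) (.l
      40864)))) (.b (.l 20392) (.a (.l 20392) (.l 20392)))) (.c (.a (.b (.c (.a (.l 81824) (.l
      81824)) (.l 40864)) (.c (.a (.l 81856) (.b (.l 81824) (.c (.l 163744) (.l 81824)))) (.a (.l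
      40864) (.l 40864)))) (.b (.c (.b (.a (.l 81824) (.l 81824)) (.a (.l 81824) (.c (.l 163744)
      (.l 81824)))) (.l 40864)) (.c (.a (.b (.c (.l 163744) (.l 81824)) (.c (.a (.l 163744) (.l
      163744)) (.l 81824))) (.b (.c (.l 163744) (.l 81824)) (.c (.a (.l 163744) (.l 163744)) (.l
      81824)))) (.b (.l 40864) (.a (.l 40864) (.l 40864)))))) (.b (.a (.l 20416) (.c (.l 27296)
      (.l 20384))) (.a (.c (.l 27328) (.l 20416)) (.c (.b (.l 27296) (.l 27296)) (.l 47)))))) (.a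
      (.c (.b (.l 13608) (.l 13640)) (.b (.l 10152) (.l 10184))) (.c (.b (.a (.l 13632) (.l
      13600)) (.a (.l 47) (.l 47))) (.b (.l 47) (.l 47)))))

theorem y1f_h9 : chk3 (onCell 0 2684354560 0 1073741824 0 26843546 T1f) y1f_t9 9 14 2 = true := by decide +kernel

def y1f_t10 : T :=
  (.a (.c (.l 652324) (.l 324644)) (.c (.a (.c (.b (.a (.c (.b (.l 81856) (.a (.l 2618532) (.c
      (.l 163776) (.l 81824)))) (.b (.l 40864) (.l 40896))) (.c (.a (.b (.c (.l 163744) (.l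
      81824)) (.c (.a (.l 163744) (.l 5239972)) (.l 81824))) (.b (.c (.a (.l 163744) (.l
      5239844)) (.l 81824)) (.l 2618532))) (.a (.b (.l 40864) (.l 40864)) (.b (.l 40864) (.l
      1307812))))) (.a (.c (.b (.a (.l 2618660) (.c (.b (.l 163776) (.l 5240100)) (.l 81856)))
      (.a (.l 2618788) (.l 2618788))) (.b (.a (.l 47) (.l 47)) (.l 47))) (.c (.a (.b (.l 2618660)
      (.l 2618788)) (.l 2618660)) (.a (.b (.l 47) (.l 47)) (.l 1307940))))) (.b (.a (.c (.l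
      27328) (.l 47)) (.c (.l 47) (.l 47))) (.a (.l 47) (.l 47)))) (.c (.a (.b (.c (.a (.l
      2618404) (.l 2618404)) (.l 1307684)) (.l 1307940)) (.l 1307684)) (.a (.b (.l 652324) (.l
      47)) (.l 652324)))) (.a (.c (.l 47) (.l 47)) (.c (.l 47) (.l 47)))))

theorem y1f_h10 : chk3 (onCell 0 2684354560 0 1073741824 0 26843546 T1f) y1f_t10 9 15 2 = true := by decide +kernel

def y1f_t11 : T :=
  (.a (.c (.b (.c (.b (.l 8104) (.l 8104)) (.b (.l 6824) (.l 6824))) (.b (.c (.a (.l 8104) (.l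
      8104)) (.a (.l 6824) (.l 6824))) (.c (.a (.l 8104) (.l 8104)) (.a (.l 6824) (.l 6824)))))
      (.b (.b (.l 5032) (.l 5032)) (.b (.c (.a (.l 5800) (.l 5800)) (.a (.l 5032) (.l 5032))) (.c
      (.a (.l 5800) (.l 5800)) (.a (.l 5032) (.l 5032)))))) (.b (.c (.b (.l 6824) (.l 6824)) (.b
      (.l 5032) (.l 5032))) (.c (.b (.l 6824) (.l 6824)) (.b (.l 5032) (.l 5032)))))

theorem y1f_h11 : chk3 (onCell 0 2684354560 0 1073741824 0 26843546 T1f) y1f_t11 8 2 3 = true := by decide +kernel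

def y1f_t12 : T :=
  (.b (.c (.a (.b (.l 6824) (.l 6824)) (.b (.c (.b (.a (.l 8096) (.l 8096)) (.a (.l 8096) (.l
      8096))) (.b (.a (.l 6816) (.l 6816)) (.a (.l 6816) (.l 6816)))) (.c (.a (.l 8096) (.l
      8096)) (.a (.l 6816) (.l 6816))))) (.a (.b (.l 5032) (.l 5032)) (.b (.c (.b (.a (.l 5792)
      (.l 5792)) (.a (.l 5792) (.l 5792))) (.b (.a (.l 5024) (.l 5024)) (.a (.l 5024) (.l
      5024)))) (.c (.a (.l 5792) (.l 5792)) (.a (.l 5024) (.b (.l 5024) (.l 5024))))))) (.c (.a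
      (.b (.l 6824) (.l 6824)) (.b (.c (.a (.l 8096) (.l 8096)) (.a (.l 6816) (.l 6816))) (.c (.a
      (.l 8096) (.l 8096)) (.a (.l 6816) (.l 6816))))) (.a (.b (.l 5032) (.l 5032)) (.b (.c (.a
      (.l 5792) (.l 5792)) (.a (.l 5024) (.l 5024))) (.c (.a (.l 5792) (.l 5792)) (.a (.l 5024)
      (.l 5024)))))))

theorem y1f_h12 : chk3 (onCell 0 2684354560 0 1073741824 0 26843546 T1f) y1f_t12 9 2 3 = true := by decide +kernel

def y1f_t13 : T :=
  (.c (.a (.b (.c (.a (.l 8104) (.l 8104)) (.a (.l 6824) (.l 6824))) (.c (.a (.b (.l 8104) (.l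
      8104)) (.l 8104)) (.a (.b (.l 6824) (.l 6824)) (.l 6824)))) (.b (.c (.l 8104) (.l 6824))
      (.c (.a (.l 8104) (.l 8104)) (.a (.l 6824) (.l 6824))))) (.a (.b (.c (.a (.l 5800) (.l
      5800)) (.a (.l 5032) (.l 5032))) (.c (.a (.b (.l 5800) (.l 5800)) (.l 5800)) (.a (.b (.l
      5032) (.l 5032)) (.l 5032)))) (.b (.c (.l 5800) (.l 5032)) (.c (.a (.l 5800) (.l 5800)) (.a
      (.l 5032) (.l 5032))))))

theorem y1f_h13 : chk3 (onCell 0 2684354560 0 1073741824 0 26843546 T1f) y1f_t13 8 6 3 = true := by decide +kernel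

def y1f_t14 : T :=
  (.a (.b (.c (.a (.b (.c (.l 9129) (.l 8105)) (.c (.a (.l 9128) (.l 9128)) (.a (.l 8104) (.l
      8104)))) (.b (.l 8104) (.l 8104))) (.a (.b (.c (.l 7465) (.l 6825)) (.c (.a (.l 7464) (.l
      7464)) (.a (.l 6824) (.l 6824)))) (.b (.l 6824) (.l 6824)))) (.b (.c (.a (.c (.a (.l
      292900) (.l 9128)) (.a (.l 260132) (.l 8104))) (.a (.l 258084) (.l 258084))) (.a (.c (.l
      239652) (.l 219172)) (.a (.l 217124) (.l 47)))) (.c (.b (.a (.l 260388) (.l 258340)) (.l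
      260516)) (.b (.a (.l 219428) (.l 47)) (.l 219556))))) (.b (.c (.a (.b (.l 8104) (.l 8104))
      (.b (.l 8104) (.l 47))) (.a (.b (.l 6824) (.l 6824)) (.b (.l 6824) (.l 47)))) (.a (.c (.a
      (.l 258084) (.l 47)) (.a (.l 47) (.l 47))) (.l 218148))))

theorem y1f_h14 : chk3 (onCell 0 2684354560 0 1073741824 0 26843546 T1f) y1f_t14 8 7 6 = true := by decide +kernel

def y1f_t15 : T :=
  (.a (.b (.c (.a (.b (.c (.a (.l 6312) (.l 6312)) (.a (.l 5800) (.l 5800))) (.c (.a (.l 6312)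
      (.l 6312)) (.a (.l 5800) (.l 5800)))) (.b (.l 5800) (.l 5800))) (.a (.b (.c (.a (.l 5416)
      (.l 5416)) (.a (.l 5032) (.l 5032))) (.c (.a (.l 5416) (.l 5416)) (.a (.l 5032) (.l
      5032)))) (.b (.l 5032) (.l 5032)))) (.b (.c (.a (.l 186404) (.a (.l 5800) (.l 47))) (.a (.l
      161828) (.a (.l 47) (.l 47)))) (.l 162084))) (.b (.c (.a (.b (.l 5800) (.l 47)) (.l 47))
      (.a (.b (.l 5032) (.l 47)) (.l 47))) (.a (.c (.l 47) (.l 47)) (.l 47))))

theorem y1f_h15 : chk3 (onCell 0 2684354560 0 1073741824 0 26843546 T1f) y1f_t15 8 7 7 = true := by decide +kernel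

def y1f_t16 : T :=
  (.b (.a (.c (.b (.l 6824) (.c (.l 8104) (.l 6824))) (.b (.l 5032) (.c (.l 5800) (.l 5032))))
      (.c (.b (.c (.a (.l 8096) (.l 8096)) (.a (.l 6816) (.l 6816))) (.c (.a (.l 8128) (.l
      114832)) (.a (.l 6848) (.l 47)))) (.b (.c (.a (.l 5792) (.l 5792)) (.a (.l 5024) (.l
      5024))) (.c (.a (.l 47) (.l 47)) (.l 47))))) (.b (.c (.a (.c (.b (.l 8104) (.l 47)) (.b (.l
      47) (.l 47))) (.c (.l 47) (.l 47))) (.a (.c (.l 47) (.l 47)) (.l 47))) (.a (.c (.l 218148)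
      (.l 47)) (.c (.l 47) (.l 47)))))

theorem y1f_h16 : chk3 (onCell 0 2684354560 0 1073741824 0 26843546 T1f) y1f_t16 9 3 3 = true := by decide +kernel

def y1f_t17 : T :=
  (.b (.c (.b (.a (.l 12) (.l 12)) (.c (.a (.b (.l 40864) (.l 40864)) (.b (.l 40864) (.l 40864)))
      (.a (.l 20384) (.l 20384)))) (.b (.l 12) (.c (.a (.l 13600) (.l 13600)) (.a (.l 10144) (.l
      10144))))) (.c (.b (.c (.a (.b (.l 40864) (.l 40864)) (.b (.l 40864) (.l 40864))) (.a (.l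
      20384) (.l 20384))) (.c (.a (.c (.l 81824) (.l 40864)) (.c (.l 81824) (.l 40864))) (.a (.l
      20384) (.l 20384)))) (.b (.c (.a (.l 13600) (.l 13600)) (.a (.l 10144) (.l 10144))) (.c (.a
      (.l 13600) (.l 13600)) (.a (.l 10144) (.l 10144))))))

theorem y1f_h17 : chk3 (onCell 0 2684354560 0 1073741824 0 26843546 T1f) y1f_t17 20 2 2 = true := by decide +kernel

def y1f_t18 : T :=
  (.b (.c (.b (.l 12) (.c (.b (.a (.l 40864) (.l 40864)) (.a (.l 40864) (.l 40864))) (.b (.l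
      20384) (.l 20384)))) (.b (.l 12) (.c (.b (.l 13600) (.l 13600)) (.b (.l 10144) (.l
      10144))))) (.c (.b (.c (.a (.b (.l 40864) (.l 40864)) (.l 40864)) (.a (.l 20384) (.l
      20384))) (.c (.a (.b (.l 40864) (.l 40864)) (.l 40864)) (.a (.l 20384) (.l 20384)))) (.b
      (.c (.a (.l 13600) (.l 13600)) (.a (.l 10144) (.l 10144))) (.c (.a (.l 13600) (.l 13600))
      (.a (.l 10144) (.l 10144))))))

theorem y1f_h18 : chk3 (onCell 0 2684354560 0 1073741824 0 26843546 T1f) y1f_t18 21 2 2 = true := by decide +kernel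

def y1f_t19 : T :=
  (.a (.b (.c (.b (.a (.l 12) (.l 12)) (.c (.a (.b (.l 40864) (.l 40864)) (.a (.l 40864) (.l
      40864))) (.a (.l 20384) (.l 20384)))) (.b (.l 12) (.c (.b (.l 13600) (.l 13600)) (.b (.l
      10144) (.l 10144))))) (.c (.b (.a (.c (.l 40864) (.l 20384)) (.a (.c (.l 40864) (.l 20384))
      (.l 20386))) (.a (.c (.l 40864) (.l 20384)) (.a (.c (.l 40864) (.l 20384)) (.l 20386))))
      (.b (.c (.l 13600) (.l 10144)) (.a (.l 10144) (.l 10144))))) (.a (.b (.c (.a (.a (.l 20386)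
      (.l 20386)) (.l 20386)) (.a (.b (.l 10146) (.l 10144)) (.l 10146))) (.c (.a (.a (.b (.l
      20384) (.l 20384)) (.l 20386)) (.a (.l 20386) (.l 20386))) (.a (.b (.l 10144) (.l 10144))
      (.l 10146)))) (.b (.a (.c (.l 20386) (.l 10146)) (.c (.l 20386) (.l 10146))) (.c (.a (.l
      20386) (.l 20386)) (.a (.l 10146) (.l 10146))))))

theorem y1f_h19 : chk3 (onCell 0 2684354560 0 1073741824 0 26843546 T1f) y1f_t19 11 2 2 = true := by decide +kernel

def y1f_t20 : T :=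
  (.a (.c (.b (.c (.a (.b (.l 40864) (.c (.l 81824) (.l 40864))) (.b (.l 40864) (.c (.l 81824)
      (.l 40864)))) (.a (.l 20384) (.l 20384))) (.c (.a (.b (.c (.l 81824) (.l 40864)) (.c (.a
      (.l 81824) (.l 81824)) (.l 40864))) (.b (.c (.l 81824) (.l 40864)) (.a (.c (.l 81824) (.l
      40864)) (.l 40864)))) (.a (.b (.l 20384) (.l 20384)) (.b (.l 20384) (.l 20384))))) (.b (.c
      (.a (.l 13600) (.l 13600)) (.a (.l 10144) (.l 10144))) (.c (.a (.b (.l 13600) (.l 13600))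
      (.b (.l 13600) (.l 13600))) (.a (.b (.l 10144) (.l 47)) (.b (.l 10144) (.l 47)))))) (.c (.b
      (.a (.c (.b (.l 40864) (.l 40864)) (.l 20384)) (.c (.a (.l 40864) (.l 40864)) (.l 20384)))
      (.a (.c (.b (.a (.l 40864) (.l 40864)) (.a (.l 40864) (.l 40864))) (.l 20384)) (.c (.b (.l
      40864) (.l 40864)) (.l 20384)))) (.b (.a (.c (.l 13600) (.l 10144)) (.l 180368)) (.a (.c
      (.l 13600) (.l 237712)) (.c (.l 13600) (.l 10144))))))

theorem y1f_h20 : chk3 (onCell 0 2684354560 0 1073741824 0 26843546 T1f) y1f_t20 10 6 2 = true := by decide +kernel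

def y1f_t21 : T :=
  (.b (.a (.c (.b (.c (.a (.c (.a (.b (.l 81824) (.c (.l 163744) (.l 81824))) (.b (.l 81824) (.l
      81824))) (.l 40864)) (.c (.a (.l 81824) (.l 81824)) (.l 40864))) (.a (.c (.l 27296) (.l
      20384)) (.l 20384))) (.c (.a (.c (.a (.b (.c (.l 163744) (.l 81824)) (.c (.l 163744) (.l
      81824))) (.b (.l 81824) (.c (.l 163744) (.l 81824)))) (.a (.l 40864) (.l 40864))) (.c (.a
      (.b (.l 81824) (.l 81824)) (.l 81824)) (.l 40864))) (.a (.c (.a (.l 27296) (.l 27296)) (.l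
      47)) (.c (.l 27296) (.l 47))))) (.c (.b (.a (.l 229520) (.l 47)) (.l 47)) (.l 47))) (.c (.b
      (.c (.a (.c (.l 81824) (.l 40864)) (.a (.l 40864) (.l 40864))) (.a (.l 20384) (.l 20384)))
      (.c (.a (.c (.a (.l 81824) (.l 81824)) (.l 40864)) (.c (.a (.l 81824) (.l 81824)) (.l
      40864))) (.a (.l 426128) (.l 516240)))) (.c (.b (.l 47) (.l 47)) (.l 47)))) (.a (.a (.c (.l
      652324) (.l 47)) (.c (.l 652324) (.l 47))) (.a (.c (.l 652324) (.l 47)) (.c (.l 652324) (.l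
      47)))))

theorem y1f_h21 : chk3 (onCell 0 2684354560 0 1073741824 0 26843546 T1f) y1f_t21 10 7 2 = true := by decide +kernel

def y1f_t22 : T :=
  (.b (.a (.c (.b (.a (.c (.l 40864) (.l 20384)) (.a (.c (.l 40864) (.l 20384)) (.c (.l 40864)
      (.l 20384)))) (.a (.c (.b (.l 40864) (.l 40864)) (.l 20384)) (.c (.a (.l 40864) (.l 40864))
      (.l 20384)))) (.b (.a (.l 10144) (.l 10144)) (.a (.l 344208) (.l 409744)))) (.a (.c (.b (.a
      (.l 20386) (.l 20386)) (.a (.b (.l 20384) (.l 20386)) (.l 524496))) (.b (.l 10144) (.l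
      475280))) (.b (.c (.l 20386) (.l 10144)) (.c (.l 549072) (.l 549008))))) (.b (.a (.c (.b
      (.a (.c (.a (.l 40864) (.l 40864)) (.l 20384)) (.c (.l 40864) (.l 20384))) (.c (.a (.a (.b
      (.l 40864) (.l 40864)) (.b (.l 40864) (.l 40864))) (.a (.c (.l 81824) (.l 40864)) (.l
      786576))) (.a (.l 614544) (.l 47)))) (.c (.l 47) (.l 47))) (.c (.a (.b (.l 712912) (.c (.l
      843984) (.l 47))) (.l 811344)) (.l 47))) (.a (.a (.l 324644) (.c (.l 652324) (.l 47))) (.a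
      (.c (.l 652324) (.l 47)) (.c (.l 1114448) (.l 47))))))

theorem y1f_h22 : chk3 (onCell 0 2684354560 0 1073741824 0 26843546 T1f) y1f_t22 11 3 2 = true := by decide +kernel

def y1f_t23 : T :=
  (.a (.c (.b (.b (.l 12) (.c (.a (.l 8096) (.l 8096)) (.a (.l 6816) (.l 6816)))) (.b (.c (.a (.l
      8096) (.l 8096)) (.a (.l 6816) (.l 6816))) (.c (.a (.l 8096) (.l 8096)) (.a (.l 6816) (.l
      6816))))) (.b (.b (.l 12) (.c (.a (.l 5792) (.l 5792)) (.a (.b (.l 5024) (.l 5024)) (.l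
      5024)))) (.b (.c (.a (.l 5792) (.l 5792)) (.a (.l 5024) (.l 5024))) (.c (.a (.l 5792) (.l
      5792)) (.a (.l 5024) (.l 5024)))))) (.b (.c (.b (.l 12) (.c (.b (.l 8096) (.l 8096)) (.b
      (.l 6816) (.l 6816)))) (.b (.l 12) (.c (.b (.a (.l 5792) (.l 5792)) (.l 5792)) (.b (.a (.l
      5024) (.l 5024)) (.a (.l 5024) (.l 5024)))))) (.c (.b (.c (.a (.l 8096) (.l 8096)) (.a (.l
      6816) (.l 6816))) (.c (.a (.l 8096) (.l 8096)) (.a (.l 6816) (.l 6816)))) (.b (.c (.a (.l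
      5792) (.l 5792)) (.a (.l 5024) (.l 5024))) (.c (.a (.l 5792) (.l 5792)) (.a (.c (.l 5408)
      (.l 5024)) (.c (.l 5408) (.l 5024))))))))

theorem y1f_h23 : chk3 (onCell 0 2684354560 0 1073741824 0 26843546 T1f) y1f_t23 10 2 3 = true := by decide +kernel

def y1f_t24 : T :=
  (.b (.c (.b (.c (.l 12) (.l 12)) (.c (.b (.l 8096) (.l 8096)) (.b (.a (.l 6816) (.l 6816)) (.l
      6816)))) (.b (.c (.b (.l 12) (.l 12)) (.b (.l 12) (.c (.l 12) (.a (.l 5024) (.l 12))))) (.c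
      (.b (.a (.l 5792) (.l 5792)) (.l 5792)) (.b (.a (.l 5024) (.l 5024)) (.a (.l 5024) (.l
      5024)))))) (.c (.b (.c (.a (.l 8096) (.l 8096)) (.a (.l 6816) (.l 6816))) (.a (.l 6816) (.c
      (.l 8096) (.l 6816)))) (.b (.c (.a (.l 5792) (.l 5792)) (.a (.l 5024) (.l 5024))) (.a (.c
      (.l 5792) (.c (.l 5408) (.b (.l 5024) (.l 47)))) (.c (.l 5792) (.c (.l 5408) (.b (.l 5024)
      (.l 47))))))))

theorem y1f_h24 : chk3 (onCell 0 2684354560 0 1073741824 0 26843546 T1f) y1f_t24 22 2 3 = true := by decide +kernel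

def y1f_t25 : T :=
  (.b (.a (.c (.b (.a (.l 6818) (.l 6818)) (.l 6818)) (.b (.a (.l 5026) (.l 5026)) (.c (.l 5794)
      (.a (.l 5024) (.l 5024))))) (.c (.a (.l 6818) (.l 6818)) (.b (.l 5026) (.l 5026)))) (.c (.a
      (.b (.l 6816) (.c (.l 8096) (.l 6816))) (.a (.c (.l 8098) (.l 6818)) (.l 6818))) (.a (.b
      (.c (.l 5792) (.l 5024)) (.c (.l 5792) (.c (.l 5408) (.b (.l 5024) (.l 47))))) (.c (.b (.l
      5792) (.l 5792)) (.b (.l 5024) (.l 5026))))))

theorem y1f_h25 : chk3 (onCell 0 2684354560 0 1073741824 0 26843546 T1f) y1f_t25 23 2 3 = true := by decide +kernel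

def y1f_t26 : T :=
  (.a (.b (.a (.c (.b (.c (.a (.l 8096) (.l 8096)) (.a (.l 6816) (.l 6816))) (.c (.a (.b (.l 47)
      (.l 47)) (.l 47)) (.l 47))) (.b (.c (.a (.l 5792) (.l 5792)) (.a (.l 5024) (.l 47))) (.l
      47))) (.c (.b (.c (.a (.l 8096) (.l 8096)) (.a (.l 147600) (.l 6816))) (.c (.l 47) (.l
      47))) (.b (.c (.a (.c (.l 47) (.l 47)) (.l 47)) (.l 47)) (.l 47)))) (.b (.a (.c (.l 47) (.l
      47)) (.l 47)) (.a (.l 47) (.l 47)))) (.b (.a (.b (.c (.a (.c (.l 8096) (.l 6816)) (.l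
      254096)) (.a (.l 47) (.l 47))) (.c (.l 47) (.l 47))) (.b (.c (.a (.l 295056) (.l 6818)) (.l
      47)) (.c (.l 47) (.l 47)))) (.b (.b (.l 47) (.l 47)) (.l 47))))

theorem y1f_h26 : chk3 (onCell 0 2684354560 0 1073741824 0 26843546 T1f) y1f_t26 5 3 3 = true := by decide +kernel

def y1f_t27 : T :=
  (.b (.a (.a (.a (.b (.a (.l 10146) (.l 10146)) (.c (.l 20386) (.l 10146))) (.b (.l 10146) (.b
      (.l 10146) (.l 10146)))) (.b (.a (.l 10146) (.l 10146)) (.a (.b (.l 10146) (.l 10146)) (.b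
      (.l 10146) (.l 10146))))) (.b (.a (.l 10146) (.l 10146)) (.a (.b (.l 10146) (.l 10146)) (.b
      (.l 10146) (.l 10178))))) (.a (.b (.b (.a (.a (.c (.l 20386) (.l 10146)) (.c (.l 20386) (.l
      10146))) (.a (.l 483536) (.l 541008))) (.a (.a (.c (.l 20386) (.l 10146)) (.l 696656)) (.l
      762192))) (.b (.b (.a (.l 909648) (.l 1155408)) (.c (.a (.l 1089872) (.l 1376592)) (.l
      47))) (.b (.a (.l 1261904) (.l 1597776)) (.a (.l 1450320) (.l 1843536))))) (.b (.b (.a (.l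
      581968) (.l 704848)) (.a (.l 942416) (.l 1139024))) (.a (.l 1286480) (.l 1565008)))))

theorem y1f_h27 : chk3 (onCell 0 2684354560 0 1073741824 0 26843546 T1f) y1f_t27 6 1 2 = true := by decide +kernel

def y1f_t28 : T :=
  (.b (.a (.a (.b (.a (.c (.l 6818) (.b (.l 5026) (.l 5026))) (.b (.l 5026) (.l 5026))) (.a (.c
      (.b (.l 6818) (.l 6818)) (.b (.l 5026) (.l 5026))) (.c (.b (.l 6818) (.l 6818)) (.b (.l
      5026) (.l 5026))))) (.b (.a (.l 5026) (.l 5026)) (.a (.c (.b (.l 6818) (.l 6818)) (.b (.l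
      5026) (.l 5026))) (.b (.l 5026) (.l 5026))))) (.c (.b (.a (.l 6818) (.l 6818)) (.a (.b (.l
      6818) (.l 6818)) (.b (.l 6818) (.l 6818)))) (.a (.b (.l 5026) (.b (.l 5026) (.l 5026))) (.b
      (.l 5026) (.b (.l 5026) (.l 5026)))))) (.a (.b (.b (.a (.c (.l 368848) (.l 47)) (.l
      450768)) (.a (.l 47) (.l 47))) (.b (.l 47) (.l 47))) (.b (.b (.a (.l 557392) (.l 680272))
      (.l 47)) (.a (.l 47) (.l 47)))))

theorem y1f_h28 : chk3 (onCell 0 2684354560 0 1073741824 0 26843546 T1f) y1f_t28 6 1 3 = true := by decide +kernel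

def y1f_t29 : T :=
  (.c (.b (.b (.a (.a (.l 10146) (.l 10146)) (.l 10146)) (.a (.a (.b (.l 10146) (.l 10178)) (.b
      (.l 10146) (.l 10178))) (.b (.l 10146) (.a (.l 10178) (.l 10178))))) (.a (.b (.b (.l
      770384) (.l 1278288)) (.l 1687888)) (.b (.b (.l 1057104) (.l 1753424)) (.l 2335056)))) (.b
      (.c (.a (.b (.l 6818) (.a (.l 6818) (.l 6818))) (.b (.l 6818) (.b (.l 6818) (.l 6818))))
      (.a (.a (.b (.l 5026) (.b (.l 5026) (.l 5026))) (.b (.l 5026) (.b (.l 5026) (.l 47)))) (.c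
      (.a (.b (.l 5794) (.l 5794)) (.b (.l 5794) (.l 5794))) (.a (.b (.l 5026) (.b (.l 5026) (.l
      47))) (.b (.l 5026) (.b (.l 5026) (.l 47))))))) (.a (.b (.c (.b (.l 47) (.l 47)) (.l 47))
      (.l 47)) (.b (.c (.b (.l 47) (.l 47)) (.l 47)) (.l 47)))))

theorem y1f_h29 : chk3 (onCell 0 2684354560 0 1073741824 0 26843546 T1f) y1f_t29 7 1 1 = true := by decide +kernel

theorem y1f : Tree 0 2684354560 0 1073741824 0 26843546 T1f :=
  ⟨_, (chk3_a (chk3_a (chk3_c (chk3_b (chk3_a y1f_h0 y1f_h1) (chk3_a (chk3_b y1f_h2 (chk3_c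
      (chk3_a (chk3_b y1f_h3 (chk3_b y1f_h4 y1f_h5)) y1f_h6) y1f_h7)) (chk3_b y1f_h8 (chk3_b
      y1f_h9 y1f_h10)))) (chk3_b (chk3_a y1f_h11 y1f_h12) (chk3_a (chk3_b y1f_h13 (chk3_c y1f_h14
      y1f_h15)) y1f_h16))) (chk3_c (chk3_b (chk3_a (chk3_a y1f_h17 y1f_h18) y1f_h19) (chk3_a
      (chk3_b y1f_h20 y1f_h21) y1f_h22)) (chk3_b (chk3_a y1f_h23 (chk3_a y1f_h24 y1f_h25))
      y1f_h26))) (chk3_a (chk3_c y1f_h27 y1f_h28) y1f_h29))⟩

def y2f_t0 : T :=
  (.b (.c (.a (.b (.l 4034) (.l 4034)) (.a (.c (.l 8130) (.l 4034)) (.b (.l 4034) (.l 4034))))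
      (.a (.a (.b (.a (.l 1954) (.l 1954)) (.a (.l 1954) (.c (.l 2722) (.l 1954)))) (.a (.b (.a
      (.l 1954) (.l 1954)) (.c (.l 2722) (.l 1954))) (.b (.b (.l 1954) (.l 1954)) (.c (.l 2722)
      (.l 1954))))) (.c (.a (.l 2754) (.l 2754)) (.a (.a (.l 1954) (.l 47)) (.l 47))))) (.c (.a
      (.b (.l 4034) (.l 4034)) (.b (.a (.l 4034) (.l 4034)) (.a (.l 4034) (.a (.l 4034) (.l
      4034))))) (.a (.b (.a (.c (.l 2722) (.l 1954)) (.c (.l 2722) (.l 1954))) (.a (.c (.l 2722)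
      (.l 1954)) (.c (.l 2722) (.l 1954)))) (.c (.a (.b (.l 2722) (.l 2722)) (.b (.l 2754) (.l
      2754))) (.a (.b (.l 1954) (.b (.l 1954) (.l 1954))) (.l 47))))))

theorem y2f_h0 : chk3 (onCell 0 1073741824 0 429496730 0 67108864 T2f) y2f_t0 2 1 1 = true := by decide +kernel

def y2f_t1 : T :=
  (.c (.b (.b (.b (.a (.l 229712) (.l 565584)) (.a (.l 229712) (.l 565584))) (.b (.a (.l 229712)
      (.l 565584)) (.a (.l 229712) (.l 565584)))) (.b (.b (.b (.a (.l 229712) (.l 565584)) (.a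
      (.l 229712) (.l 565584))) (.a (.l 229712) (.l 565584))) (.a (.c (.l 237904) (.l 229712))
      (.l 565584)))) (.b (.b (.b (.a (.l 213328) (.l 47)) (.a (.l 213328) (.l 47))) (.b (.a (.l
      213328) (.l 47)) (.a (.l 213328) (.l 47)))) (.b (.b (.a (.l 213328) (.l 47)) (.a (.c (.l
      47) (.l 47)) (.l 47))) (.a (.c (.l 47) (.l 47)) (.l 47)))))

theorem y2f_h1 : chk3 (onCell 0 1073741824 0 429496730 0 67108864 T2f) y2f_t1 3 1 1 = true := by decide +kernel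

theorem y2f : Tree 0 1073741824 0 429496730 0 67108864 T2f :=
  ⟨_, (chk3_a y2f_h0 y2f_h1)⟩

end Pool.Agent.Strip051.LC.E1.V1
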