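import Pool.Agent.Strip051.LC.E1.V1.Rw
import Pool.Agent.Strip051.LC.E0.Ch.Cell

/-! # Rests near the full period: the row between `W` and `1.15`, certificates -/

set_option maxRecDepth 100000

namespace Pool.Agent.Strip051.LC.E1.V1

open Pool.Agent.Strip051.PB
open Pool.Agent.Strip051.LC.E0.Ch (onCell Tree)

def y1n_t0 : T :=
  (.c (.a (.b (.c (.l 40872) (.b (.l 20392) (.l 20392))) (.c (.b (.l 40872) (.a (.l 40872) (.c
      (.l 81832) (.l 40872)))) (.b (.a (.l 20392) (.l 20392)) (.a (.l 20392) (.l 20392))))) (.b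
      (.c (.a (.l 40872) (.l 40872)) (.a (.l 20392) (.l 20392))) (.c (.a (.b (.l 40872) (.c (.l
      81832) (.l 40872))) (.b (.l 40872) (.c (.l 81832) (.l 40864)))) (.a (.l 20392) (.l
      20392))))) (.a (.b (.c (.b (.l 13608) (.l 13608)) (.b (.l 10152) (.l 10152))) (.c (.b (.a
      (.l 13608) (.l 13608)) (.a (.l 13608) (.l 13608))) (.b (.a (.l 10152) (.l 10152)) (.a (.l
      10152) (.l 10152))))) (.b (.c (.l 13608) (.l 10152)) (.c (.a (.l 13608) (.l 13608)) (.a (.l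
      10152) (.l 10152))))))

theorem y1n_h0 : chk3 (onCell 0 2684354560 0 1073741824 0 26843546 T1n) y1n_t0 8 2 2 = true := by decide +kernel

def y1n_t1 : T :=
  (.a (.b (.c (.b (.l 40872) (.l 40872)) (.l 20392)) (.c (.b (.a (.l 40872) (.l 40872)) (.a (.c
      (.l 81832) (.l 40864)) (.c (.l 81832) (.l 40864)))) (.b (.l 20392) (.l 20392)))) (.b (.c
      (.b (.a (.c (.l 81824) (.l 40864)) (.c (.l 81824) (.l 40864))) (.a (.c (.l 81824) (.l
      40864)) (.c (.b (.l 81824) (.l 81824)) (.l 40864)))) (.b (.a (.l 20384) (.l 20384)) (.a (.l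
      20384) (.l 20384)))) (.c (.a (.b (.c (.b (.l 81824) (.l 81824)) (.l 40864)) (.c (.a (.l
      81856) (.l 81824)) (.l 40864))) (.b (.c (.b (.l 81824) (.l 81824)) (.l 40864)) (.c (.a (.l
      81824) (.l 81824)) (.l 40864)))) (.a (.b (.l 20384) (.l 20384)) (.b (.l 20384) (.l
      20384))))))

theorem y1n_h1 : chk3 (onCell 0 2684354560 0 1073741824 0 26843546 T1n) y1n_t1 9 2 4 = true := by decide +kernel

def y1n_t2 : T :=
  (.a (.b (.c (.l 13608) (.l 10152)) (.c (.b (.l 13608) (.l 13608)) (.b (.l 10152) (.l 10152))))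
      (.b (.c (.b (.a (.l 13600) (.l 13600)) (.a (.l 13600) (.l 13600))) (.b (.a (.l 10144) (.l
      10144)) (.a (.l 10144) (.l 10144)))) (.c (.b (.a (.l 13600) (.l 13600)) (.a (.l 13600) (.l
      13600))) (.b (.a (.l 10144) (.l 10144)) (.a (.l 10144) (.l 10144))))))

theorem y1n_h2 : chk3 (onCell 0 2684354560 0 1073741824 0 26843546 T1n) y1n_t2 9 2 5 = true := by decide +kernel

def y1n_t3 : T :=
  (.b (.c (.a (.c (.l 81832) (.b (.l 40872) (.l 40872))) (.c (.a (.l 81832) (.l 81832)) (.a (.l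
      40872) (.l 40864)))) (.a (.c (.b (.l 27304) (.l 27304)) (.b (.l 20392) (.l 20392))) (.c (.l
      27304) (.l 20392)))) (.c (.a (.c (.b (.l 81832) (.a (.l 81832) (.l 81832))) (.b (.a (.l
      40872) (.l 40872)) (.a (.l 40872) (.l 40872)))) (.c (.a (.b (.l 81832) (.c (.l 163752) (.l
      81832))) (.b (.l 81832) (.c (.l 163752) (.l 81824)))) (.a (.l 40872) (.l 40872)))) (.a (.c
      (.b (.a (.l 27304) (.l 27304)) (.a (.l 27304) (.l 27304))) (.b (.l 20392) (.a (.l 20392)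
      (.l 20392)))) (.c (.a (.l 27304) (.l 27304)) (.a (.l 20392) (.l 20392))))))

theorem y1n_h3 : chk3 (onCell 0 2684354560 0 1073741824 0 26843546 T1n) y1n_t3 16 6 4 = true := by decide +kernel

def y1n_t4 : T :=
  (.c (.b (.a (.c (.a (.l 81832) (.l 81832)) (.l 40872)) (.c (.a (.l 81832) (.l 81832)) (.l
      40872))) (.a (.c (.b (.a (.l 81832) (.l 81832)) (.a (.c (.l 163752) (.l 81824)) (.c (.l
      163752) (.l 81824)))) (.b (.l 40872) (.l 40872))) (.c (.b (.a (.l 81832) (.l 81864)) (.a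
      (.c (.l 163752) (.l 81824)) (.c (.l 163752) (.l 81824)))) (.l 40872)))) (.b (.a (.l 20392)
      (.l 20392)) (.a (.c (.l 27304) (.l 20392)) (.c (.l 27304) (.l 20392)))))

theorem y1n_h4 : chk3 (onCell 0 2684354560 0 1073741824 0 26843546 T1n) y1n_t4 17 6 4 = true := by decide +kernel

def y1n_t5 : T :=
  (.c (.b (.a (.c (.a (.l 81832) (.c (.l 163752) (.b (.l 81832) (.l 81832)))) (.a (.l 40872) (.c
      (.l 54568) (.l 40872)))) (.c (.a (.c (.l 163752) (.l 81832)) (.c (.l 163752) (.l 81824)))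
      (.a (.l 40872) (.l 40872)))) (.a (.c (.a (.c (.l 163752) (.l 81833)) (.c (.b (.l 163752)
      (.l 163752)) (.b (.l 81832) (.l 81832)))) (.a (.c (.l 54568) (.l 40872)) (.c (.l 54568) (.l
      40872)))) (.c (.a (.c (.b (.l 163752) (.a (.l 163752) (.l 163752))) (.l 81832)) (.c (.b (.l
      163752) (.a (.l 163752) (.l 163784))) (.l 81832))) (.a (.c (.l 54568) (.l 40872)) (.l
      40872))))) (.b (.a (.c (.a (.l 27304) (.l 27304)) (.a (.l 20392) (.l 20392))) (.c (.l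
      27304) (.l 20392))) (.a (.c (.a (.l 27304) (.l 27304)) (.l 20393)) (.c (.a (.l 27304) (.l
      27304)) (.a (.l 20392) (.l 20392))))))

theorem y1n_h5 : chk3 (onCell 0 2684354560 0 1073741824 0 26843546 T1n) y1n_t5 16 14 4 = true := by decide +kernel

def y1n_t6 : T :=
  (.a (.c (.b (.a (.c (.l 163753) (.l 81832)) (.c (.a (.l 163752) (.c (.l 327592) (.l 163744)))
      (.a (.l 81832) (.l 2617380)))) (.a (.c (.a (.l 163752) (.c (.l 327592) (.l 163752))) (.a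
      (.l 81832) (.l 81832))) (.c (.a (.c (.l 10481828) (.l 5238948)) (.c (.l 10481828) (.l
      5238948))) (.a (.l 2617508) (.l 2617508))))) (.a (.c (.l 54568) (.l 40872)) (.c (.b (.l
      54568) (.l 54568)) (.b (.l 40872) (.l 1306788))))) (.c (.a (.b (.c (.a (.c (.l 10481700)
      (.l 163744)) (.c (.l 10481700) (.l 163744))) (.l 81832)) (.c (.a (.l 5238948) (.l 5238948))
      (.l 2617508))) (.c (.a (.b (.l 5238820) (.l 5238948)) (.l 5238852)) (.a (.l 2617380) (.l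
      2617380)))) (.a (.b (.l 40872) (.c (.l 1745060) (.l 1306788))) (.c (.a (.l 1744932) (.l
      1744932)) (.a (.l 1306660) (.l 1306660))))))

theorem y1n_h6 : chk3 (onCell 0 2684354560 0 1073741824 0 26843546 T1n) y1n_t6 16 30 8 = true := by decide +kernel

def y1n_t7 : T :=
  (.a (.c (.b (.a (.c (.a (.c (.l 10481956) (.l 5239076)) (.l 5239076)) (.a (.l 2617636) (.l
      2617636))) (.c (.a (.l 5239076) (.l 5239076)) (.a (.l 2617636) (.l 2617636)))) (.a (.c (.b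
      (.a (.l 5239204) (.l 5239204)) (.l 5239205)) (.l 2617764)) (.c (.l 5239204) (.l 2617764))))
      (.b (.a (.l 40872) (.c (.l 1745188) (.l 1306916))) (.a (.l 1307045) (.l 1307044)))) (.c (.a
      (.b (.c (.l 5239076) (.l 2617636)) (.l 2617764)) (.c (.l 5239076) (.l 2617636))) (.a (.b
      (.c (.l 1745188) (.l 1306916)) (.l 1307044)) (.l 1306916))))

theorem y1n_h7 : chk3 (onCell 0 2684354560 0 1073741824 0 26843546 T1n) y1n_t7 16 31 8 = true := by decide +kernel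

def y1n_t8 : T :=
  (.b (.a (.c (.a (.l 27304) (.c (.l 32680) (.l 27304))) (.a (.l 20392) (.l 20392))) (.c (.a (.c
      (.l 32680) (.l 27304)) (.c (.l 1044516) (.l 872484))) (.a (.l 20392) (.l 651300)))) (.a (.c
      (.b (.a (.l 27304) (.l 872740)) (.a (.l 874916) (.l 872868))) (.b (.a (.l 653604) (.l
      651556)) (.l 653732))) (.c (.a (.l 872740) (.l 872740)) (.a (.l 651556) (.l 651556)))))

theorem y1n_h8 : chk3 (onCell 0 2684354560 0 1073741824 0 26843546 T1n) y1n_t8 16 15 9 = true := by decide +kernel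

def y1n_t9 : T :=
  (.c (.b (.a (.c (.b (.a (.c (.l 163752) (.l 81824)) (.c (.l 163784) (.l 81824))) (.a (.c (.b
      (.l 163752) (.a (.l 163784) (.l 163784))) (.l 81832)) (.c (.b (.l 163784) (.a (.l 163784)
      (.l 163784))) (.l 81824)))) (.b (.l 40872) (.a (.l 40872) (.l 40872)))) (.c (.b (.a (.c (.l
      163784) (.l 81824)) (.c (.l 163784) (.l 81824))) (.a (.c (.b (.l 163784) (.a (.l 163784)
      (.l 163784))) (.l 81824)) (.c (.b (.l 163784) (.a (.l 163784) (.l 163784))) (.l 81824))))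
      (.b (.l 40872) (.l 40904)))) (.a (.c (.a (.b (.c (.a (.l 5238852) (.l 5238852)) (.l
      2617380)) (.l 2617636)) (.b (.c (.l 5238852) (.l 2617380)) (.l 2617636))) (.a (.b (.c (.l
      1744932) (.l 1306660)) (.l 1306916)) (.b (.l 1306692) (.l 1306916)))) (.l 1307684))) (.b
      (.a (.c (.b (.l 27304) (.a (.l 27304) (.l 27328))) (.b (.l 20392) (.l 20424))) (.c (.b (.l
      27304) (.l 27304)) (.b (.l 20392) (.l 20424)))) (.a (.c (.a (.b (.l 872484) (.l 872740))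
      (.b (.l 872484) (.l 872740))) (.a (.b (.l 651300) (.l 651556)) (.b (.l 651300) (.l
      651556)))) (.l 652324))))

theorem y1n_h9 : chk3 (onCell 0 2684354560 0 1073741824 0 26843546 T1n) y1n_t9 17 7 4 = true := by decide +kernel

def y1n_t10 : T :=
  (.a (.b (.c (.a (.c (.l 16297) (.l 13608)) (.l 13608)) (.a (.l 10152) (.l 10152))) (.c (.a (.c
      (.b (.l 16296) (.l 16296)) (.l 13608)) (.c (.a (.l 16296) (.l 16296)) (.a (.l 13608) (.l
      13608)))) (.a (.l 10152) (.c (.l 11688) (.l 10152))))) (.c (.b (.a (.l 13608) (.l 13608))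
      (.a (.c (.l 16296) (.l 13608)) (.l 13608))) (.b (.a (.l 10152) (.l 10152)) (.a (.c (.l
      11688) (.l 10152)) (.l 10152)))))

theorem y1n_h10 : chk3 (onCell 0 2684354560 0 1073741824 0 26843546 T1n) y1n_t10 8 6 5 = true := by decide +kernel

def y1n_t11 : T :=
  (.b (.c (.b (.a (.l 13608) (.c (.l 16296) (.l 13608))) (.a (.l 13608) (.c (.l 16296) (.l
      13608)))) (.b (.a (.l 10152) (.l 10152)) (.a (.l 10152) (.l 10152)))) (.c (.b (.a (.c (.a
      (.l 16296) (.l 16296)) (.a (.l 13608) (.l 13608))) (.c (.a (.l 16296) (.l 520228)) (.a (.l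
      13608) (.l 434212)))) (.a (.c (.b (.a (.l 522532) (.l 520484)) (.l 522660)) (.b (.a (.l
      436516) (.l 436516)) (.l 436644))) (.c (.a (.l 520484) (.l 520484)) (.a (.l 434468) (.l
      434468))))) (.b (.a (.c (.a (.l 374820) (.l 11688)) (.a (.l 325668) (.l 10152))) (.c (.l
      11688) (.l 10152))) (.a (.l 325924) (.c (.a (.l 373028) (.l 47)) (.a (.l 323876) (.l
      47)))))))

theorem y1n_h11 : chk3 (onCell 0 2684354560 0 1073741824 0 26843546 T1n) y1n_t11 16 7 5 = true := by decide +kernel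

def y1n_t12 : T :=
  (.c (.b (.a (.c (.b (.l 16296) (.l 16328)) (.b (.l 13608) (.l 13640))) (.c (.b (.l 16288) (.l
      16328)) (.b (.l 13608) (.l 13640)))) (.a (.c (.a (.b (.l 520228) (.l 47)) (.b (.l 520228)
      (.l 47))) (.a (.b (.l 434212) (.l 47)) (.b (.l 47) (.l 47)))) (.l 435236))) (.b (.a (.c (.b
      (.l 11688) (.l 11720)) (.b (.l 10152) (.l 10152))) (.c (.b (.l 11688) (.l 11720)) (.b (.l
      10152) (.l 47)))) (.a (.c (.a (.b (.l 47) (.l 47)) (.l 372772)) (.a (.b (.l 47) (.l 47))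
      (.l 47))) (.l 324644))))

theorem y1n_h12 : chk3 (onCell 0 2684354560 0 1073741824 0 26843546 T1n) y1n_t12 17 7 5 = true := by decide +kernel

def y1n_t13 : T :=
  (.a (.c (.b (.a (.c (.a (.l 81864) (.l 81864)) (.l 40864)) (.c (.a (.l 81864) (.l 81864)) (.l
      40864))) (.a (.c (.b (.a (.l 81864) (.l 81864)) (.a (.c (.l 163752) (.l 81824)) (.c (.l
      163776) (.l 81824)))) (.l 40872)) (.c (.b (.a (.l 81864) (.l 81864)) (.a (.c (.l 163776)
      (.l 81824)) (.c (.l 163776) (.l 81824)))) (.l 40872)))) (.b (.l 20392) (.a (.l 20424) (.l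
      20424)))) (.c (.b (.a (.c (.b (.a (.l 81856) (.l 81856)) (.a (.l 81856) (.l 81856))) (.l
      40864)) (.c (.b (.a (.l 81824) (.l 81824)) (.a (.c (.l 163744) (.l 81824)) (.c (.l 163744)
      (.l 81824)))) (.l 40864))) (.a (.c (.b (.a (.c (.l 163776) (.l 81824)) (.c (.l 163776) (.l
      81824))) (.a (.c (.l 163776) (.l 81824)) (.c (.l 163776) (.l 81824)))) (.l 40896)) (.c (.b
      (.a (.c (.l 163744) (.l 81824)) (.c (.l 163744) (.l 81824))) (.a (.c (.l 163744) (.l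
      81824)) (.c (.b (.l 163744) (.l 163744)) (.l 81824)))) (.l 40864)))) (.b (.a (.l 20416) (.l
      20384)) (.a (.c (.l 27328) (.l 20416)) (.c (.l 27296) (.l 20384))))))

theorem y1n_h13 : chk3 (onCell 0 2684354560 0 1073741824 0 26843546 T1n) y1n_t13 9 6 4 = true := by decide +kernel

def y1n_t14 : T :=
  (.c (.b (.a (.c (.b (.a (.c (.l 163784) (.l 81824)) (.c (.l 163784) (.l 81824))) (.a (.c (.b
      (.l 163784) (.a (.l 163784) (.l 163784))) (.l 81824)) (.c (.b (.l 163784) (.a (.l 163784)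
      (.l 163784))) (.l 81824)))) (.b (.l 40896) (.l 40904))) (.c (.b (.a (.c (.l 163784) (.l
      81824)) (.c (.l 163784) (.l 81824))) (.a (.c (.b (.l 163784) (.a (.l 163784) (.l 163784)))
      (.l 81824)) (.c (.b (.l 163784) (.l 163784)) (.l 81824)))) (.b (.l 40864) (.l 40904)))) (.l
      1307684)) (.b (.a (.c (.b (.l 27296) (.l 27304)) (.b (.l 20384) (.l 20392))) (.c (.b (.l
      27296) (.l 27328)) (.l 20424))) (.a (.l 652324) (.l 652324))))

theorem y1n_h14 : chk3 (onCell 0 2684354560 0 1073741824 0 26843546 T1n) y1n_t14 18 7 4 = true := by decide +kernel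

def y1n_t15 : T :=
  (.a (.c (.b (.a (.c (.b (.l 163776) (.l 163776)) (.l 81824)) (.c (.b (.l 163776) (.l 163776))
      (.l 81824))) (.a (.c (.b (.a (.l 163776) (.l 163776)) (.a (.l 163776) (.l 163776))) (.l
      81856)) (.c (.b (.a (.l 163776) (.l 163776)) (.a (.c (.l 327616) (.l 163744)) (.c (.l
      327584) (.l 163744)))) (.l 81824)))) (.b (.l 40896) (.a (.l 40896) (.l 40896)))) (.c (.b
      (.a (.c (.b (.l 163744) (.a (.l 163744) (.l 163744))) (.l 81824)) (.c (.b (.a (.l 163744)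
      (.l 163744)) (.a (.l 163744) (.c (.l 327584) (.l 163744)))) (.l 81824))) (.a (.c (.b (.a
      (.c (.l 327584) (.l 163744)) (.c (.l 327584) (.l 163744))) (.a (.c (.l 327584) (.l 163744))
      (.c (.l 327584) (.l 163744)))) (.l 81824)) (.b (.c (.a (.c (.l 327584) (.l 163744)) (.c (.l
      327584) (.l 163744))) (.l 81824)) (.c (.a (.c (.l 327584) (.l 163744)) (.c (.l 327584) (.l
      163744))) (.l 81824))))) (.b (.l 40864) (.a (.l 40864) (.l 40864)))))

theorem y1n_h15 : chk3 (onCell 0 2684354560 0 1073741824 0 26843546 T1n) y1n_t15 19 14 8 = true := by decide +kernel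

def y1n_t16 : T :=
  (.a (.c (.b (.l 27328) (.l 27328)) (.b (.l 20416) (.l 20416))) (.c (.b (.l 27296) (.a (.l
      27296) (.l 27296))) (.b (.l 20384) (.l 47))))

theorem y1n_h16 : chk3 (onCell 0 2684354560 0 1073741824 0 26843546 T1n) y1n_t16 19 14 9 = true := by decide +kernel

def y1n_t17 : T :=
  (.c (.a (.c (.b (.a (.l 5239844) (.c (.l 327616) (.l 163744))) (.a (.l 5239972) (.c (.l 327616)
      (.l 163744)))) (.l 81856)) (.c (.b (.a (.c (.l 327616) (.l 163744)) (.c (.l 327616) (.l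
      163744))) (.a (.c (.l 327616) (.l 163744)) (.c (.b (.l 327616) (.l 327616)) (.l 163744))))
      (.b (.l 81824) (.l 81856)))) (.a (.c (.l 54592) (.l 40896)) (.c (.l 54592) (.l 40896))))

theorem y1n_h17 : chk3 (onCell 0 2684354560 0 1073741824 0 26843546 T1n) y1n_t17 38 30 8 = true := by decide +kernel

def y1n_t18 : T :=
  (.c (.a (.b (.c (.a (.l 5240100) (.c (.b (.l 327616) (.l 327616)) (.l 163776))) (.l 81856)) (.c
      (.a (.l 5240228) (.b (.c (.l 327616) (.l 163776)) (.c (.a (.l 246032) (.l 262416)) (.a (.l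
      5240228) (.b (.l 47) (.l 47)))))) (.a (.l 2618788) (.b (.l 47) (.l 47))))) (.b (.c (.a (.b
      (.c (.l 327616) (.l 163744)) (.c (.a (.l 327616) (.l 327616)) (.l 163744))) (.b (.c (.a (.l
      327616) (.l 327616)) (.l 163744)) (.c (.l 327616) (.l 163744)))) (.a (.l 81856) (.l
      81856))) (.c (.a (.b (.c (.a (.l 327616) (.l 327616)) (.l 163776)) (.c (.l 270608) (.a (.b
      (.l 47) (.l 47)) (.b (.l 47) (.l 47))))) (.b (.c (.l 327616) (.l 163776)) (.c (.l 286992)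
      (.a (.b (.l 47) (.l 47)) (.b (.l 47) (.l 47)))))) (.a (.b (.l 47) (.l 47)) (.b (.l 47) (.l
      47)))))) (.a (.b (.c (.l 47) (.l 47)) (.l 47)) (.b (.l 47) (.l 47))))

theorem y1n_h18 : chk3 (onCell 0 2684354560 0 1073741824 0 26843546 T1n) y1n_t18 38 31 8 = true := by decide +kernel

def y1n_t19 : T :=
  (.c (.a (.b (.c (.a (.c (.b (.l 327584) (.l 327584)) (.l 163744)) (.c (.l 327584) (.l 163744)))
      (.l 81824)) (.c (.a (.c (.b (.l 327584) (.l 327584)) (.l 163744)) (.c (.b (.l 327584) (.l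
      327584)) (.l 163744))) (.l 81824))) (.b (.c (.a (.c (.l 327584) (.l 163744)) (.c (.l
      327584) (.l 163744))) (.l 81824)) (.c (.a (.c (.l 327616) (.l 163744)) (.c (.l 327616) (.l
      163744))) (.l 81824)))) (.a (.c (.l 54592) (.l 40896)) (.c (.l 54560) (.l 40864))))

theorem y1n_h19 : chk3 (onCell 0 2684354560 0 1073741824 0 26843546 T1n) y1n_t19 39 30 8 = true := by decide +kernel

def y1n_t20 : T :=
  (.c (.a (.b (.c (.a (.b (.c (.l 327616) (.l 163744)) (.c (.l 327616) (.l 163744))) (.b (.c (.l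
      327616) (.l 163744)) (.c (.l 327616) (.l 163744)))) (.l 81856)) (.c (.a (.b (.c (.l 327616)
      (.l 163776)) (.c (.l 311568) (.a (.b (.l 47) (.l 47)) (.b (.l 47) (.l 47))))) (.b (.c (.l
      327616) (.l 163776)) (.c (.l 336144) (.b (.l 47) (.l 47))))) (.a (.b (.l 47) (.l 47)) (.b
      (.l 47) (.l 47))))) (.b (.c (.a (.b (.c (.l 327616) (.l 163744)) (.c (.l 327616) (.l
      163744))) (.b (.c (.l 327616) (.l 163744)) (.c (.l 327616) (.l 163744)))) (.l 81856)) (.c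
      (.b (.a (.c (.l 327616) (.l 163776)) (.c (.l 327616) (.l 163776))) (.a (.c (.l 360720) (.b
      (.l 47) (.l 47))) (.c (.l 385296) (.b (.l 47) (.l 47))))) (.b (.l 47) (.l 47))))) (.a (.b
      (.l 47) (.l 47)) (.b (.l 47) (.l 47))))

theorem y1n_h20 : chk3 (onCell 0 2684354560 0 1073741824 0 26843546 T1n) y1n_t20 39 31 8 = true := by decide +kernel

def y1n_t21 : T :=
  (.a (.b (.c (.a (.c (.l 47) (.l 47)) (.l 47)) (.l 47)) (.c (.l 47) (.l 47))) (.b (.c (.l 47)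
      (.l 47)) (.l 47)))

theorem y1n_h21 : chk3 (onCell 0 2684354560 0 1073741824 0 26843546 T1n) y1n_t21 19 15 9 = true := by decide +kernel

def y1n_t22 : T :=
  (.b (.a (.c (.b (.l 13608) (.a (.l 13608) (.l 13608))) (.b (.l 10152) (.a (.l 10152) (.l
      10152)))) (.c (.b (.a (.l 13600) (.l 13600)) (.a (.c (.l 16320) (.l 13632)) (.c (.l 16288)
      (.l 13600)))) (.b (.a (.l 10144) (.l 10144)) (.a (.l 10176) (.l 10144))))) (.a (.c (.b (.a
      (.c (.b (.l 16288) (.l 16296)) (.b (.l 13600) (.l 13640))) (.c (.l 16328) (.b (.l 13600)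
      (.l 47)))) (.a (.l 435236) (.l 435236))) (.b (.a (.c (.b (.l 11680) (.l 47)) (.b (.l 10144)
      (.l 47))) (.c (.b (.l 47) (.l 47)) (.l 47))) (.a (.l 47) (.l 47)))) (.b (.c (.a (.c (.b (.l
      16320) (.l 47)) (.b (.l 47) (.l 47))) (.c (.b (.l 16288) (.l 47)) (.l 47))) (.a (.l 47) (.l
      47))) (.c (.a (.l 47) (.l 47)) (.l 47)))))

theorem y1n_h22 : chk3 (onCell 0 2684354560 0 1073741824 0 26843546 T1n) y1n_t22 9 3 5 = true := by decide +kernel

def y1n_t23 : T :=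
  (.c (.a (.b (.c (.b (.l 8104) (.l 8104)) (.b (.l 6824) (.l 6824))) (.c (.b (.a (.l 8104) (.l
      8104)) (.a (.l 8104) (.l 8104))) (.b (.a (.l 6824) (.l 6824)) (.a (.l 6824) (.l 6824)))))
      (.b (.c (.l 8104) (.l 6824)) (.c (.a (.l 8104) (.l 8104)) (.a (.l 6824) (.l 6824))))) (.a
      (.b (.c (.b (.l 5800) (.l 5800)) (.b (.l 5032) (.l 5032))) (.c (.b (.a (.l 5800) (.l 5800))
      (.a (.l 5800) (.l 5800))) (.b (.a (.l 5032) (.l 5032)) (.a (.l 5032) (.l 5032))))) (.b (.c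
      (.l 5800) (.l 5032)) (.c (.a (.l 5800) (.l 5800)) (.a (.l 5032) (.l 5032))))))

theorem y1n_h23 : chk3 (onCell 0 2684354560 0 1073741824 0 26843546 T1n) y1n_t23 8 2 3 = true := by decide +kernel

def y1n_t24 : T :=
  (.c (.a (.b (.c (.l 8104) (.l 6824)) (.c (.b (.l 8104) (.l 8104)) (.b (.l 6824) (.l 6824))))
      (.b (.c (.b (.a (.l 8096) (.l 8096)) (.a (.l 8096) (.l 8096))) (.b (.a (.l 6816) (.l 6816))
      (.a (.l 6816) (.l 6816)))) (.c (.b (.a (.l 8096) (.l 8096)) (.a (.l 8096) (.l 8096))) (.b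
      (.l 6816) (.a (.l 6816) (.l 6816)))))) (.a (.b (.c (.l 5800) (.b (.l 5032) (.l 5032))) (.c
      (.b (.l 5800) (.l 5800)) (.b (.l 5032) (.l 5032)))) (.b (.c (.b (.a (.l 5792) (.l 5792))
      (.a (.l 5792) (.l 5792))) (.b (.a (.l 5024) (.l 5024)) (.a (.l 5024) (.l 5024)))) (.c (.b
      (.a (.l 5792) (.l 5792)) (.a (.l 5792) (.l 5792))) (.b (.a (.l 5024) (.l 5024)) (.a (.l
      5024) (.l 5024)))))))

theorem y1n_h24 : chk3 (onCell 0 2684354560 0 1073741824 0 26843546 T1n) y1n_t24 9 2 3 = true := by decide +kernel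

def y1n_t25 : T :=
  (.a (.b (.c (.a (.l 8104) (.l 8104)) (.a (.l 6824) (.l 6824))) (.c (.a (.l 8104) (.l 8104)) (.a
      (.l 6824) (.l 6824)))) (.c (.b (.a (.l 8104) (.l 8104)) (.a (.l 8136) (.l 8136))) (.b (.a
      (.l 6824) (.l 6824)) (.a (.l 6856) (.l 6856)))))

theorem y1n_h25 : chk3 (onCell 0 2684354560 0 1073741824 0 26843546 T1n) y1n_t25 8 6 6 = true := by decide +kernel

def y1n_t26 : T :=
  (.a (.b (.c (.a (.c (.b (.l 9128) (.l 9128)) (.b (.l 8104) (.l 8104))) (.c (.l 9128) (.l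
      8104))) (.a (.c (.b (.l 7464) (.l 7464)) (.b (.l 6824) (.l 6824))) (.c (.l 7464) (.l
      6824)))) (.c (.b (.a (.c (.a (.l 292900) (.l 9128)) (.a (.l 260132) (.l 8104))) (.c (.l
      9128) (.l 8104))) (.a (.l 260388) (.c (.a (.l 293156) (.l 47)) (.a (.l 47) (.l 47))))) (.b
      (.a (.c (.l 239652) (.l 219172)) (.c (.l 7464) (.l 6824))) (.a (.l 219428) (.c (.l 239908)
      (.l 219428)))))) (.c (.b (.a (.c (.b (.l 9128) (.l 9128)) (.b (.l 8104) (.l 8104))) (.c (.b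
      (.l 9128) (.l 47)) (.b (.l 8104) (.l 47)))) (.a (.c (.a (.l 47) (.l 47)) (.a (.l 47) (.l
      47))) (.l 47))) (.b (.a (.c (.l 7496) (.l 6824)) (.c (.b (.l 47) (.l 47)) (.l 47))) (.a (.c
      (.l 47) (.l 47)) (.l 47)))))

theorem y1n_h26 : chk3 (onCell 0 2684354560 0 1073741824 0 26843546 T1n) y1n_t26 8 7 6 = true := by decide +kernel

def y1n_t27 : T :=
  (.b (.a (.b (.c (.a (.l 5800) (.l 5800)) (.a (.l 5032) (.l 5032))) (.c (.a (.l 5800) (.l 5800))
      (.a (.l 5032) (.l 5032)))) (.c (.b (.a (.l 5800) (.l 5800)) (.a (.l 5800) (.l 5832))) (.b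
      (.a (.l 5032) (.l 5032)) (.a (.l 5032) (.l 5064))))) (.a (.b (.c (.a (.c (.b (.l 6312) (.l
      6312)) (.b (.l 5800) (.l 5800))) (.c (.l 6312) (.l 5800))) (.a (.c (.b (.l 5416) (.l 5416))
      (.b (.l 5032) (.l 5032))) (.c (.l 5416) (.l 5032)))) (.c (.b (.a (.l 186404) (.c (.l 6312)
      (.l 5800))) (.l 186660)) (.b (.a (.l 161828) (.c (.l 5416) (.l 47))) (.l 162084)))) (.c (.b
      (.a (.l 5832) (.l 47)) (.a (.l 47) (.l 47))) (.b (.a (.l 5064) (.l 47)) (.a (.l 47) (.l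
      47))))))

theorem y1n_h27 : chk3 (onCell 0 2684354560 0 1073741824 0 26843546 T1n) y1n_t27 8 3 7 = true := by decide +kernel

def y1n_t28 : T :=
  (.c (.b (.a (.c (.b (.l 8104) (.a (.l 8104) (.l 8104))) (.b (.l 6824) (.a (.l 6856) (.l
      6824)))) (.c (.b (.a (.l 8096) (.l 8096)) (.a (.l 8128) (.l 8096))) (.b (.a (.l 6848) (.l
      6816)) (.a (.c (.l 7488) (.l 47)) (.l 47))))) (.a (.c (.b (.a (.c (.b (.l 47) (.l 47)) (.l
      47)) (.l 47)) (.l 47)) (.b (.a (.l 47) (.l 47)) (.l 47))) (.b (.c (.l 47) (.l 47)) (.l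
      47)))) (.b (.a (.c (.b (.l 5800) (.a (.l 5832) (.l 5832))) (.b (.l 5064) (.a (.l 5064) (.l
      47)))) (.c (.b (.a (.l 5824) (.l 5792)) (.a (.l 47) (.l 47))) (.b (.a (.l 5056) (.l 5024))
      (.l 47)))) (.a (.c (.b (.l 47) (.l 47)) (.b (.l 47) (.l 47))) (.b (.l 47) (.l 47)))))

theorem y1n_h28 : chk3 (onCell 0 2684354560 0 1073741824 0 26843546 T1n) y1n_t28 9 3 3 = true := by decide +kernel

def y1n_t29 : T :=
  (.b (.a (.c (.b (.a (.a (.l 40864) (.c (.l 81824) (.l 40864))) (.l 12)) (.a (.c (.b (.l 81824)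
      (.l 81824)) (.l 40864)) (.c (.b (.l 81824) (.l 81824)) (.l 40864)))) (.b (.l 12) (.a (.l
      20384) (.l 20384)))) (.c (.b (.l 12) (.a (.c (.b (.l 81824) (.l 81824)) (.l 40864)) (.c (.b
      (.l 81824) (.l 81824)) (.l 40864)))) (.b (.l 12) (.a (.l 20384) (.l 20384))))) (.a (.c (.a
      (.b (.c (.b (.l 81824) (.l 81824)) (.l 40864)) (.c (.a (.l 81824) (.b (.l 81824) (.l
      81824))) (.l 40864))) (.b (.c (.b (.l 81824) (.l 81824)) (.l 40864)) (.c (.a (.l 81824) (.l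
      81824)) (.l 40864)))) (.b (.a (.l 20384) (.l 20384)) (.a (.l 20384) (.l 20384)))) (.c (.b
      (.a (.c (.b (.l 81824) (.l 81824)) (.l 40864)) (.c (.b (.l 81824) (.l 81824)) (.l 40864)))
      (.a (.c (.a (.l 81824) (.b (.l 81824) (.l 81824))) (.l 40864)) (.c (.a (.b (.l 81824) (.l
      81824)) (.b (.l 81824) (.l 81824))) (.l 40864)))) (.b (.a (.l 20384) (.l 20384)) (.a (.l
      20384) (.l 20384))))))

theorem y1n_h29 : chk3 (onCell 0 2684354560 0 1073741824 0 26843546 T1n) y1n_t29 10 2 4 = true := by decide +kernel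

def y1n_t30 : T :=
  (.a (.b (.c (.b (.l 12) (.a (.l 13600) (.l 13600))) (.b (.l 12) (.a (.l 10144) (.l 10144))))
      (.c (.b (.a (.l 13600) (.l 13600)) (.a (.l 13600) (.l 13600))) (.b (.a (.l 10144) (.l
      10144)) (.a (.l 10144) (.l 10144))))) (.b (.c (.b (.l 12) (.a (.l 13600) (.l 13600))) (.b
      (.l 12) (.a (.l 10144) (.l 10144)))) (.c (.b (.a (.l 13600) (.l 13600)) (.a (.l 13600) (.l
      13600))) (.b (.a (.l 10144) (.l 10144)) (.a (.l 10144) (.l 10144))))))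

theorem y1n_h30 : chk3 (onCell 0 2684354560 0 1073741824 0 26843546 T1n) y1n_t30 10 2 5 = true := by decide +kernel

def y1n_t31 : T :=
  (.a (.b (.b (.c (.a (.l 12) (.l 12)) (.l 12)) (.c (.a (.b (.c (.l 81824) (.l 40864)) (.l
      40864)) (.a (.a (.b (.l 40864) (.l 40864)) (.l 40866)) (.l 40866))) (.a (.l 20384) (.l
      20384)))) (.c (.b (.a (.c (.b (.l 81824) (.l 81824)) (.l 40864)) (.a (.c (.l 81824) (.l
      40864)) (.l 40866))) (.a (.c (.a (.l 81824) (.l 81824)) (.l 40864)) (.a (.c (.l 81824) (.l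
      40864)) (.l 40866)))) (.b (.a (.l 20384) (.l 20384)) (.a (.l 20384) (.l 20384))))) (.a (.a
      (.b (.c (.l 40866) (.l 20386)) (.c (.a (.l 40866) (.l 40866)) (.l 20386))) (.b (.c (.l
      40866) (.l 20386)) (.c (.l 40866) (.l 20386)))) (.b (.a (.l 20418) (.l 20418)) (.a (.c (.l
      40898) (.l 20386)) (.b (.l 20418) (.l 20418))))))

theorem y1n_h31 : chk3 (onCell 0 2684354560 0 1073741824 0 26843546 T1n) y1n_t31 11 2 4 = true := by decide +kernel

def y1n_t32 : T :=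
  (.b (.a (.b (.l 12) (.c (.a (.l 13600) (.l 13600)) (.a (.l 10144) (.l 10144)))) (.a (.c (.a (.l
      13602) (.l 13602)) (.a (.b (.l 10146) (.l 10144)) (.l 10146))) (.l 10146))) (.a (.c (.b (.a
      (.l 13600) (.l 13600)) (.a (.l 13600) (.l 13600))) (.b (.a (.l 10144) (.l 10144)) (.a (.l
      10144) (.l 10144)))) (.a (.c (.a (.l 13602) (.l 13602)) (.a (.l 10146) (.l 10146))) (.c (.l
      13602) (.l 10146)))))

theorem y1n_h32 : chk3 (onCell 0 2684354560 0 1073741824 0 26843546 T1n) y1n_t32 11 2 5 = true := by decide +kernel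

def y1n_t33 : T :=
  (.c (.b (.a (.c (.a (.b (.l 81824) (.c (.l 163744) (.l 81824))) (.b (.l 81824) (.c (.l 163744)
      (.l 81824)))) (.l 40864)) (.c (.a (.b (.l 81824) (.c (.l 163744) (.l 81824))) (.b (.l
      81824) (.c (.l 163744) (.l 81824)))) (.l 40864))) (.a (.c (.b (.a (.c (.l 163744) (.l
      81824)) (.c (.l 163744) (.l 81824))) (.a (.c (.b (.l 163744) (.l 163744)) (.l 81824)) (.c
      (.b (.l 163744) (.l 163744)) (.l 81824)))) (.b (.l 40864) (.l 40864))) (.c (.b (.a (.c (.l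
      163744) (.l 81824)) (.c (.l 163744) (.l 81824))) (.a (.c (.a (.l 163744) (.l 163744)) (.l
      81824)) (.c (.l 163744) (.l 81824)))) (.a (.l 40864) (.l 40864))))) (.b (.a (.l 20384) (.l
      20384)) (.a (.c (.l 27296) (.l 20384)) (.c (.l 27296) (.l 20384)))))

theorem y1n_h33 : chk3 (onCell 0 2684354560 0 1073741824 0 26843546 T1n) y1n_t33 20 6 4 = true := by decide +kernel

def y1n_t34 : T :=
  (.c (.b (.a (.c (.a (.b (.l 81824) (.l 81824)) (.b (.l 81824) (.l 81824))) (.l 40864)) (.c (.a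
      (.b (.l 81824) (.l 81824)) (.b (.l 81824) (.l 81824))) (.l 40864))) (.a (.c (.b (.a (.c (.l
      163744) (.l 81824)) (.c (.l 163744) (.l 81824))) (.a (.c (.l 163744) (.l 81824)) (.c (.l
      163744) (.l 81824)))) (.l 40864)) (.c (.a (.b (.c (.l 163744) (.l 81824)) (.c (.l 163744)
      (.l 81824))) (.b (.l 81824) (.c (.l 163744) (.l 81824)))) (.l 40864)))) (.b (.a (.l 20384)
      (.l 20384)) (.a (.c (.l 27296) (.l 20384)) (.c (.l 27296) (.l 20384)))))

theorem y1n_h34 : chk3 (onCell 0 2684354560 0 1073741824 0 26843546 T1n) y1n_t34 21 6 4 = true := by decide +kernel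

def y1n_t35 : T :=
  (.c (.a (.b (.c (.a (.c (.b (.a (.l 163744) (.l 163744)) (.a (.c (.l 327584) (.l 163744)) (.l
      163744))) (.l 81824)) (.c (.a (.b (.l 163744) (.l 163744)) (.b (.l 163744) (.l 163744)))
      (.l 81824))) (.l 40864)) (.c (.a (.b (.c (.a (.c (.l 327584) (.l 163744)) (.c (.l 327584)
      (.l 163744))) (.l 81824)) (.c (.a (.c (.l 327584) (.l 163744)) (.c (.l 327584) (.l
      163744))) (.l 81824))) (.b (.c (.a (.l 163744) (.l 163744)) (.l 81824)) (.c (.a (.c (.l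
      327584) (.l 163744)) (.c (.l 327584) (.l 163744))) (.l 81824)))) (.a (.l 40864) (.l
      40864)))) (.b (.c (.a (.c (.b (.l 163744) (.l 163744)) (.l 81824)) (.c (.b (.l 163744) (.l
      163744)) (.l 81824))) (.l 40864)) (.c (.a (.b (.c (.a (.l 163744) (.l 163744)) (.l 81824))
      (.c (.a (.l 163776) (.l 163776)) (.l 81824))) (.b (.c (.l 163744) (.l 81824)) (.c (.a (.l
      163776) (.l 163776)) (.l 81824)))) (.l 40864)))) (.a (.c (.b (.l 27296) (.l 27296)) (.b (.l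
      20384) (.l 47))) (.c (.b (.l 27296) (.l 27296)) (.b (.l 20384) (.l 47)))))

theorem y1n_h35 : chk3 (onCell 0 2684354560 0 1073741824 0 26843546 T1n) y1n_t35 20 14 4 = true := by decide +kernel

def y1n_t36 : T :=
  (.a (.c (.a (.b (.c (.a (.c (.l 327584) (.l 163744)) (.c (.l 327584) (.l 163744))) (.l 81824))
      (.c (.a (.c (.l 327616) (.l 163744)) (.c (.l 327616) (.l 163744))) (.l 81824))) (.b (.c (.a
      (.c (.l 327584) (.l 163744)) (.c (.l 327584) (.l 163744))) (.l 81824)) (.c (.a (.c (.l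
      327616) (.l 163744)) (.c (.l 327616) (.l 163744))) (.l 81824)))) (.a (.c (.l 54560) (.l
      47)) (.c (.l 54560) (.l 47)))) (.c (.a (.b (.c (.a (.c (.l 327584) (.l 163744)) (.c (.l
      327584) (.l 163744))) (.l 81824)) (.c (.a (.c (.l 327616) (.l 163744)) (.c (.l 327616) (.l
      163744))) (.l 81824))) (.b (.c (.a (.c (.l 327584) (.l 163744)) (.l 163776)) (.l 81824))
      (.c (.a (.c (.l 327616) (.l 163744)) (.c (.l 327616) (.l 163744))) (.l 81824)))) (.a (.c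
      (.l 54560) (.l 47)) (.c (.l 54560) (.l 47)))))

theorem y1n_h36 : chk3 (onCell 0 2684354560 0 1073741824 0 26843546 T1n) y1n_t36 20 30 8 = true := by decide +kernel

def y1n_t37 : T :=
  (.c (.b (.a (.c (.a (.b (.c (.l 327616) (.l 163744)) (.c (.l 327616) (.l 163744))) (.b (.c (.l
      327616) (.l 163744)) (.c (.l 327616) (.l 163744)))) (.l 81856)) (.c (.a (.b (.c (.l 327616)
      (.l 163744)) (.c (.l 327616) (.l 163744))) (.b (.c (.l 327616) (.l 163744)) (.c (.l 327616)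
      (.l 163744)))) (.l 81856))) (.a (.c (.b (.a (.c (.l 327616) (.l 163776)) (.c (.l 327616)
      (.l 163776))) (.a (.c (.l 409872) (.b (.l 47) (.l 47))) (.c (.l 434448) (.b (.l 47) (.l
      47))))) (.b (.l 47) (.l 47))) (.c (.b (.a (.c (.l 327616) (.l 163776)) (.c (.l 327616) (.l
      163776))) (.a (.c (.l 459024) (.b (.l 47) (.l 47))) (.c (.l 491792) (.l 47)))) (.b (.l 47)
      (.l 47))))) (.b (.l 47) (.l 47)))

theorem y1n_h37 : chk3 (onCell 0 2684354560 0 1073741824 0 26843546 T1n) y1n_t37 40 31 8 = true := by decide +kernel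

def y1n_t38 : T :=
  (.c (.b (.a (.c (.a (.b (.c (.l 327616) (.l 163744)) (.c (.l 327616) (.l 163744))) (.b (.c (.l
      327616) (.l 163744)) (.c (.l 327616) (.l 163744)))) (.l 81856)) (.c (.a (.b (.c (.l 327616)
      (.l 163744)) (.c (.l 327616) (.l 163744))) (.b (.c (.l 327616) (.l 163744)) (.c (.l 327616)
      (.l 163744)))) (.l 81856))) (.a (.c (.b (.a (.c (.l 327616) (.l 163776)) (.c (.l 327616)
      (.l 163776))) (.a (.c (.l 516368) (.l 47)) (.c (.l 549136) (.l 47)))) (.b (.l 47) (.l 47)))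
      (.c (.b (.a (.c (.l 327616) (.l 163776)) (.c (.l 327616) (.l 163776))) (.a (.c (.l 581904)
      (.l 47)) (.c (.l 606480) (.l 47)))) (.l 47)))) (.b (.l 47) (.l 47)))

theorem y1n_h38 : chk3 (onCell 0 2684354560 0 1073741824 0 26843546 T1n) y1n_t38 41 31 8 = true := by decide +kernel

def y1n_t39 : T :=
  (.b (.a (.c (.l 47) (.l 47)) (.l 47)) (.a (.l 47) (.l 47)))

theorem y1n_h39 : chk3 (onCell 0 2684354560 0 1073741824 0 26843546 T1n) y1n_t39 20 15 9 = true := by decide +kernel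

def y1n_t40 : T :=
  (.c (.a (.b (.c (.a (.c (.l 163776) (.l 81824)) (.c (.l 163744) (.l 81824))) (.l 40864)) (.c
      (.a (.b (.c (.l 163776) (.l 81824)) (.c (.l 163776) (.l 81824))) (.b (.c (.l 163744) (.l
      81824)) (.c (.l 163744) (.l 81824)))) (.l 40864))) (.b (.c (.a (.c (.l 163744) (.l 81824))
      (.c (.l 163744) (.l 81824))) (.l 40864)) (.c (.a (.b (.c (.l 163744) (.l 81824)) (.c (.l
      163744) (.l 81824))) (.c (.b (.l 163744) (.l 163744)) (.l 81824))) (.l 40864)))) (.a (.b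
      (.l 20384) (.c (.l 27296) (.l 47))) (.c (.b (.l 27296) (.l 47)) (.l 47))))

theorem y1n_h40 : chk3 (onCell 0 2684354560 0 1073741824 0 26843546 T1n) y1n_t40 21 14 4 = true := by decide +kernel

def y1n_t41 : T :=
  (.a (.c (.a (.b (.c (.a (.l 163776) (.l 163776)) (.l 81824)) (.c (.a (.b (.l 163776) (.l
      163776)) (.b (.l 163776) (.l 163776))) (.l 81824))) (.b (.c (.a (.l 163776) (.l 163744))
      (.l 81824)) (.c (.a (.b (.l 163776) (.l 163776)) (.b (.l 163744) (.c (.l 327584) (.l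
      163744)))) (.l 81824)))) (.a (.c (.l 54592) (.l 47)) (.c (.l 54560) (.l 47)))) (.c (.a (.b
      (.c (.a (.l 163744) (.c (.l 327584) (.l 163744))) (.l 81824)) (.c (.a (.b (.l 163744) (.c
      (.l 327584) (.l 163744))) (.b (.l 163744) (.l 163744))) (.l 81824))) (.b (.c (.a (.l
      163744) (.l 163744)) (.l 81824)) (.c (.a (.b (.l 163744) (.l 163744)) (.b (.l 163744) (.l
      163744))) (.l 81824)))) (.a (.c (.l 54560) (.l 47)) (.c (.l 54560) (.l 47)))))

theorem y1n_h41 : chk3 (onCell 0 2684354560 0 1073741824 0 26843546 T1n) y1n_t41 21 30 8 = true := by decide +kernel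

def y1n_t42 : T :=
  (.c (.b (.a (.c (.a (.b (.l 163776) (.c (.l 327616) (.l 163744))) (.b (.l 163776) (.c (.l
      327616) (.l 163744)))) (.l 81856)) (.c (.a (.b (.c (.l 327584) (.l 163744)) (.c (.l 327616)
      (.l 163744))) (.b (.c (.l 327584) (.l 163744)) (.c (.l 327584) (.l 163744)))) (.l 81856)))
      (.a (.c (.b (.a (.c (.l 327616) (.l 163776)) (.c (.l 327616) (.l 163776))) (.a (.c (.l
      639248) (.l 47)) (.c (.l 672016) (.l 47)))) (.l 47)) (.b (.c (.a (.c (.l 327616) (.l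
      163744)) (.c (.l 327616) (.l 47))) (.l 47)) (.c (.a (.l 704784) (.l 745744)) (.l 47)))))
      (.b (.l 47) (.l 47)))

theorem y1n_h42 : chk3 (onCell 0 2684354560 0 1073741824 0 26843546 T1n) y1n_t42 42 31 8 = true := by decide +kernel

def y1n_t43 : T :=
  (.b (.c (.a (.c (.b (.a (.c (.l 327584) (.l 163744)) (.l 163744)) (.a (.c (.l 327584) (.l
      163744)) (.c (.l 327584) (.l 163744)))) (.l 81824)) (.c (.b (.a (.l 163744) (.l 163744))
      (.a (.l 163776) (.l 163776))) (.l 81824))) (.l 47)) (.c (.a (.b (.c (.a (.c (.l 327616) (.l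
      47)) (.c (.l 327616) (.l 47))) (.l 47)) (.c (.a (.l 778512) (.l 811280)) (.l 47))) (.b (.c
      (.a (.c (.l 327616) (.l 47)) (.l 860432)) (.l 47)) (.c (.a (.l 852240) (.l 885008)) (.l
      47)))) (.l 47)))

theorem y1n_h43 : chk3 (onCell 0 2684354560 0 1073741824 0 26843546 T1n) y1n_t43 43 31 8 = true := by decide +kernel

def y1n_t44 : T :=
  (.b (.l 47) (.l 47))

theorem y1n_h44 : chk3 (onCell 0 2684354560 0 1073741824 0 26843546 T1n) y1n_t44 21 15 9 = true := by decide +kernel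

def y1n_t45 : T :=
  (.b (.a (.c (.b (.a (.l 13600) (.l 13600)) (.a (.c (.l 16288) (.l 13600)) (.c (.l 16288) (.l
      13600)))) (.b (.a (.l 10144) (.l 10144)) (.a (.c (.l 11680) (.l 10144)) (.c (.l 11680) (.l
      47))))) (.c (.b (.a (.l 13600) (.l 13600)) (.a (.l 237712) (.l 13600))) (.b (.a (.l 10144)
      (.l 10144)) (.a (.l 237712) (.l 295056))))) (.a (.b (.c (.a (.c (.b (.l 47) (.l 47)) (.l
      47)) (.c (.l 47) (.l 47))) (.l 47)) (.c (.l 47) (.l 47))) (.b (.c (.a (.l 47) (.l 47)) (.l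
      47)) (.l 47))))

theorem y1n_h45 : chk3 (onCell 0 2684354560 0 1073741824 0 26843546 T1n) y1n_t45 10 3 5 = true := by decide +kernel

def y1n_t46 : T :=
  (.a (.c (.b (.a (.c (.a (.b (.l 81824) (.l 81824)) (.l 81824)) (.l 40864)) (.a (.c (.a (.l
      81824) (.l 81824)) (.l 40864)) (.a (.c (.l 81824) (.l 40864)) (.l 40866)))) (.a (.c (.a (.b
      (.l 81824) (.c (.l 163744) (.l 81824))) (.b (.l 81824) (.l 81824))) (.l 40864)) (.a (.c (.b
      (.l 81824) (.l 81824)) (.l 40864)) (.b (.c (.l 81824) (.l 40864)) (.c (.l 81826) (.l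
      40864)))))) (.a (.b (.l 20384) (.l 352400)) (.b (.l 20384) (.l 409744)))) (.a (.c (.a (.b
      (.l 40866) (.b (.l 40866) (.a (.l 40866) (.l 40866)))) (.b (.l 40866) (.b (.l 40866) (.l
      40898)))) (.b (.l 20384) (.l 483472))) (.b (.a (.c (.l 40898) (.l 20384)) (.c (.l 40898)
      (.l 20384))) (.a (.c (.l 40898) (.l 20384)) (.c (.l 40898) (.l 20416))))))

theorem y1n_h46 : chk3 (onCell 0 2684354560 0 1073741824 0 26843546 T1n) y1n_t46 11 6 4 = true := by decide +kernel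

def y1n_t47 : T :=
  (.a (.c (.a (.b (.c (.a (.c (.l 163744) (.l 81824)) (.c (.l 163744) (.l 81824))) (.l 40864))
      (.c (.a (.c (.b (.l 163744) (.l 163744)) (.l 81824)) (.c (.l 163744) (.l 81824))) (.l
      40864))) (.a (.b (.c (.a (.c (.l 163744) (.l 81824)) (.l 81826)) (.l 40864)) (.c (.a (.b
      (.l 81824) (.c (.l 163744) (.l 81824))) (.b (.l 81824) (.l 81826))) (.l 40864))) (.b (.c
      (.a (.l 81826) (.l 81826)) (.l 40864)) (.c (.a (.b (.l 81824) (.l 81826)) (.l 81826)) (.l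
      40864))))) (.a (.c (.b (.l 27296) (.l 47)) (.l 47)) (.b (.l 20384) (.l 47)))) (.a (.c (.a
      (.b (.c (.l 81826) (.l 40864)) (.c (.l 852304) (.l 40864))) (.b (.l 778576) (.l 909648)))
      (.a (.l 713040) (.l 762192))) (.c (.b (.l 827728) (.l 975184)) (.l 811344))))

theorem y1n_h47 : chk3 (onCell 0 2684354560 0 1073741824 0 26843546 T1n) y1n_t47 11 14 4 = true := by decide +kernel

def y1n_t48 : T :=
  (.c (.a (.c (.a (.b (.c (.l 163744) (.l 81824)) (.c (.a (.l 163744) (.l 163744)) (.l 81824)))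
      (.b (.c (.l 163744) (.l 81824)) (.c (.a (.l 163744) (.l 163744)) (.l 81824)))) (.a (.l
      721040) (.l 786576))) (.c (.a (.b (.a (.c (.l 163744) (.l 81824)) (.c (.l 163744) (.l
      81824))) (.c (.a (.l 163744) (.l 163744)) (.l 81824))) (.b (.l 926032) (.a (.l 991568) (.l
      1032528)))) (.a (.l 852112) (.l 917648)))) (.l 47))

theorem y1n_h48 : chk3 (onCell 0 2684354560 0 1073741824 0 26843546 T1n) y1n_t48 22 30 4 = true := by decide +kernel

def y1n_t49 : T :=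
  (.c (.b (.a (.c (.a (.c (.b (.l 163744) (.a (.l 163776) (.l 163776))) (.l 47)) (.c (.b (.l
      163744) (.l 163776)) (.l 47))) (.l 47)) (.c (.a (.c (.a (.b (.l 163744) (.l 163776)) (.l
      1024336)) (.l 47)) (.a (.l 1065296) (.l 1098064))) (.l 47))) (.a (.c (.b (.a (.c (.a (.l
      893200) (.l 934160)) (.l 47)) (.c (.a (.l 975120) (.l 1016080)) (.l 47))) (.a (.c (.b (.l
      925968) (.l 942352)) (.l 47)) (.c (.b (.l 1007888) (.l 1024272)) (.l 47)))) (.l 47)) (.c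
      (.b (.a (.c (.a (.l 1048848) (.l 1089808)) (.l 47)) (.l 1130832)) (.a (.c (.b (.l 1089808)
      (.l 1106192)) (.l 47)) (.l 1171792))) (.l 47)))) (.l 47))

theorem y1n_h49 : chk3 (onCell 0 2684354560 0 1073741824 0 26843546 T1n) y1n_t49 22 31 4 = true := by decide +kernel

def y1n_t50 : T :=
  (.a (.b (.c (.a (.c (.l 991568) (.l 991504)) (.l 1057104)) (.l 47)) (.c (.a (.b (.l 1139024)
      (.l 1220944)) (.l 1220944)) (.l 47))) (.c (.b (.l 1130832) (.l 1302864)) (.l 47)))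

theorem y1n_h50 : chk3 (onCell 0 2684354560 0 1073741824 0 26843546 T1n) y1n_t50 23 15 4 = true := by decide +kernel

def y1n_t51 : T :=
  (.b (.b (.a (.c (.a (.l 13600) (.l 13600)) (.a (.l 10144) (.l 10144))) (.a (.c (.l 13600) (.l
      10144)) (.l 10146))) (.a (.c (.a (.l 13600) (.l 409744)) (.a (.l 47) (.l 47))) (.a (.c (.l
      475280) (.l 47)) (.l 549200)))) (.b (.a (.c (.l 47) (.l 47)) (.l 47)) (.a (.l 47) (.l 47))))

theorem y1n_h51 : chk3 (onCell 0 2684354560 0 1073741824 0 26843546 T1n) y1n_t51 11 3 5 = true := by decide +kernel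

def y1n_t52 : T :=
  (.c (.a (.b (.c (.b (.l 12) (.a (.l 8096) (.l 8096))) (.b (.l 12) (.a (.l 6816) (.l 6816))))
      (.c (.b (.a (.l 8096) (.l 8096)) (.a (.l 8096) (.l 8096))) (.b (.a (.l 6816) (.l 6816)) (.a
      (.l 6816) (.l 6816))))) (.b (.c (.b (.l 12) (.a (.l 8096) (.l 8096))) (.b (.l 12) (.a (.l
      6816) (.l 6816)))) (.c (.b (.a (.l 8096) (.l 8096)) (.a (.l 8096) (.l 8096))) (.b (.a (.l
      6816) (.l 6816)) (.a (.l 6816) (.l 6816)))))) (.a (.b (.c (.b (.l 12) (.a (.l 5792) (.l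
      5792))) (.b (.l 12) (.a (.l 5024) (.l 5024)))) (.c (.b (.a (.l 5792) (.l 5792)) (.a (.l
      5792) (.l 5792))) (.b (.a (.l 5024) (.l 5024)) (.a (.l 5024) (.l 5024))))) (.b (.c (.b (.l
      12) (.a (.l 5792) (.l 5792))) (.b (.l 12) (.a (.l 5024) (.l 5024)))) (.c (.a (.b (.l 5792)
      (.l 5792)) (.b (.l 5792) (.l 5792))) (.a (.b (.l 5024) (.l 5024)) (.b (.l 5024) (.l
      5024)))))))

theorem y1n_h52 : chk3 (onCell 0 2684354560 0 1073741824 0 26843546 T1n) y1n_t52 10 2 3 = true := by decide +kernel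

def y1n_t53 : T :=
  (.a (.b (.c (.b (.l 12) (.a (.l 8096) (.l 8096))) (.b (.l 12) (.a (.l 6816) (.l 6816)))) (.c
      (.b (.a (.l 8096) (.l 8096)) (.a (.l 8096) (.l 8096))) (.b (.a (.l 6816) (.l 6816)) (.a (.l
      6816) (.l 6816))))) (.a (.b (.c (.a (.b (.l 8098) (.l 8096)) (.l 8098)) (.b (.l 6818) (.l
      6816))) (.c (.b (.l 8096) (.l 8096)) (.b (.l 6816) (.l 6816)))) (.b (.c (.l 8098) (.l
      6818)) (.c (.a (.l 8098) (.l 8098)) (.a (.l 6818) (.l 6818))))))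

theorem y1n_h53 : chk3 (onCell 0 2684354560 0 1073741824 0 26843546 T1n) y1n_t53 11 2 6 = true := by decide +kernel

def y1n_t54 : T :=
  (.b (.a (.c (.b (.l 12) (.a (.l 5792) (.l 5792))) (.b (.l 12) (.a (.l 5024) (.l 5024)))) (.a
      (.c (.b (.a (.l 5794) (.l 5794)) (.l 5792)) (.b (.a (.l 5026) (.l 5026)) (.l 5026))) (.c
      (.a (.l 5794) (.l 5794)) (.a (.l 5026) (.l 5026))))) (.a (.c (.b (.a (.l 5792) (.l 5792))
      (.a (.l 5792) (.l 5792))) (.b (.a (.l 5024) (.l 5024)) (.a (.l 5024) (.l 5024)))) (.a (.c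
      (.b (.l 5792) (.c (.l 6304) (.l 5792))) (.b (.l 5024) (.c (.l 5408) (.l 5024)))) (.c (.b
      (.l 5792) (.l 5792)) (.b (.l 5024) (.l 5024))))))

theorem y1n_h54 : chk3 (onCell 0 2684354560 0 1073741824 0 26843546 T1n) y1n_t54 11 2 7 = true := by decide +kernel

def y1n_t55 : T :=
  (.a (.c (.b (.a (.c (.b (.a (.l 8096) (.l 8096)) (.a (.c (.l 47) (.l 47)) (.l 47))) (.b (.a (.l
      6816) (.l 6816)) (.l 47))) (.c (.b (.a (.l 8096) (.l 8096)) (.l 47)) (.b (.a (.l 6816) (.l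
      6816)) (.l 47)))) (.b (.l 47) (.l 47))) (.b (.a (.c (.b (.a (.l 5792) (.l 5792)) (.l 47))
      (.b (.a (.l 5024) (.l 47)) (.l 47))) (.c (.b (.a (.l 5792) (.l 47)) (.l 47)) (.b (.l 47)
      (.l 47)))) (.b (.l 47) (.l 47)))) (.c (.b (.a (.c (.a (.b (.l 8096) (.l 47)) (.b (.l 8096)
      (.l 47))) (.a (.b (.l 6816) (.l 47)) (.b (.l 47) (.l 47)))) (.a (.c (.b (.l 295056) (.l
      47)) (.b (.l 47) (.l 47))) (.c (.b (.l 8096) (.l 47)) (.l 47)))) (.b (.l 47) (.l 47))) (.b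
      (.a (.c (.a (.l 47) (.l 47)) (.l 47)) (.c (.l 47) (.l 47))) (.l 47))))

theorem y1n_h55 : chk3 (onCell 0 2684354560 0 1073741824 0 26843546 T1n) y1n_t55 5 3 3 = true := by decide +kernel

def y1n_t56 : T :=
  (.a (.c (.a (.a (.b (.l 20418) (.a (.b (.l 20418) (.l 20418)) (.b (.l 20418) (.l 20418)))) (.b
      (.l 20418) (.b (.l 20418) (.l 20418)))) (.b (.l 20418) (.a (.b (.l 20418) (.l 20418)) (.l
      20418)))) (.a (.a (.b (.l 10146) (.a (.l 10178) (.l 10178))) (.b (.l 10146) (.l 10178)))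
      (.b (.l 10178) (.a (.l 10178) (.l 10178))))) (.c (.a (.b (.l 20418) (.a (.l 20418) (.l
      20418))) (.b (.l 20418) (.l 20418))) (.a (.b (.l 10146) (.a (.l 10178) (.l 10178))) (.b (.l
      10146) (.l 10178)))))

theorem y1n_h56 : chk3 (onCell 0 2684354560 0 1073741824 0 26843546 T1n) y1n_t56 6 2 2 = true := by decide +kernel

def y1n_t57 : T :=
  (.a (.c (.b (.a (.a (.b (.a (.c (.l 40898) (.l 20386)) (.l 20418)) (.a (.c (.l 40898) (.l
      20418)) (.l 680272))) (.b (.l 20418) (.l 713040))) (.b (.a (.l 20418) (.l 20418)) (.a (.l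
      794960) (.l 893264)))) (.b (.a (.a (.b (.l 934224) (.l 1106256)) (.l 1040720)) (.l
      1139024)) (.a (.a (.l 1270096) (.l 1433936)) (.l 1573200)))) (.b (.c (.a (.a (.b (.l 13634)
      (.l 13634)) (.b (.l 13634) (.l 13634))) (.b (.l 13634) (.l 13634))) (.a (.a (.b (.l 10178)
      (.l 47)) (.b (.l 10178) (.l 47))) (.b (.l 10178) (.l 47)))) (.b (.a (.l 47) (.l 47)) (.l
      47)))) (.c (.a (.b (.b (.l 20418) (.l 966992)) (.a (.l 1376592) (.l 1524048))) (.b (.b (.l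
      20418) (.l 1171792)) (.l 1605968))) (.b (.c (.a (.b (.l 13634) (.l 47)) (.b (.l 13634) (.l
      47))) (.a (.b (.l 10178) (.l 47)) (.b (.l 10178) (.l 47)))) (.a (.a (.a (.b (.l 47) (.l
      47)) (.b (.l 47) (.l 47))) (.a (.l 1532240) (.l 47))) (.a (.l 1655120) (.l 47))))))

theorem y1n_h57 : chk3 (onCell 0 2684354560 0 1073741824 0 26843546 T1n) y1n_t57 6 3 2 = true := by decide +kernel

def y1n_t58 : T :=
  (.a (.c (.a (.a (.b (.l 6818) (.c (.l 8130) (.l 6850))) (.b (.l 6818) (.c (.l 8130) (.l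
      6850)))) (.b (.l 6818) (.a (.b (.l 6818) (.l 6850)) (.l 6850)))) (.b (.a (.a (.c (.l 5794)
      (.l 5026)) (.l 5026)) (.a (.l 5026) (.l 5026))) (.a (.a (.c (.b (.l 5794) (.l 5826)) (.b
      (.l 5026) (.l 5058))) (.c (.b (.l 5794) (.l 5794)) (.b (.l 5026) (.l 5026)))) (.a (.b (.l
      5058) (.l 5058)) (.b (.l 5058) (.l 5058)))))) (.c (.a (.b (.l 6818) (.a (.l 6850) (.l
      6850))) (.b (.l 6818) (.b (.l 6850) (.l 6850)))) (.a (.b (.a (.l 5058) (.l 5058)) (.a (.b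
      (.l 5058) (.l 5058)) (.b (.l 5058) (.l 5058)))) (.b (.l 5058) (.b (.l 5058) (.l 5058))))))

theorem y1n_h58 : chk3 (onCell 0 2684354560 0 1073741824 0 26843546 T1n) y1n_t58 6 2 3 = true := by decide +kernel

def y1n_t59 : T :=
  (.a (.c (.b (.a (.a (.c (.b (.l 47) (.l 47)) (.l 47)) (.c (.b (.l 47) (.l 47)) (.l 47))) (.c
      (.b (.l 47) (.l 47)) (.l 47))) (.l 47)) (.b (.a (.l 47) (.l 47)) (.l 47))) (.c (.b (.c (.a
      (.l 47) (.l 47)) (.l 47)) (.l 47)) (.b (.l 47) (.l 47))))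

theorem y1n_h59 : chk3 (onCell 0 2684354560 0 1073741824 0 26843546 T1n) y1n_t59 6 3 3 = true := by decide +kernel

def y1n_t60 : T :=
  (.b (.a (.b (.a (.b (.l 10178) (.l 10178)) (.b (.l 10178) (.l 10178))) (.a (.b (.a (.l 10178)
      (.l 10178)) (.a (.b (.l 10178) (.l 10178)) (.b (.l 10178) (.l 10178)))) (.b (.l 10178) (.a
      (.b (.l 10178) (.l 10178)) (.b (.l 10178) (.l 10178)))))) (.b (.a (.b (.l 10178) (.l
      10178)) (.b (.l 10178) (.l 10178))) (.a (.b (.l 10178) (.b (.l 10178) (.a (.l 10178) (.l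
      10178)))) (.c (.l 20418) (.l 10178))))) (.a (.c (.b (.a (.b (.l 20418) (.l 1392976)) (.b
      (.l 20418) (.l 1638736))) (.a (.l 1925456) (.l 2261328))) (.a (.b (.c (.l 762192) (.l
      745808)) (.l 1892688)) (.a (.b (.l 926032) (.l 47)) (.b (.l 999760) (.l 47))))) (.c (.b (.a
      (.b (.l 20418) (.l 1900880)) (.b (.l 20418) (.l 2187600))) (.l 2449744)) (.b (.c (.b (.l
      13634) (.l 47)) (.a (.l 47) (.l 47))) (.a (.l 47) (.l 47))))))

theorem y1n_h60 : chk3 (onCell 0 2684354560 0 1073741824 0 26843546 T1n) y1n_t60 7 1 2 = true := by decide +kernel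

def y1n_t61 : T :=
  (.b (.a (.c (.a (.b (.l 6818) (.b (.l 6818) (.l 6850))) (.b (.l 6850) (.b (.l 6850) (.l
      6850)))) (.a (.c (.b (.l 5794) (.b (.l 5826) (.l 47))) (.b (.l 5026) (.b (.l 5026) (.l
      47)))) (.c (.b (.l 5794) (.b (.l 5794) (.l 47))) (.b (.l 5026) (.b (.l 5026) (.l 47))))))
      (.c (.a (.c (.b (.l 8098) (.l 8130)) (.b (.l 6818) (.l 6850))) (.c (.b (.l 8098) (.l 8130))
      (.b (.l 6818) (.l 6850)))) (.a (.c (.b (.l 5794) (.b (.l 5794) (.l 47))) (.b (.l 5026) (.b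
      (.l 5026) (.l 47)))) (.b (.l 5026) (.b (.l 5026) (.l 47)))))) (.a (.c (.b (.a (.c (.l 47)
      (.l 47)) (.l 47)) (.l 47)) (.b (.l 47) (.l 47))) (.c (.b (.a (.l 47) (.l 47)) (.l 47)) (.b
      (.l 47) (.l 47)))))

theorem y1n_h61 : chk3 (onCell 0 2684354560 0 1073741824 0 26843546 T1n) y1n_t61 7 1 3 = true := by decide +kernel

theorem y1n : Tree 0 2684354560 0 1073741824 0 26843546 T1n :=
  ⟨_, (chk3_a (chk3_a (chk3_c (chk3_b (chk3_a y1n_h0 (chk3_c y1n_h1 y1n_h2)) (chk3_a (chk3_c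
      (chk3_b (chk3_a y1n_h3 y1n_h4) (chk3_a (chk3_b y1n_h5 (chk3_c (chk3_b y1n_h6 y1n_h7)
      y1n_h8)) y1n_h9)) (chk3_b y1n_h10 (chk3_a y1n_h11 y1n_h12))) (chk3_c (chk3_b y1n_h13
      (chk3_a y1n_h14 (chk3_b (chk3_c y1n_h15 y1n_h16) (chk3_c (chk3_a (chk3_b y1n_h17 y1n_h18)
      (chk3_b y1n_h19 y1n_h20)) y1n_h21)))) y1n_h22))) (chk3_b (chk3_a y1n_h23 y1n_h24) (chk3_a
      (chk3_c (chk3_b y1n_h25 y1n_h26) y1n_h27) y1n_h28))) (chk3_c (chk3_b (chk3_a (chk3_c
      y1n_h29 y1n_h30) (chk3_c y1n_h31 y1n_h32)) (chk3_a (chk3_c (chk3_b (chk3_a y1n_h33 y1n_h34)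
      (chk3_a (chk3_b y1n_h35 (chk3_c (chk3_b y1n_h36 (chk3_a y1n_h37 y1n_h38)) y1n_h39)) (chk3_b
      y1n_h40 (chk3_c (chk3_b y1n_h41 (chk3_a y1n_h42 y1n_h43)) y1n_h44)))) y1n_h45) (chk3_c
      (chk3_b y1n_h46 (chk3_b y1n_h47 (chk3_a (chk3_b y1n_h48 y1n_h49) y1n_h50))) y1n_h51)))
      (chk3_b (chk3_a y1n_h52 (chk3_c y1n_h53 y1n_h54)) y1n_h55))) (chk3_a (chk3_c (chk3_b
      y1n_h56 y1n_h57) (chk3_b y1n_h58 y1n_h59)) (chk3_c y1n_h60 y1n_h61)))⟩

def y2n_t0 : T :=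
  (.c (.a (.b (.a (.l 4034) (.l 4034)) (.a (.l 4034) (.l 4034))) (.c (.l 8130) (.l 4034))) (.a
      (.c (.b (.a (.l 2754) (.l 2754)) (.a (.l 2722) (.l 2754))) (.b (.c (.l 2338) (.a (.l 1954)
      (.l 1954))) (.c (.l 2338) (.a (.l 1954) (.l 1954))))) (.c (.b (.l 2754) (.l 2754)) (.b (.a
      (.l 1954) (.l 47)) (.a (.l 1954) (.l 47))))))

theorem y2n_h0 : chk3 (onCell 0 1073741824 0 429496730 0 67108864 T2n) y2n_t0 2 2 1 = true := by decide +kernel

def y2n_t1 : T :=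
  (.a (.b (.a (.l 4034) (.l 4034)) (.b (.l 4034) (.a (.l 4034) (.l 4034)))) (.c (.b (.l 8130) (.a
      (.l 8130) (.l 8130))) (.b (.l 4034) (.a (.l 4034) (.l 4034)))))

theorem y2n_h1 : chk3 (onCell 0 1073741824 0 429496730 0 67108864 T2n) y2n_t1 2 3 2 = true := by decide +kernel

def y2n_t2 : T :=
  (.a (.b (.c (.l 2722) (.l 1954)) (.b (.l 1986) (.l 1986))) (.b (.a (.l 1986) (.c (.l 2754) (.l
      1954))) (.a (.c (.l 2722) (.l 1954)) (.b (.l 1986) (.c (.l 2722) (.l 1954))))))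

theorem y2n_h2 : chk3 (onCell 0 1073741824 0 429496730 0 67108864 T2n) y2n_t2 4 6 3 = true := by decide +kernel

def y2n_t3 : T :=
  (.b (.b (.a (.l 1954) (.c (.l 2722) (.l 1954))) (.a (.c (.l 2722) (.l 1954)) (.a (.b (.l 1954)
      (.c (.l 2722) (.l 1954))) (.b (.l 1954) (.c (.l 2722) (.l 1954)))))) (.b (.a (.c (.l 2722)
      (.l 1954)) (.b (.a (.c (.l 2722) (.l 1954)) (.c (.l 2722) (.l 1954))) (.a (.c (.l 2722) (.l
      1954)) (.c (.l 2722) (.l 1954))))) (.a (.c (.l 2722) (.l 1954)) (.b (.a (.c (.l 2722) (.l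
      1954)) (.c (.l 2722) (.l 1954))) (.a (.c (.l 2722) (.l 1954)) (.c (.l 2722) (.l 1954)))))))

theorem y2n_h3 : chk3 (onCell 0 1073741824 0 429496730 0 67108864 T2n) y2n_t3 8 7 3 = true := by decide +kernel

def y2n_t4 : T :=
  (.b (.a (.c (.l 2722) (.l 1954)) (.c (.l 2722) (.l 1954))) (.a (.b (.c (.l 2722) (.l 1954)) (.a
      (.b (.c (.l 2722) (.l 1954)) (.c (.l 2722) (.l 1954))) (.b (.c (.l 2722) (.l 1954)) (.c (.l
      2722) (.l 1954))))) (.b (.a (.c (.l 2722) (.l 1954)) (.b (.l 1986) (.c (.l 2722) (.l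
      1954)))) (.a (.b (.a (.c (.l 2722) (.l 1954)) (.c (.l 2722) (.l 1954))) (.a (.c (.l 2722)
      (.l 1954)) (.b (.c (.l 2722) (.l 1954)) (.c (.l 2722) (.l 1954))))) (.b (.a (.b (.c (.l
      2722) (.l 1954)) (.c (.l 2722) (.l 1954))) (.b (.c (.l 2722) (.l 1954)) (.c (.l 2722) (.l
      1954)))) (.a (.b (.c (.l 2722) (.l 1954)) (.c (.l 2722) (.l 1954))) (.b (.c (.l 2722) (.l
      1954)) (.c (.l 2722) (.l 1954)))))))))

theorem y2n_h4 : chk3 (onCell 0 1073741824 0 429496730 0 67108864 T2n) y2n_t4 18 14 3 = true := by decide +kernel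

def y2n_t5 : T :=
  (.b (.a (.b (.l 1986) (.c (.l 2722) (.l 1954))) (.b (.l 1986) (.a (.c (.l 2722) (.l 1954)) (.b
      (.l 1986) (.c (.l 2722) (.l 1954)))))) (.a (.b (.a (.b (.l 1986) (.a (.c (.l 2722) (.l
      1954)) (.c (.l 2722) (.l 1954)))) (.b (.c (.l 2722) (.l 1954)) (.c (.l 2722) (.l 1954))))
      (.a (.b (.a (.b (.c (.l 2722) (.l 1954)) (.c (.l 2722) (.l 1954))) (.c (.l 2722) (.l
      1954))) (.c (.l 2722) (.l 1954))) (.b (.c (.l 2722) (.l 1954)) (.c (.l 2722) (.l 1954)))))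
      (.b (.a (.b (.c (.l 2722) (.l 1954)) (.c (.l 2722) (.l 1954))) (.c (.l 2722) (.l 1954)))
      (.a (.b (.c (.l 2722) (.l 1954)) (.c (.l 2722) (.l 1954))) (.c (.l 2722) (.l 1954))))))

theorem y2n_h5 : chk3 (onCell 0 1073741824 0 429496730 0 67108864 T2n) y2n_t5 19 14 3 = true := by decide +kernel

def y2n_t6 : T :=
  (.b (.a (.b (.c (.l 2722) (.l 1954)) (.c (.l 2722) (.l 1954))) (.b (.c (.l 2722) (.l 1954)) (.c
      (.l 2722) (.l 1954)))) (.a (.b (.c (.l 2722) (.l 1954)) (.c (.l 2722) (.l 1954))) (.b (.c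
      (.l 2722) (.l 1954)) (.c (.l 2722) (.l 1954)))))

theorem y2n_h6 : chk3 (onCell 0 1073741824 0 429496730 0 67108864 T2n) y2n_t6 36 30 3 = true := by decide +kernel

def y2n_t7 : T :=
  (.b (.a (.b (.a (.c (.l 2722) (.l 1954)) (.b (.c (.l 2722) (.l 1954)) (.c (.l 2722) (.l
      1954)))) (.a (.c (.l 2722) (.l 1954)) (.b (.c (.l 2722) (.l 1954)) (.c (.l 2722) (.l
      1954))))) (.b (.a (.b (.c (.l 2722) (.l 1954)) (.c (.l 2722) (.l 1954))) (.b (.c (.l 2722)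
      (.l 1954)) (.c (.l 2722) (.l 1954)))) (.a (.b (.c (.l 2722) (.l 1954)) (.c (.l 2722) (.l
      1954))) (.b (.c (.l 2722) (.l 1954)) (.c (.l 2722) (.l 1954)))))) (.a (.b (.a (.c (.l 2722)
      (.l 1954)) (.b (.c (.l 2722) (.l 1954)) (.c (.l 2722) (.l 1954)))) (.a (.b (.c (.l 2722)
      (.l 1954)) (.c (.l 2722) (.l 1954))) (.b (.c (.l 2722) (.l 1954)) (.c (.l 2722) (.l
      1954))))) (.b (.a (.b (.c (.l 2722) (.l 1954)) (.c (.l 2722) (.l 1954))) (.c (.l 2722) (.l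
      1954))) (.a (.b (.c (.l 2722) (.l 1954)) (.c (.l 2722) (.l 1954))) (.c (.l 2722) (.l
      1954))))))

theorem y2n_h7 : chk3 (onCell 0 1073741824 0 429496730 0 67108864 T2n) y2n_t7 37 30 3 = true := by decide +kernel

def y2n_t8 : T :=
  (.a (.b (.a (.b (.c (.l 2722) (.l 1954)) (.c (.l 2722) (.l 1954))) (.b (.c (.l 2722) (.l 1954))
      (.c (.l 2722) (.l 1954)))) (.a (.b (.c (.l 2722) (.l 1954)) (.c (.l 2722) (.l 1954))) (.b
      (.c (.l 2722) (.l 1954)) (.c (.l 2722) (.l 1954))))) (.b (.a (.b (.a (.b (.c (.l 2722) (.l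
      1954)) (.c (.l 2722) (.l 1954))) (.b (.c (.l 2722) (.l 1954)) (.c (.l 2722) (.l 1954))))
      (.a (.b (.c (.l 2722) (.l 1954)) (.c (.l 2722) (.l 1954))) (.b (.c (.l 2722) (.l 1954)) (.c
      (.l 2722) (.l 1954))))) (.b (.a (.b (.c (.l 2722) (.l 1954)) (.c (.l 2722) (.l 1954))) (.c
      (.l 2722) (.l 1954))) (.c (.l 2722) (.l 1954)))) (.a (.b (.a (.b (.c (.l 2722) (.l 1954))
      (.c (.l 2722) (.l 1954))) (.b (.c (.l 2722) (.l 1954)) (.c (.l 2722) (.l 1954)))) (.a (.b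
      (.c (.l 2722) (.l 1954)) (.c (.l 2722) (.l 1954))) (.b (.c (.l 2722) (.l 1954)) (.c (.l
      2722) (.l 1954))))) (.b (.c (.l 2722) (.l 1954)) (.c (.l 2722) (.l 1954))))))

theorem y2n_h8 : chk3 (onCell 0 1073741824 0 429496730 0 67108864 T2n) y2n_t8 18 31 3 = true := by decide +kernel

def y2n_t9 : T :=
  (.b (.a (.b (.a (.b (.c (.l 2722) (.l 1954)) (.c (.l 2722) (.l 1954))) (.b (.c (.l 2722) (.l
      1954)) (.c (.l 2722) (.l 1954)))) (.a (.b (.c (.l 2722) (.l 1954)) (.c (.l 2722) (.l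
      1954))) (.b (.c (.l 2722) (.l 1954)) (.c (.l 2722) (.l 1954))))) (.b (.c (.l 2722) (.l
      1954)) (.c (.l 2722) (.l 1954)))) (.a (.b (.a (.b (.c (.l 2722) (.l 1954)) (.c (.l 2722)
      (.l 1954))) (.c (.l 2722) (.l 1954))) (.a (.b (.c (.l 2722) (.l 1954)) (.c (.l 2722) (.l
      1954))) (.c (.l 2722) (.l 1954)))) (.b (.c (.l 2722) (.l 1954)) (.c (.l 2722) (.l 1954)))))

theorem y2n_h9 : chk3 (onCell 0 1073741824 0 429496730 0 67108864 T2n) y2n_t9 19 15 3 = true := by decide +kernel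

def y2n_t10 : T :=
  (.c (.b (.a (.l 2754) (.l 2754)) (.a (.l 2754) (.b (.l 2754) (.l 2754)))) (.a (.b (.c (.l 2338)
      (.l 1954)) (.b (.l 1954) (.l 1954))) (.l 47)))

theorem y2n_h10 : chk3 (onCell 0 1073741824 0 429496730 0 67108864 T2n) y2n_t10 5 3 3 = true := by decide +kernel

def y2n_t11 : T :=
  (.b (.b (.b (.b (.b (.a (.l 229712) (.l 565584)) (.a (.l 229712) (.l 565584))) (.b (.a (.l
      229712) (.l 565584)) (.a (.l 229712) (.l 565584)))) (.b (.a (.l 229712) (.l 565584)) (.a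
      (.l 229712) (.l 565584)))) (.b (.b (.a (.l 229712) (.l 565584)) (.a (.l 229712) (.l
      565584))) (.b (.a (.l 229712) (.l 565584)) (.a (.l 229712) (.l 565584))))) (.b (.b (.b (.a
      (.l 229712) (.l 565584)) (.a (.l 229712) (.l 565584))) (.b (.a (.l 229712) (.l 565584)) (.a
      (.l 229712) (.l 565584)))) (.b (.b (.a (.l 229712) (.l 565584)) (.a (.l 229712) (.l
      565584))) (.b (.a (.l 229712) (.l 565584)) (.a (.l 229712) (.l 565584))))))

theorem y2n_h11 : chk3 (onCell 0 1073741824 0 429496730 0 67108864 T2n) y2n_t11 3 4 2 = true := by decide +kernel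

def y2n_t12 : T :=
  (.b (.b (.b (.b (.a (.l 229712) (.l 565584)) (.a (.l 229712) (.l 565584))) (.b (.a (.l 229712)
      (.l 565584)) (.a (.l 229712) (.l 565584)))) (.b (.b (.a (.l 229712) (.l 565584)) (.a (.l
      229712) (.l 565584))) (.b (.a (.l 229712) (.l 565584)) (.a (.l 229712) (.l 565584))))) (.b
      (.b (.b (.a (.l 229712) (.l 565584)) (.a (.l 229712) (.l 565584))) (.b (.a (.l 229712) (.l
      565584)) (.a (.l 229712) (.l 565584)))) (.b (.b (.a (.l 229712) (.l 565584)) (.a (.l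
      229712) (.l 565584))) (.b (.a (.l 229712) (.l 565584)) (.a (.l 229712) (.l 565584))))))

theorem y2n_h12 : chk3 (onCell 0 1073741824 0 429496730 0 67108864 T2n) y2n_t12 3 5 2 = true := by decide +kernel

def y2n_t13 : T :=
  (.b (.b (.b (.b (.b (.a (.l 229712) (.l 565584)) (.a (.l 229712) (.l 565584))) (.a (.l 229712)
      (.l 565584))) (.a (.l 229712) (.l 565584))) (.a (.l 229712) (.l 565584))) (.a (.c (.a (.l
      8130) (.l 409936)) (.l 229712)) (.l 565584)))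

theorem y2n_h13 : chk3 (onCell 0 1073741824 0 429496730 0 67108864 T2n) y2n_t13 3 3 2 = true := by decide +kernel

def y2n_t14 : T :=
  (.b (.b (.b (.a (.l 213328) (.l 47)) (.a (.l 213328) (.l 47))) (.b (.b (.a (.l 213328) (.l 47))
      (.a (.l 213328) (.l 47))) (.b (.a (.l 213328) (.l 47)) (.a (.l 213328) (.l 47))))) (.b (.b
      (.b (.a (.l 213328) (.l 47)) (.a (.l 213328) (.l 47))) (.a (.c (.l 47) (.l 47)) (.l 47)))
      (.a (.c (.l 47) (.l 47)) (.l 47))))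

theorem y2n_h14 : chk3 (onCell 0 1073741824 0 429496730 0 67108864 T2n) y2n_t14 3 1 3 = true := by decide +kernel

theorem y2n : Tree 0 1073741824 0 429496730 0 67108864 T2n :=
  ⟨_, (chk3_a (chk3_b y2n_h0 (chk3_c y2n_h1 (chk3_a (chk3_b y2n_h2 (chk3_a y2n_h3 (chk3_b (chk3_a
      y2n_h4 y2n_h5) (chk3_a (chk3_b (chk3_a y2n_h6 y2n_h7) y2n_h8) y2n_h9)))) y2n_h10))) (chk3_c
      (chk3_b (chk3_b y2n_h11 y2n_h12) y2n_h13) y2n_h14))⟩

end Pool.Agent.Strip051.LC.E1.V1
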