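import Pool.Agent.Strip051.LC.E1.V1.Dx

/-! # Rests near the full period: the row between `W` and `1.15`, the second direct leaf -/

set_option linter.unusedVariables false
set_option linter.unusedSimpArgs false

namespace Pool.Agent.Strip051.LC.E1.V1

open Pool.Agent.Strip051.PB
open Pool.Agent.Strip051.LC.E1.Ch
open Pool.Agent.Strip051.LC.E1.V0
open Pool.Agent.Strip051.LC.E1.G (hg)

/-- The rows differ in the third side only. -/
structure FEq (R X : RowF) : Prop where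
  u : X.u = R.u
  nf : X.nf = R.nf
  bs : X.bs = R.bs
  k12 : X.k12 = R.k12
  k23 : X.k23 = R.k23
  a12 : X.a12 = R.a12
  a23 : X.a23 = R.a23
  b12 : X.b12 = R.b12
  b23 : X.b23 = R.b23
  b13 : X.b13 = R.b13
  v1 : X.v1 = R.v1
  v2 : X.v2 = R.v2
  l : X.l = R.l
  a : X.a = R.a
  b : X.b = R.b
  gm : X.gm = R.gm

theorem XR.of {R X : RowF} {w z m r v nh : ℝ} (F : FEq R X)
    (k13 : X.K13 w z m r = R.K13 w z m r) (a13 : R.A13 w z m r = v * X.A13 w z m r)
    (a12 : R.A12 w z m r = 0) (a23 : R.A23 w z m r = 0) (nu : R.NU w z m r = 0)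
    (n : R.NF w z m r = v * nh) (nn : 0 ≤ nh)
    (l1 : ∀ c : ℝ, R.v1.v w z (w + z) r (m * r) 0 0 (v * c) =
      v * R.v1.v w z (w + z) r (m * r) 0 0 c)
    (l2 : ∀ c : ℝ, R.v2.v w z (w + z) r (m * r) 0 0 (v * c) =
      v * R.v2.v w z (w + z) r (m * r) 0 0 c) : XR R X w z m r v nh := by
  have k12 : X.K12 w z m r = R.K12 w z m r := by
    unfold RowF.K12 RowF.U
    rw [F.k12, F.u]
  have k23 : X.K23 w z m r = R.K23 w z m r := by
    unfold RowF.K23 RowF.U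
    rw [F.k23, F.u]
  have a12' : X.A12 w z m r = 0 := by
    rw [← a12]
    unfold RowF.A12 RowF.U
    rw [F.a12, F.u]
  have a23' : X.A23 w z m r = 0 := by
    rw [← a23]
    unfold RowF.A23 RowF.U
    rw [F.a23, F.u]
  have b12 : X.B12 w z m r = R.B12 w z m r := by
    unfold RowF.B12 RowF.U
    rw [F.b12, F.u]
  have b23 : X.B23 w z m r = R.B23 w z m r := by
    unfold RowF.B23 RowF.U
    rw [F.b23, F.u]
  have b13 : X.B13 w z m r = R.B13 w z m r := by
    unfold RowF.B13 RowF.U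
    rw [F.b13, F.u]
  have l : X.L w z = R.L w z := by
    unfold RowF.L
    rw [F.l]
  have nf : X.NF w z m r = R.NF w z m r := by
    unfold RowF.NF
    rw [F.nf]
  have bs : X.BS w z m r = R.BS w z m r := by
    unfold RowF.BS
    rw [F.bs]
  have gm : X.GM w z m r = R.GM w z m r := by
    unfold RowF.GM
    rw [k12, k23, k13, F.gm]
  refine ⟨?_, nf, bs, l, ?_, ?_, gm, ?_, ?_, ?_, ?_, nu, n, nn, ?_, ?_⟩
  · unfold RowF.U
    rw [F.u]
  · unfold RowF.A
    rw [F.a]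
  · unfold RowF.B
    rw [F.b]
  · unfold RowF.DS RowF.DL
    rw [k12, k23, k13, l]
  · unfold RowF.V1B
    rw [b12, b23, b13, F.v1]
  · unfold RowF.V2B
    rw [b12, b23, b13, F.v2]
  · unfold RowF.BN
    rw [nf, bs, gm]
  · unfold RowF.V1A
    rw [a12, a23, a13, a12', a23', F.v1]
    exact l1 _
  · unfold RowF.V2A
    rw [a12, a23, a13, a12', a23', F.v2]
    exact l2 _

theorem feq_f : FEq Rf Xf :=
  ⟨(show Xf.u = v1_u from rfl).trans rfl, (show Xf.nf = v0_nff from rfl).trans rfl,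
    (show Xf.bs = v0_bsf from rfl).trans rfl, (show Xf.k12 = k1m_wp from rfl).trans rfl,
    (show Xf.k23 = k1p_zn from rfl).trans rfl, (show Xf.a12 = zr7 from rfl).trans rfl,
    (show Xf.a23 = zr7 from rfl).trans rfl, (show Xf.b12 = l1m_wp from rfl).trans rfl,
    (show Xf.b23 = l1p_zn from rfl).trans rfl, (show Xf.b13 = tc1v from rfl).trans rfl,
    (show Xf.v1 = vf1 from rfl).trans rfl, (show Xf.v2 = vf2 from rfl).trans rfl,
    (show Xf.l = lnw from rfl).trans rfl, (show Xf.a = lz from rfl).trans rfl,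
    (show Xf.b = lnt from rfl).trans rfl, (show Xf.gm = gm2 from rfl).trans rfl⟩

theorem feq_n : FEq Rn Xn :=
  ⟨(show Xn.u = v1_u from rfl).trans rfl, (show Xn.nf = v0_nfn from rfl).trans rfl,
    (show Xn.bs = v0_bsn from rfl).trans rfl, (show Xn.k12 = nk1m_wp from rfl).trans rfl,
    (show Xn.k23 = nk1p_zn from rfl).trans rfl, (show Xn.a12 = zr7 from rfl).trans rfl,
    (show Xn.a23 = zr7 from rfl).trans rfl, (show Xn.b12 = l1m_wp from rfl).trans rfl,
    (show Xn.b23 = l1p_zn from rfl).trans rfl, (show Xn.b13 = tc1v from rfl).trans rfl,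
    (show Xn.v1 = mv1 from rfl).trans rfl, (show Xn.v2 = mv2 from rfl).trans rfl,
    (show Xn.l = lnw from rfl).trans rfl, (show Xn.a = lz from rfl).trans rfl,
    (show Xn.b = lnt from rfl).trans rfl, (show Xn.gm = gm2 from rfl).trans rfl⟩

section

variable {w z t m r : ℝ}

theorem k13x_val (hm : 0 < m) (ht : t < 0) (x0 : 0 ≤ m * r) (x1 : m * r ≤ 1 / 40) (u w z : ℝ) :
    v1_k13x.v u w z t m r (m * r) = tk1v.v u w z t m r (m * r) := by
  simp only [v1_k13x, tk1v, v1_g3kx, v1_g3k, v1_g3kx_10, v1_g3k_10, okx_val hm ht x0 x1]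

theorem b13x_val (hm : 0 < m) (ht : t < 0) (u w z : ℝ) :
    v1_b13x.v u w z t m r (m * r) = tb1v.v u w z t m r (m * r) := by
  simp only [v1_b13x, tb1v, v1_g3bx, v1_g3b, v1_g3bx_10, v1_g3b_10, obx_val hm ht]

theorem nk13x_val (hm : 0 < m) (ht : t < 0) (x0 : 0 ≤ m * r) (x1 : m * r ≤ 1 / 40) (u w z : ℝ) :
    v1_nk13x.v u w z t m r (m * r) = ntk1v.v u w z t m r (m * r) := by
  simp only [v1_nk13x, ntk1v]
  rw [k13x_val hm ht x0 x1, b13x_val hm ht]

theorem a13x_val (H : Hc r m t) (hm : 0 < m) (ht : t < 0) (x1 : m * r ≤ 1 / 40) {u : ℝ}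
    (u0 : 0 ≤ u) (u1 : 20 * u ≤ 3 * (G.x3v t r - E0.G.xi1 t r)) (w z : ℝ) :
    ta1v.v u w z t m r (m * r) = -t * v1_a13x.v u w z t m r (m * r) := by
  simp only [v1_a13x]
  have e' := a13_b (w := w) (z := z) H hm ht x1 u0 u1
  rw [min_eq_right e'.2, max_eq_right e'.1]
  have : t ≠ 0 := ht.ne
  field_simp

theorem be_nn {e : ℝ} (h0 : 0 < e) (h1 : e ≤ 1 / 40) : 0 ≤ G.be e := by
  unfold G.be G.B0
  have l0 := LAM_nn h0.le (by linarith : e ≤ 1)
  have m0 := mu_nn e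
  have e0 := eh_pos' h0 (by linarith : e < 1)
  positivity

theorem a12_f : Rf.A12 w z m r = 0 := by
  show zr7.v _ _ _ _ _ _ _ = 0
  simp only [zr7]
  simp

theorem a23_f : Rf.A23 w z m r = 0 := by
  show zr7.v _ _ _ _ _ _ _ = 0
  simp only [zr7]
  simp

theorem a12_n : Rn.A12 w z m r = 0 := by
  show zr7.v _ _ _ _ _ _ _ = 0
  simp only [zr7]
  simp

theorem a23_n : Rn.A23 w z m r = 0 := by
  show zr7.v _ _ _ _ _ _ _ = 0
  simp only [zr7]
  simp

theorem xr_f (H : Hc r m (w + z)) (hm : 0 < m) (ht : w + z < 0) (x1 : m * r ≤ 1 / 40)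
    (u0 : 0 ≤ Rf.U w z m r)
    (u1 : 20 * Rf.U w z m r ≤ 3 * (G.x3v (w + z) r - E0.G.xi1 (w + z) r)) :
    XR Rf Xf w z m r (-(w + z)) (v1_nhf.v (m * r)) := by
  have x0 : 0 < m * r := mul_pos hm H.r0
  refine XR.of feq_f ?_ ?_ a12_f a23_f ?_ ?_ ?_ ?_ ?_
  · show v1_k13x.v (v1_u.v w z m r) w z (w + z) m r (m * r) = tk1v.v (v1_u.v w z m r) w z (w + z) m r
      (m * r)
    exact k13x_val hm ht x0.le x1 _ _ _
  · show ta1v.v (v1_u.v w z m r) w z (w + z) m r (m * r) =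
      -(w + z) * v1_a13x.v (v1_u.v w z m r) w z (w + z) m r (m * r)
    exact a13x_val (u := v1_u.v w z m r) H hm ht x1 u0 u1 w z
  · show nu0.v _ _ _ = 0
    simp only [nu0]
    simp
  · show v0_nff.v _ _ _ = _
    simp only [v0_nff, v1_nhf]
    push_cast
    ring
  · simp only [v1_nhf]
    push_cast
    norm_num
  · intro c
    show vf1.v _ _ _ _ _ _ _ _ = _ * vf1.v _ _ _ _ _ _ _ _
    rw [vf1_val, vf1_val]
    ring
  · intro c
    show vf2.v _ _ _ _ _ _ _ _ = _ * vf2.v _ _ _ _ _ _ _ _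
    rw [vf2_val, vf2_val]
    ring

theorem xr_n (H : Hc r m (w + z)) (hm : 0 < m) (ht : w + z < 0) (x1 : m * r ≤ 1 / 40)
    (u0 : 0 ≤ Rn.U w z m r)
    (u1 : 20 * Rn.U w z m r ≤ 3 * (G.x3v (w + z) r - E0.G.xi1 (w + z) r)) :
    XR Rn Xn w z m r (-(w + z)) (v1_nhn.v (m * r)) := by
  have x0 : 0 < m * r := mul_pos hm H.r0
  refine XR.of feq_n ?_ ?_ a12_n a23_n ?_ ?_ ?_ ?_ ?_
  · show v1_nk13x.v (v1_u.v w z m r) w z (w + z) m r (m * r) = ntk1v.v (v1_u.v w z m r) w z (w + z) m r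
      (m * r)
    exact nk13x_val hm ht x0.le x1 _ _ _
  · show ta1v.v (v1_u.v w z m r) w z (w + z) m r (m * r) =
      -(w + z) * v1_a13x.v (v1_u.v w z m r) w z (w + z) m r (m * r)
    exact a13x_val (u := v1_u.v w z m r) H hm ht x1 u0 u1 w z
  · show nu0.v _ _ _ = 0
    simp only [nu0]
    simp
  · show v0_nfn.v _ _ _ = _
    simp only [v0_nfn, v1_nhn, bef_val]
    push_cast
    ring
  · simp only [v1_nhn, bef_val]
    have := be_nn x0 x1
    push_cast
    positivity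
  · intro c
    show mv1.v _ _ _ _ _ _ _ _ = _ * mv1.v _ _ _ _ _ _ _ _
    rw [mv1_val, mv1_val]
    ring
  · intro c
    show mv2.v _ _ _ _ _ _ _ _ = _ * mv2.v _ _ _ _ _ _ _ _
    rw [mv2_val, mv2_val]
    ring

theorem a13x_z {u : ℝ} (h : -t ≤ 5 / 2 * m) (w z : ℝ) : v1_a13x.v u w z t m r (m * r) = 0 := by
  simp only [v1_a13x]
  rw [show ta1v.v u w z t m r (m * r) = 0 from a13_z h]
  norm_num

theorem umx_f (h : -(w + z) ≤ 5 / 2 * m) : Xf.V1A w z m r = 0 ∧ Xf.V2A w z m r = 0 := by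
  have a12 : Xf.A12 w z m r = 0 := by
    show zr7.v _ _ _ _ _ _ _ = 0
    simp only [zr7]
    simp
  have a23 : Xf.A23 w z m r = 0 := by
    show zr7.v _ _ _ _ _ _ _ = 0
    simp only [zr7]
    simp
  have a13 : Xf.A13 w z m r = 0 := by
    show v1_a13x.v _ _ _ _ _ _ _ = 0
    exact a13x_z h _ _
  constructor
  · unfold RowF.V1A
    rw [a12, a23, a13]
    show vf1.v _ _ _ _ _ _ _ _ = _
    rw [vf1_val]
    simp
  · unfold RowF.V2A
    rw [a12, a23, a13]
    show vf2.v _ _ _ _ _ _ _ _ = _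
    rw [vf2_val]
    simp

theorem umx_n (h : -(w + z) ≤ 5 / 2 * m) : Xn.V1A w z m r = 0 ∧ Xn.V2A w z m r = 0 := by
  have a12 : Xn.A12 w z m r = 0 := by
    show zr7.v _ _ _ _ _ _ _ = 0
    simp only [zr7]
    simp
  have a23 : Xn.A23 w z m r = 0 := by
    show zr7.v _ _ _ _ _ _ _ = 0
    simp only [zr7]
    simp
  have a13 : Xn.A13 w z m r = 0 := by
    show v1_a13x.v _ _ _ _ _ _ _ = 0
    exact a13x_z h _ _
  constructor
  · unfold RowF.V1A
    rw [a12, a23, a13]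
    show mv1.v _ _ _ _ _ _ _ _ = _
    rw [mv1_val]
    simp
  · unfold RowF.V2A
    rw [a12, a23, a13]
    show mv2.v _ _ _ _ _ _ _ _ = _
    rw [mv2_val]
    simp

end

end Pool.Agent.Strip051.LC.E1.V1
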