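import Pool.Agent.Strip051.LC.E1.V1.Bs
import Pool.Agent.Strip051.LC.E1.V0.Lz

/-! # Rests near the full period: the row between `W` and `1.15`, the line `z = 0` -/

set_option linter.unusedVariables false
set_option linter.unusedSimpArgs false

namespace Pool.Agent.Strip051.LC.E1.V1

open Pool.Agent.Strip051.PB
open Pool.Agent.Strip051.LC.E1.Ch
open Pool.Agent.Strip051.LC.E1.V0

attribute [local irreducible] padd psub pneg pmul psq pinv psqrt psqrtg pabs pps pmax pmin pphi plam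
  pcase phf pnat prat pscale pnorm pdc pnc pone ppos pnn Enc

section

variable {E : Pt} {R : RowF} {q : Bool} {S : RowS R q}
  {W Z M Q : ℕ} {w z m r lev : ℝ}

theorem lwT_sound (hw : Enc E W w) (hz : Enc E Z z) (hm : Enc E M m) (hr : Enc E Q r)
    (hq : q = true → R.U w 0 m r = 0) (hN : 0 ≤ z)
    (D : Dm R w z m r) (B : LineZ R w m r) (um : Um R w z m r)
    (hA : R.A w z = z) (hlev : R.Lv w z m r lev)
    (h : lwT S W Z M Q = true) : R.Sk w z m r lev := by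
  unfold lwT at h
  simp only [frc_eq] at h
  obtain ⟨r1, h⟩ := band_true h
  obtain ⟨r2, h⟩ := band_true h
  have hr1 := pnn_sound (enc_sub (enc_neg hw) (enc_rat E 3 5)) r1
  have hr2 := pnn_sound (enc_sub (enc_rat E 11 10) (enc_neg hw)) r2
  push_cast at hr1 hr2
  have hX : Enc E (pnorm (pmul M Q)) (m * r) := enc_norm (enc_mul hm hr)
  have hZ : Pr E z Z pzero pone z 0 :=
    ⟨hz, enc_zero E, 1, enc_one E, by ring⟩
  obtain ⟨Ua, Ub, Ud, NUa, NUb, NUd, NFa, NFb, NFd, BSa, BSb, BSd, La, Lb, Ld, Aa, Ab, Ad, Ba,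
      Bb, Bd, GMa, GMb, GMd, DSa, DSb, DSd, GPa, GPb, GPd, V1Aa, V1Ab, V1Ad, V1Ba, V1Bb, V1Bd,
      V2Aa, V2Ab, V2Ad, V2Ba, V2Bb, V2Bd, BNa, BNb, BNd, h, F⟩ := pval_sound (pr_const hw) hZ hm
      hr hq (fun e => absurd e Bool.false_ne_true) h
  obtain ⟨t0, h⟩ := band_true h
  have h0 := pnn_sound F.ds.l t0
  obtain ⟨v1d, k1, e1⟩ := F.v1b.d
  obtain ⟨v2d, k2, e2⟩ := F.v2b.d
  have hAe : Enc E Aa z := by rw [← hA]; exact F.a.l
  have hlv : ∀ F' : ℝ, 0 ≤ F' + R.V1B w z m r → 0 ≤ F' + R.V2B w z m r → 0 ≤ F' - lev := by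
    intro F' g1 g2
    refine hlev F' ?_ ?_
    · rw [um.v1]; simpa using g1
    · rw [um.v2]; simpa using g2
  have b1 := B.i1 (by linarith) (by linarith)
  have b2 := B.i2 (by linarith) (by linarith)
  have r1 := inL_sound (mar := false) (v1 := R.V1B w z m r) (v2 := R.V2B w z m r) hX hr hm F.l hAe
    F.b.l F.bn F.ds F.gp.l k1 k2 e1 e2 hN h (by simpa using b1) (by simpa using b2)
  refine sk_of_res (nnr := 0) (fo := R.FO w z m r)
    (bs' := (R.NU w z m r + R.NF w z m r) / r + R.BS w z m r) D rfl rfl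
    (nr := 0) (bn' := R.BN w z m r) (by rw [um.nu]; simp) (by linarith) le_rfl hlv
    (Or.inl (Or.inr ⟨h0, ?_⟩))
  rw [hA]
  exact r1

end

/-! ### The line -/

theorem lb_f (hc : LbZ v0_ffl v0_ffr v0_df) {w r : ℝ} (r0 : 0 < r) (r1 : r ≤ 1 / 40) :
    LineZ Rf (-w) 1 r := by
  rcases lt_or_ge w (3 / 5) with hlt | w0
  · exact ⟨fun a _ => by linarith, fun a _ => by linarith⟩
  rcases lt_or_ge (11 / 10) w with hgt | w1
  · exact ⟨fun _ a => by linarith, fun _ a => by linarith⟩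
  have H := Lb.hc r0 r1 w0 w1
  have x1 : 1 * r ≤ 1 / 40 := by linarith
  have hx := xi1_ne r0 r1 w0 w1
  have hU : Rf.U (-w) 0 1 r = 0 := by
    simp only [RowF.U, Rf, v1_u, xi1_val, xi1_0, add_zero]
    ring
  have hL : Rf.L (-w) 0 = w := by
    show Fn3.v lnw _ _ _ = _
    rw [lnw_val, neg_neg]
  have k12 : Rf.K12 (-w) 0 1 r = (G.C1d r 1 (-w)).k := by
    unfold RowF.K12
    simp only [Rf, k1m_wp]
    rw [k1m_val H]
  have k23 : Rf.K23 (-w) 0 1 r = 0 := by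
    unfold RowF.K23
    simp only [Rf, k1p_zn, k1p_0 r0 one_pos x1, neg_zero]
  have k13 : Rf.K13 (-w) 0 1 r = (G.W3 r 1 (-w)).k := by
    unfold RowF.K13
    rw [hU]
    simp only [Rf, tk1v, add_zero, zero_mul, w3k_val]
    rw [W3_k, neg_neg]
  have b12 : Rf.B12 (-w) 0 1 r = 0 := by
    unfold RowF.B12
    simp only [Rf, l1m_wp]
    rw [l1m_val H, C1d_cB r0 r1 w0 w1]
  have b23 : Rf.B23 (-w) 0 1 r = 0 := by
    unfold RowF.B23
    simp only [Rf, l1p_zn, l1p_0 r0 one_pos x1, neg_zero]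
  have b13 : Rf.B13 (-w) 0 1 r = 0 := by
    unfold RowF.B13
    rw [hU]
    simp only [Rf, tc1v, zero_mul]
  have hGM : Rf.GM (-w) 0 1 r = 0 := by
    unfold RowF.GM
    rw [k23]
    show Fn6.v gm2 _ _ _ _ _ _ = 0
    rw [gm2_val]
    ring
  have hNF : Rf.NF (-w) 0 1 r = w / 2 := by
    simp only [RowF.NF, Rf, v0_nff, add_zero]
    push_cast
    ring
  have hBS : Rf.BS (-w) 0 1 r = -((E0.G.xi1 (-w) r ^ 2 + 3 / 4 * w ^ 2) / 2) := by
    simp only [RowF.BS, Rf, v0_bsf, xi1_val, xi1_0, add_zero]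
    push_cast
    ring
  have hDS : Rf.DS (-w) 0 1 r = (1 * ((G.W3 r 1 (-w)).k - (G.C1d r 1 (-w)).k) + 0 * ((G.W3 r 1
      (-w)).b - (G.C1d r 1 (-w)).b)) * (1 - r * w) := by
    unfold RowF.DS RowF.DL
    rw [dsf_val, dln_val, shf_val, hL, k12, k23, k13]
    ring
  have v1 : Rf.V1B (-w) 0 1 r = 0 := by
    unfold RowF.V1B
    rw [b12, b23, b13]
    show Fn8.v vf1 _ _ _ _ _ _ _ _ = 0
    rw [vf1_val]
    ring
  have v2 : Rf.V2B (-w) 0 1 r = 0 := by
    unfold RowF.V2B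
    rw [b12, b23, b13]
    show Fn8.v vf2 _ _ _ _ _ _ _ _ = 0
    rw [vf2_val]
    ring
  refine lineZ_of (n1 := 1) (mu := 0) r0 r1 hL hNF hGM hBS hDS (fun _ _ => v1) (fun _ _ => v2)
      ?_ rfl ?_ ?_ ?_
  · ring
  · intro a b
    have h9 := hc.i a b r0.le r1
    rw [ffl_val] at h9
    unfold Lb.ff at h9
    unfold Lb.fg
    linarith
  · intro a b
    have h9 := hc.o a b r0.le r1
    rw [ffr_val] at h9
    unfold Lb.ff at h9
    unfold Lb.fg
    linarith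
  · intro a b
    have h9 := hc.d a b r0.le r1
    have e1 := k1m_val (m := 1) H
    have e2 := w3k_val (-w) 1 r
    rw [one_mul] at e1 e2
    rw [W3_k]
    simp only [v0_df, v0_df_4, xw0p_val, kx_val, qo_val] at h9
    push_cast at h9
    rw [e1, e2, neg_neg] at h9
    linarith

theorem lb_n (hc : LbZ v0_fnl v0_fnr v0_dn) {w r : ℝ} (r0 : 0 < r) (r1 : r ≤ 1 / 40) :
    LineZ Rn (-w) 1 r := by
  rcases lt_or_ge w (3 / 5) with hlt | w0
  · exact ⟨fun a _ => by linarith, fun a _ => by linarith⟩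
  rcases lt_or_ge (11 / 10) w with hgt | w1
  · exact ⟨fun _ a => by linarith, fun _ a => by linarith⟩
  have H := Lb.hc r0 r1 w0 w1
  have x1 : 1 * r ≤ 1 / 40 := by linarith
  have hx := xi1_ne r0 r1 w0 w1
  have hU : Rn.U (-w) 0 1 r = 0 := by
    simp only [RowF.U, Rn, v1_u, xi1_val, xi1_0, add_zero]
    ring
  have hL : Rn.L (-w) 0 = w := by
    show Fn3.v lnw _ _ _ = _
    rw [lnw_val, neg_neg]
  have k12 : Rn.K12 (-w) 0 1 r = (1 + G.LAM r * G.mu r) * (G.C1d r 1 (-w)).k +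
      G.mu r * (G.C1d r 1 (-w)).b := by
    unfold RowF.K12
    simp only [Rn, nk1m_wp, k1m_wp, b1m_wp, nkf_val]
    rw [k1m_val H, b1m_val H]
    simp only [one_mul]
  have k23 : Rn.K23 (-w) 0 1 r = 0 := by
    unfold RowF.K23
    simp only [Rn, nk1p_zn, k1p_zn, b1p_zn, nkf_val, k1p_0 r0 one_pos x1, b1p_0 r0 one_pos x1]
    ring
  have k13 : Rn.K13 (-w) 0 1 r = (1 + G.LAM r * G.mu r) * (G.W3 r 1 (-w)).k +
      G.mu r * (G.W3 r 1 (-w)).b := by
    unfold RowF.K13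
    rw [hU]
    simp only [Rn, ntk1v, tk1v, tb1v, nkf_val, add_zero, zero_mul, w3k_val, w3b_val]
    rw [W3_k, W3_b, neg_neg, one_mul]
  have b12 : Rn.B12 (-w) 0 1 r = 0 := by
    unfold RowF.B12
    simp only [Rn, l1m_wp]
    rw [l1m_val H, C1d_cB r0 r1 w0 w1]
  have b23 : Rn.B23 (-w) 0 1 r = 0 := by
    unfold RowF.B23
    simp only [Rn, l1p_zn, l1p_0 r0 one_pos x1, neg_zero]
  have b13 : Rn.B13 (-w) 0 1 r = 0 := by
    unfold RowF.B13
    rw [hU]
    simp only [Rn, tc1v, zero_mul]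
  have hGM : Rn.GM (-w) 0 1 r = 0 := by
    unfold RowF.GM
    rw [k23]
    show Fn6.v gm2 _ _ _ _ _ _ = 0
    rw [gm2_val]
    ring
  have hNF : Rn.NF (-w) 0 1 r = w / 2 * G.be r := by
    simp only [RowF.NF, Rn, v0_nfn, bef_val, add_zero]
    simp only [one_mul]
    push_cast
    ring
  have hBS : Rn.BS (-w) 0 1 r = (1 + G.LAM r * G.mu r) * -((E0.G.xi1 (-w) r ^ 2 + 3 / 4 *
      w ^ 2) / 2) - G.mu r * G.LAM r * (G.q1 r / (2 * G.eh r)) * (w / 2) := by
    simp only [RowF.BS, Rn, v0_bsn, xi1_val, xi1_0, add_zero, n1f_val, lmf_val, mu_val', qo_val,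
      eh_val, bef_val]
    simp only [one_mul]
    push_cast
    ring
  have hDS : Rn.DS (-w) 0 1 r = ((1 + G.LAM r * G.mu r) * ((G.W3 r 1 (-w)).k - (G.C1d r 1
      (-w)).k) + G.mu r * ((G.W3 r 1 (-w)).b - (G.C1d r 1 (-w)).b)) * (1 - r * w) := by
    unfold RowF.DS RowF.DL
    rw [dsf_val, dln_val, shf_val, hL, k12, k23, k13]
    ring
  have v1 : Rn.V1B (-w) 0 1 r = 0 := by
    unfold RowF.V1B
    rw [b12, b23, b13]
    show Fn8.v mv1 _ _ _ _ _ _ _ _ = 0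
    rw [mv1_val]
    ring
  have v2 : Rn.V2B (-w) 0 1 r = 0 := by
    unfold RowF.V2B
    rw [b12, b23, b13]
    show Fn8.v mv2 _ _ _ _ _ _ _ _ = 0
    rw [mv2_val]
    ring
  refine lineZ_of (n1 := (1 + G.LAM r * G.mu r)) (mu := G.mu r) r0 r1 hL hNF hGM hBS hDS
      (fun _ _ => v1) (fun _ _ => v2) ?_ rfl ?_ ?_ ?_
  · unfold G.be G.B0
    ring
  · intro a b
    have h9 := hc.i a b r0.le r1
    rw [fnl_val] at h9
    unfold Lb.fn at h9
    unfold Lb.fg
    linarith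
  · intro a b
    have h9 := hc.o a b r0.le r1
    rw [fnr_val] at h9
    unfold Lb.fn at h9
    unfold Lb.fg
    linarith
  · intro a b
    have h9 := hc.d a b r0.le r1
    have e1 := k1m_val (m := 1) H
    have e2 := w3k_val (-w) 1 r
    have e3 := b1m_val (m := 1) H
    have e4 := w3b_val (-w) 1 r
    rw [one_mul] at e1 e2 e3 e4
    rw [W3_k, W3_b]
    simp only [v0_dn, v0_dn_4, xw0p_val, kx_val, qo_val, nkf_val, n1f_val] at h9
    push_cast at h9
    rw [e1, e2, e3, e4, neg_neg] at h9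
    linarith

end Pool.Agent.Strip051.LC.E1.V1
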