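import Pool.Agent.Strip051.LC.E1.V1.Vs
import Pool.Agent.Strip051.LC.E1.V1.Ln
import Pool.Agent.Strip051.LC.E1.V1.Dy
import Pool.Agent.Strip051.LC.E1.V1.CertF
import Pool.Agent.Strip051.LC.E1.V1.CertN
import Pool.Agent.Strip051.LC.E1.V0.CertL
import Pool.Agent.Strip051.LC.E1.Ch.L4

/-! # Rests near the full period: the row between `W` and `1.15` -/

set_option linter.unusedVariables false
set_option linter.unusedSimpArgs false

namespace Pool.Agent.Strip051.LC.E1

open Pool.Agent.Strip051.PB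
open Pool.Agent.Strip051.LC.E1.Ch
open Pool.Agent.Strip051.LC.E1.V0 (lbz_f lbz_n LineZ)
open Pool.Agent.Strip051.LC.E1.V1

/-- V, 12 on `c1`, 23 on `c1`, `w ≤ 0 ≤ z`, 13 between `W` and `1.15`, the far vertex -/
theorem vu_1_far : ∀ r lam w z xi : ℝ, Dom .npn r lam w z → w + z < 0 →
    xi = E0.G.xi1 w r - E0.G.xi1 z r → E0.G.xi1 (w + z) r ≤ xi → xi ≤ G.xv5 (w + z) r →
    RowV .far .npn r lam w z xi 0 (G.C1d r lam w) (-G.C1u r lam z)
      (G.V1 xi r lam (w + z)) := by
  intro r lam w z xi D ht e_xi h1 h2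
  have g := gf D ht e_xi h1
  obtain ⟨H1, H2, H3⟩ := hc_of D
  have hw0 : w < 0 := by
    have : 0 < -w := D.l
    linarith
  obtain ⟨ka, kb, kc⟩ : w ≤ 0 ∧ 0 ≤ z ∧ w + z ≤ 0 := D.ok
  have h4 : -4 < r * (w + z) := by
    have := (abs_le.1 H3.a).1
    linarith
  have hU : Rf.U w z lam r = xi - E0.G.xi1 (w + z) r := by
    rw [e_xi]
    exact u_val
  have u0 : 0 ≤ Rf.U w z lam r := by
    rw [hU]
    linarith
  have u1 : 20 * Rf.U w z lam r ≤ 3 * (G.x3v (w + z) r - E0.G.xi1 (w + z) r) := by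
    rw [hU]
    unfold G.xv5 at h2
    linarith
  have u00 : Rf.U 0 0 lam r = 0 := (cb_f D.r0 D.l0 D.e).u
  refine charts y1f y2f (crd_npn D) D.r0 D.l0 ?_ ?_
  · intro e1 r1 E h W Wd Z Zd M Q N wd zd kw kwd kz kzd km kr ew ez hN hh
    have hw5 : -(w + z) ≤ 5 / 2 * lam := le5 D e1 (by show -(w + z) ≤ -w; linarith)
    have hum : Um Rf w z lam r := um_f hw5
    have hum0 : Um Rf 0 0 lam r := um_f (by have := D.l0; linarith)
    refine body_sound ?_ ?_ ?_ ?_ ?_ ?_ hh
    · exact fun c k s h0 => g.of_sk fun lev D' hl => dirT_sound kw kz km kr D' (fun _ => hum)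
        hl h0
    · exact fun c k s h0 => g.of_sk fun lev D' hl => vsT_sound kw kz kwd kzd km kr ew ez hN D' H1
        H3 hw0 ht u00 hum (vr_f D.r0 ht h4) u1
        (fun hs V sm => vb_f D.r0 D.l0 D.e hw0 hs V (by push_cast at sm; linarith))
        (fun V sm C hy => gr_f D.r0 D.l0 D.e V C hy) hl h0
    · exact fun c k s h0 => g.of_sk fun lev D' hl => conT_sound kw kz kwd kzd km kr ew ez hN D'
        (cb_f D.r0 D.l0 D.e) (fun _ => hum) (fun _ => hum0) hl h0
    · intro _ j _ h0
      refine g.of_sk fun lev D' hl => ?_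
      subst e1
      have hB : LineZ Rf w 1 r := by
        have := lb_f lbz_f (w := -w) D.r0 r1
        rwa [neg_neg] at this
      exact lwT_sound kw kz km kr (fun _ => by
        show v1_u.v w 0 1 r = 0
        rw [u_val, xi1_0, add_zero]
        ring) kb D' hB hum (by show Fn3.v lz _ _ _ = _; rw [lz_val]) hl h0
    · exact exits_sound (fun h0 => absurd h0 Bool.false_ne_true)
        (fun h0 => (exV_sound kw kz km kr D.r0 ht h4 u1 h0).elim)
        (fun h0 => absurd h0 Bool.false_ne_true)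
    · exact fun _ a b h0 => g.of_sk fun lev D' hl => dsT_sound kw kz km kr D' (by linarith)
        (u_sq H3 ht u0 u1) (xr_f H3 D.l0 ht D.e u0 u1) (fun _ => umx_f hw5) hl h0
  · intro E h W Wd Z Zd M Q N wd zd kw kwd kz kzd km kr ew ez hN hh
    refine body_sound ?_ ?_ ?_ ?_ ?_ ?_ hh
    · exact fun c k s h0 => g.of_sk fun lev D' hl => dirT_sound kw kz km kr D' (fun e => absurd e
        Bool.false_ne_true) hl h0
    · exact noF_sound
    · exact noF_sound
    · exact noF_sound
    · exact exits_sound (fun h0 => absurd h0 Bool.false_ne_true)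
        (fun h0 => (exV_sound kw kz km kr D.r0 ht h4 u1 h0).elim)
        (fun h0 => absurd h0 Bool.false_ne_true)
    · exact fun _ a b h0 => g.of_sk fun lev D' hl => dsT_sound kw kz km kr D' (by linarith)
        (u_sq H3 ht u0 u1) (xr_f H3 D.l0 ht D.e u0 u1) (fun e => absurd e Bool.false_ne_true)
        hl h0

/-- V, 12 on `c1`, 23 on `c1`, `w ≤ 0 ≤ z`, 13 between `W` and `1.15`, the near vertex -/
theorem vu_1_near : ∀ r lam w z xi : ℝ, Dom .npn r lam w z → w + z < 0 →
    xi = E0.G.xi1 w r - E0.G.xi1 z r → E0.G.xi1 (w + z) r ≤ xi → xi ≤ G.xv5 (w + z) r →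
    RowV .near .npn r lam w z xi 0 (G.C1d r lam w) (-G.C1u r lam z)
      (G.V1 xi r lam (w + z)) := by
  intro r lam w z xi D ht e_xi h1 h2
  have g := gn D ht e_xi h1
  obtain ⟨H1, H2, H3⟩ := hc_of D
  have hw0 : w < 0 := by
    have : 0 < -w := D.l
    linarith
  obtain ⟨ka, kb, kc⟩ : w ≤ 0 ∧ 0 ≤ z ∧ w + z ≤ 0 := D.ok
  have h4 : -4 < r * (w + z) := by
    have := (abs_le.1 H3.a).1
    linarith
  have hU : Rn.U w z lam r = xi - E0.G.xi1 (w + z) r := by
    rw [e_xi]
    exact u_val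
  have u0 : 0 ≤ Rn.U w z lam r := by
    rw [hU]
    linarith
  have u1 : 20 * Rn.U w z lam r ≤ 3 * (G.x3v (w + z) r - E0.G.xi1 (w + z) r) := by
    rw [hU]
    unfold G.xv5 at h2
    linarith
  have u00 : Rn.U 0 0 lam r = 0 := (cb_n D.r0 D.l0 D.e).u
  refine charts y1n y2n (crd_npn D) D.r0 D.l0 ?_ ?_
  · intro e1 r1 E h W Wd Z Zd M Q N wd zd kw kwd kz kzd km kr ew ez hN hh
    have hw5 : -(w + z) ≤ 5 / 2 * lam := le5 D e1 (by show -(w + z) ≤ -w; linarith)
    have hum : Um Rn w z lam r := um_n hw5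
    have hum0 : Um Rn 0 0 lam r := um_n (by have := D.l0; linarith)
    refine body_sound ?_ ?_ ?_ ?_ ?_ ?_ hh
    · exact fun c k s h0 => g.of_sk fun lev D' hl => dirT_sound kw kz km kr D' (fun _ => hum)
        hl h0
    · exact fun c k s h0 => g.of_sk fun lev D' hl => vsT_sound kw kz kwd kzd km kr ew ez hN D' H1
        H3 hw0 ht u00 hum (vr_n D.r0 ht h4) u1
        (fun hs V sm => vb_n D.r0 D.l0 D.e hw0 hs V (by push_cast at sm; have := D.l0; linarith))
        (fun V sm C hy => gr_n D.r0 D.l0 D.e V (by push_cast at sm; linarith) C hy) hl h0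
    · exact fun c k s h0 => g.of_sk fun lev D' hl => conT_sound kw kz kwd kzd km kr ew ez hN D'
        (cb_n D.r0 D.l0 D.e) (fun _ => hum) (fun _ => hum0) hl h0
    · intro _ j _ h0
      refine g.of_sk fun lev D' hl => ?_
      subst e1
      have hB : LineZ Rn w 1 r := by
        have := lb_n lbz_n (w := -w) D.r0 r1
        rwa [neg_neg] at this
      exact lwT_sound kw kz km kr (fun _ => by
        show v1_u.v w 0 1 r = 0
        rw [u_val, xi1_0, add_zero]
        ring) kb D' hB hum (by show Fn3.v lz _ _ _ = _; rw [lz_val]) hl h0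
    · exact exits_sound (fun h0 => absurd h0 Bool.false_ne_true)
        (fun h0 => (exV_sound kw kz km kr D.r0 ht h4 u1 h0).elim)
        (fun h0 => absurd h0 Bool.false_ne_true)
    · exact fun _ a b h0 => g.of_sk fun lev D' hl => dsT_sound kw kz km kr D' (by linarith)
        (u_sq H3 ht u0 u1) (xr_n H3 D.l0 ht D.e u0 u1) (fun _ => umx_n hw5) hl h0
  · intro E h W Wd Z Zd M Q N wd zd kw kwd kz kzd km kr ew ez hN hh
    refine body_sound ?_ ?_ ?_ ?_ ?_ ?_ hh
    · exact fun c k s h0 => g.of_sk fun lev D' hl => dirT_sound kw kz km kr D' (fun e => absurd e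
        Bool.false_ne_true) hl h0
    · exact noF_sound
    · exact noF_sound
    · exact noF_sound
    · exact exits_sound (fun h0 => absurd h0 Bool.false_ne_true)
        (fun h0 => (exV_sound kw kz km kr D.r0 ht h4 u1 h0).elim)
        (fun h0 => absurd h0 Bool.false_ne_true)
    · exact fun _ a b h0 => g.of_sk fun lev D' hl => dsT_sound kw kz km kr D' (by linarith)
        (u_sq H3 ht u0 u1) (xr_n H3 D.l0 ht D.e u0 u1) (fun e => absurd e Bool.false_ne_true)
        hl h0

end Pool.Agent.Strip051.LC.E1
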