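import Pool.Agent.Strip051.LC.E1.V1.Val
import Pool.Agent.Strip051.LC.E1.V0.Lz
import Pool.Agent.Strip051.LC.E1.Ch.Sb

/-! # Rests near the full period: the row between `W` and `1.15`, the lattice point, coordinates -/

set_option linter.unusedVariables false
set_option linter.unusedSimpArgs false

namespace Pool.Agent.Strip051.LC.E1.V1

open Pool.Agent.Strip051.PB
open Pool.Agent.Strip051.LC.E1.Ch
open Pool.Agent.Strip051.LC.E1.V0

theorem w3k_0 {m : ℝ} (r : ℝ) (m0 : 0 < m) : w3k.v 0 m r (m * r) = 0 := by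
  rw [w3k_val]
  unfold G.wK3
  rw [neg_zero, tl_0 m0]
  ring

theorem w3b_0 {m : ℝ} (r : ℝ) (m0 : 0 < m) : v0_w3b.v 0 m r (m * r) = 0 := by
  rw [w3b_val]
  unfold G.wB3
  rw [neg_zero, tl_0 m0]
  ring

theorem xw3_0 {m : ℝ} (r : ℝ) (m0 : 0 < m) : xw3.v 0 m r (m * r) = 0 := by
  rw [xw3_val]
  unfold G.W3
  simp only [neg_zero, hg_le (by linarith : 0 - 5 / 2 * m ≤ 0), mul_zero]

theorem cb_f {m r : ℝ} (r0 : 0 < r) (m0 : 0 < m) (x1 : m * r ≤ 1 / 40) : SBase Rf 0 0 m r 0 := by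
  have hU : Rf.U 0 0 m r = 0 := by
    simp only [RowF.U, Rf, v1_u, xi1_val, xi1_0, sub_zero, add_zero]
  have k12 : Rf.K12 0 0 m r = 0 := by
    unfold RowF.K12
    simp only [Rf, k1m_wp, k1m_0 r0 m0 x1]
  have k23 : Rf.K23 0 0 m r = 0 := by
    unfold RowF.K23
    simp only [Rf, k1p_zn, k1p_0 r0 m0 x1, neg_zero]
  have k13 : Rf.K13 0 0 m r = 0 := by
    unfold RowF.K13
    rw [hU]
    simp only [Rf, tk1v, zero_mul, add_zero, w3k_0 r m0]
  have a12 : Rf.A12 0 0 m r = 0 := by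
    unfold RowF.A12
    simp only [Rf, zr7]
    push_cast
    ring
  have a23 : Rf.A23 0 0 m r = 0 := by
    unfold RowF.A23
    simp only [Rf, zr7]
    push_cast
    ring
  have a13 : Rf.A13 0 0 m r = 0 := by
    unfold RowF.A13
    rw [hU]
    simp only [Rf, ta1v, zero_mul, add_zero, sub_zero, xw3_0 r m0]
  have b12 : Rf.B12 0 0 m r = 0 := by
    unfold RowF.B12
    simp only [Rf, l1m_wp, l1m_0 r0 m0 x1]
  have b23 : Rf.B23 0 0 m r = 0 := by
    unfold RowF.B23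
    simp only [Rf, l1p_zn, l1p_0 r0 m0 x1, neg_zero]
  have b13 : Rf.B13 0 0 m r = 0 := by
    unfold RowF.B13
    rw [hU]
    simp only [Rf, tc1v, zero_mul]
  have hD : Rf.DL 0 0 m r = 0 := by
    unfold RowF.DL
    rw [dln_val, k12, k23, k13]
    ring
  have hN : Rf.NF 0 0 m r = r * 0 := by
    simp only [RowF.NF, Rf, v0_nff, add_zero]
    push_cast
    ring
  have hG : Rf.GM 0 0 m r = -0 := by
    unfold RowF.GM
    rw [k12, k23, k13]
    show Fn6.v gm2 _ _ _ _ _ _ = _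
    rw [gm2_val]
    ring
  have hb : Rf.NU 0 0 m r / r + Rf.BS 0 0 m r = -0 + 0 := by
    simp only [RowF.NU, RowF.BS, Rf, nu0, v0_bsf, xi1_val, xi1_0]
    simp
  have v1 : 0 ≤ Rf.V1A 0 0 m r / r + Rf.V1B 0 0 m r := by
    unfold RowF.V1A RowF.V1B
    rw [a12, a23, a13, b12, b23, b13]
    simp only [Rf, vf1_val]
    simp
  have v2 : 0 ≤ Rf.V2A 0 0 m r / r + Rf.V2B 0 0 m r := by
    unfold RowF.V2A RowF.V2B
    rw [a12, a23, a13, b12, b23, b13]
    simp only [Rf, vf2_val]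
    simp
  exact sb_core r0 m0 x1 hU hD hN hG hb le_rfl (Or.inr rfl) v1 v2

theorem cb_n {m r : ℝ} (r0 : 0 < r) (m0 : 0 < m) (x1 : m * r ≤ 1 / 40) : SBase Rn 0 0 m r 0 := by
  have hU : Rn.U 0 0 m r = 0 := by
    simp only [RowF.U, Rn, v1_u, xi1_val, xi1_0, sub_zero, add_zero]
  have k12 : Rn.K12 0 0 m r = 0 := by
    unfold RowF.K12
    simp only [Rn, nk1m_wp, k1m_wp, b1m_wp, k1m_0 r0 m0 x1, b1m_0 r0 m0 x1, nkf_0]
  have k23 : Rn.K23 0 0 m r = 0 := by
    unfold RowF.K23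
    simp only [Rn, nk1p_zn, k1p_zn, b1p_zn, k1p_0 r0 m0 x1, b1p_0 r0 m0 x1, neg_zero, nkf_0]
  have k13 : Rn.K13 0 0 m r = 0 := by
    unfold RowF.K13
    rw [hU]
    simp only [Rn, ntk1v, tk1v, tb1v, zero_mul, add_zero, w3k_0 r m0, w3b_0 r m0, nkf_0]
  have a12 : Rn.A12 0 0 m r = 0 := by
    unfold RowF.A12
    simp only [Rn, zr7]
    push_cast
    ring
  have a23 : Rn.A23 0 0 m r = 0 := by
    unfold RowF.A23
    simp only [Rn, zr7]
    push_cast
    ring
  have a13 : Rn.A13 0 0 m r = 0 := by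
    unfold RowF.A13
    rw [hU]
    simp only [Rn, ta1v, zero_mul, add_zero, sub_zero, xw3_0 r m0]
  have b12 : Rn.B12 0 0 m r = 0 := by
    unfold RowF.B12
    simp only [Rn, l1m_wp, l1m_0 r0 m0 x1]
  have b23 : Rn.B23 0 0 m r = 0 := by
    unfold RowF.B23
    simp only [Rn, l1p_zn, l1p_0 r0 m0 x1, neg_zero]
  have b13 : Rn.B13 0 0 m r = 0 := by
    unfold RowF.B13
    rw [hU]
    simp only [Rn, tc1v, zero_mul]
  have hD : Rn.DL 0 0 m r = 0 := by
    unfold RowF.DL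
    rw [dln_val, k12, k23, k13]
    ring
  have hN : Rn.NF 0 0 m r = r * 0 := by
    simp only [RowF.NF, Rn, v0_nfn, add_zero]
    push_cast
    ring
  have hG : Rn.GM 0 0 m r = -0 := by
    unfold RowF.GM
    rw [k12, k23, k13]
    show Fn6.v gm2 _ _ _ _ _ _ = _
    rw [gm2_val]
    ring
  have hb : Rn.NU 0 0 m r / r + Rn.BS 0 0 m r = -0 + 0 := by
    simp only [RowF.NU, RowF.BS, Rn, nu0, v0_bsn, xi1_val, xi1_0, add_zero]
    simp
  have v1 : 0 ≤ Rn.V1A 0 0 m r / r + Rn.V1B 0 0 m r := by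
    unfold RowF.V1A RowF.V1B
    rw [a12, a23, a13, b12, b23, b13]
    simp only [Rn, mv1_val]
    simp
  have v2 : 0 ≤ Rn.V2A 0 0 m r / r + Rn.V2B 0 0 m r := by
    unfold RowF.V2A RowF.V2B
    rw [a12, a23, a13, b12, b23, b13]
    simp only [Rn, mv2_val]
    simp
  exact sb_core r0 m0 x1 hU hD hN hG hb le_rfl (Or.inr rfl) v1 v2

/-! ### The levels without terms of first order -/

theorem a13_z {u w z t m r : ℝ} (h : -t ≤ 5 / 2 * m) : ta1v.v u w z t m r (m * r) = 0 := by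
  simp only [ta1v, qx3_z h, xw3_val]
  unfold G.W3
  simp only [hg_le (by linarith : -t - 5 / 2 * m ≤ 0), mul_zero]
  simp

theorem um_f {w z m r : ℝ} (h : -(w + z) ≤ 5 / 2 * m) : Um Rf w z m r := by
  have a12 : Rf.A12 w z m r = 0 := by
    unfold RowF.A12
    simp only [Rf, zr7]
    simp
  have a23 : Rf.A23 w z m r = 0 := by
    unfold RowF.A23
    simp only [Rf, zr7]
    simp
  have a13 : Rf.A13 w z m r = 0 := a13_z h
  refine ⟨?_, ?_, ?_⟩
  · simp only [RowF.NU, Rf, nu0]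
    simp
  · unfold RowF.V1A
    rw [a12, a23, a13]
    simp only [Rf, vf1_val]
    simp
  · unfold RowF.V2A
    rw [a12, a23, a13]
    simp only [Rf, vf2_val]
    simp

theorem um_n {w z m r : ℝ} (h : -(w + z) ≤ 5 / 2 * m) : Um Rn w z m r := by
  have a12 : Rn.A12 w z m r = 0 := by
    unfold RowF.A12
    simp only [Rn, zr7]
    simp
  have a23 : Rn.A23 w z m r = 0 := by
    unfold RowF.A23
    simp only [Rn, zr7]
    simp
  have a13 : Rn.A13 w z m r = 0 := a13_z h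
  refine ⟨?_, ?_, ?_⟩
  · simp only [RowF.NU, Rn, nu0]
    simp
  · unfold RowF.V1A
    rw [a12, a23, a13]
    simp only [Rn, mv1_val]
    simp
  · unfold RowF.V2A
    rw [a12, a23, a13]
    simp only [Rn, mv2_val]
    simp

/-! ### Coordinates -/

section

attribute [local irreducible] padd psub pneg pmul psq pinv psqrt psqrtg pabs pps pmax pmin pphi plam
  pcase phf pnat prat pscale pnorm pdc pnc pone ppos pnn Enc

variable {E : Pt} {f : ℕ → ℕ → ℕ → ℕ → Bool} {A B : ℕ} {N p : ℝ}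

theorem polnp_sound (hA : Enc E A N) (hB : Enc E B p) (h : polnp f A B = true) :
    PolS f E N (-N) (N * p) := by
  unfold polnp at h
  simp only [frc_eq] at h
  exact ⟨_, _, _, _, -1, p, enc_neg hA, enc_neg (enc_one E),
    enc_norm (enc_mul hA hB), hB, by ring, rfl, h⟩

end

theorem crd_npn {r lam w z : ℝ} (D : Dom .npn r lam w z) : Crd polnp r lam w z := by
  have hN : 0 < -w := D.l
  obtain ⟨h1, h2, h3⟩ : w ≤ 0 ∧ 0 ≤ z ∧ w + z ≤ 0 := D.ok
  refine ⟨-w, z / -w, hN, div_nonneg h2 hN.le,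
    (div_le_one hN).2 (by linarith), ?_, dom_crd D⟩
  intro E f A B hA hB h
  have e1 : -w * (z / -w) = z := mul_div_cancel₀ _ hN.ne'
  have := polnp_sound hA hB h
  rw [e1, neg_neg] at this
  exact this

/-! ### The exit -/

section

attribute [local irreducible] padd psub pneg pmul psq pinv psqrt psqrtg pabs pps pmax pmin pphi plam
  pcase phf pnat prat pscale pnorm pdc pnc pone ppos pnn Enc

variable {E : Pt} {R : RowF} {W Z M Q : ℕ} {w z m r : ℝ}

theorem exV_sound (hw : Enc E W w) (hz : Enc E Z z) (hm : Enc E M m) (hr : Enc E Q r) (hr0 : 0 < r)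
    (ht : w + z < 0) (h4 : -4 < r * (w + z))
    (hU : 20 * R.U w z m r ≤ 3 * (G.x3v (w + z) r - E0.G.xi1 (w + z) r))
    (h : exV R W Z M Q = true) : False := by
  unfold exV at h
  rw [frc_eq] at h
  have hT := enc_norm (enc_add hw hz)
  have h1 := ppos_sound (enc_sub (enc_nat 20 (enc_mul hr (R.u.enc hw hz hm hr)))
    (enc_nat 3 (enc_sub (v1_rhv.enc hT hr) (enc_mul hr (xi1.enc hT hr))))) h
  rw [rhv_val hr0 ht h4, xi1_val] at h1
  have h2 : 20 * R.u.v w z m r ≤ 3 * (G.x3v (w + z) r - E0.G.xi1 (w + z) r) := hU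
  push_cast at h1
  nlinarith

end

end Pool.Agent.Strip051.LC.E1.V1
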