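import Pool.Agent.Strip051.LC.E1.V1.Bs

/-! # Rests near the full period: the row between `W` and `1.15`, the second direct leaf -/

set_option linter.unusedVariables false
set_option linter.unusedSimpArgs false

namespace Pool.Agent.Strip051.LC.E1.V1

open Pool.Agent.Strip051.PB
open Pool.Agent.Strip051.LC.E1.Ch

attribute [local irreducible] padd psub pneg pmul psq pinv psqrt psqrtg pabs pps pmax pmin pphi plam
  pcase phf pnat prat pscale pnorm pdc pnc pone ppos pnn Enc

/-- The row `X` has the values of `R`; the second moment and the levels of first order of `R` are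
`v` times `nh` and those of `X`. -/
structure XR (R X : RowF) (w z m r v nh : ℝ) : Prop where
  u : X.U w z m r = R.U w z m r
  nf : X.NF w z m r = R.NF w z m r
  bs : X.BS w z m r = R.BS w z m r
  l : X.L w z = R.L w z
  a : X.A w z = R.A w z
  b : X.B w z = R.B w z
  gm : X.GM w z m r = R.GM w z m r
  ds : X.DS w z m r = R.DS w z m r
  v1 : X.V1B w z m r = R.V1B w z m r
  v2 : X.V2B w z m r = R.V2B w z m r
  bn : X.BN w z m r = R.BN w z m r
  nu : R.NU w z m r = 0
  n : R.NF w z m r = v * nh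
  nn : 0 ≤ nh
  a1 : R.V1A w z m r = v * X.V1A w z m r
  a2 : R.V2A w z m r = v * X.V2A w z m r

section

variable {x r m l lf ln a b bn ds gp g : ℝ}

theorem ou_mono (hr : 0 < r) (hm : 0 < m) (hx : x = m * r) (hg : g * r ≤ gp) (hd : 0 ≤ ds)
    (hlf : 0 ≤ lf) (hln : 0 ≤ ln) (h1 : 0 ≤ couf.v m m l lf ds g) (h2 : 0 < cinf.v 1 ln ds g) :
    0 < g ∧ OuR x r m l lf ln ds gp := by
  rw [couf_val] at h1
  rw [cinf_val] at h2
  have h3 : 0 ≤ ds * ln := mul_nonneg hd hln
  have h4 : 0 ≤ ds * lf := mul_nonneg hd hlf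
  have g0 : 0 < g := by linarith
  have h5 : 0 ≤ l - m := by
    by_contra hc
    push Not at hc
    have := mul_neg_of_neg_of_pos hc g0
    have := mul_nonneg hm.le h4
    linarith
  refine ⟨g0, ?_, ?_⟩
  · rw [couf_val, hx]
    have h6 := mul_le_mul_of_nonneg_left hg h5
    have h7 := mul_nonneg hr.le h1
    nlinarith
  · rw [cinf_val]
    have h7 := mul_pos hr h2
    nlinarith

theorem in_mono {K : ℝ} (hr : 0 < r) (hK : 0 ≤ K) (hg : g * r ≤ gp) (hd : 0 ≤ ds) (hlf : 0 ≤ lf)
    (g0 : 0 ≤ g) :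
    K * (lf * (r * ds * ds)) * (gp + r * ds * lf)⁻¹ ≤ K * (lf * (1 * ds * ds)) *
      (g + 1 * ds * lf)⁻¹ := by
  have h4 : 0 ≤ lf * ds := mul_nonneg hlf hd
  rcases h4.eq_or_lt with h | h
  · have e1 : lf * (r * ds * ds) = 0 := by linear_combination (-(r * ds)) * h
    have e2 : lf * (1 * ds * ds) = 0 := by linear_combination (-ds) * h
    rw [e1, e2]
    simp
  · have d1 : 0 < g + 1 * ds * lf := by linarith
    have d2 : 0 < gp + r * ds * lf := by nlinarith
    rw [mul_assoc K, mul_assoc K]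
    refine mul_le_mul_of_nonneg_left ?_ hK
    rw [← div_eq_mul_inv, ← div_eq_mul_inv, div_le_div_iff₀ d2 d1]
    have h5 : 0 ≤ lf * ds * ds := mul_nonneg h.le hd
    have h6 := mul_le_mul_of_nonneg_left hg h5
    nlinarith

end

section

variable {E : Pt} {R X : RowF} {nh : Fn1} {u : Bool} {c k s W Z M Q : ℕ} {w z m r v lev : ℝ}

theorem dsT_sound (hw : Enc E W w) (hz : Enc E Z z) (hm : Enc E M m) (hr : Enc E Q r)
    (D : Dm R w z m r) (v0 : 0 < v) (hc : 400 / 27 * R.U w z m r ^ 2 ≤ v / r)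
    (C : XR R X w z m r v (nh.v (m * r)))
    (um : u = true → X.V1A w z m r = 0 ∧ X.V2A w z m r = 0)
    (hlev : R.Lv w z m r lev) (h : dsT X nh u c k s W Z M Q = true) : R.Sk w z m r lev := by
  unfold dsT at h
  obtain ⟨c1, h⟩ := band_true h
  obtain ⟨U, NU, NF, BS, L, A, B, GM, DS, GP, V1A, V1B, V2A, V2B, BN, h, F⟩ :=
    dval_sound hw hz hm hr h
  obtain ⟨t1, h⟩ := band_true h
  simp only [frc_eq] at h
  have r0 := D.r0
  have hU := pnn_sound (enc_sub (enc_scale 400 27 (enc_sq F.u)) (enc_nat c (enc_one E))) t1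
  rw [C.u] at hU
  push_cast at hU
  have hcv : (c : ℝ) ≤ v / r := by linarith
  have hR : Rc E c pzero (r / v) := by
    refine ⟨by positivity, ?_, fun e => ?_⟩
    · rw [le_div_iff₀ r0] at hcv
      rw [← mul_div_assoc, div_le_one v0]
      exact hcv
    · have h3 := Nat.le_of_ble_eq_true c1
      have h4 := Nat.eq_of_beq_eq_true e
      omega
  have hX : Enc E (pnorm (pmul M Q)) (m * r) := enc_norm (enc_mul hm hr)
  have hNH := nh.enc hX
  have hG := enc_norm (enc_add (enc_nat c hNH) F.gm)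
  have hgp : (c * nh.v (m * r) + X.GM w z m r) * r ≤ R.GP w z m r := by
    unfold RowF.GP
    rw [gpf_val, C.n, C.gm]
    rw [le_div_iff₀ r0] at hcv
    have := mul_le_mul_of_nonneg_right hcv C.nn
    linarith
  obtain ⟨x0, x1, _⟩ := D.hq
  have hK : 0 ≤ G.eh (m * r) / (1 - m * r) := div_nonneg (eh_pos' x0 x1).le (by linarith)
  have hsc : ∀ f : ℝ, v * f / r = f / (r / v) := fun f => by
    field_simp
  have hl1 : R.V1A w z m r / r + R.V1B w z m r = X.V1A w z m r / (r / v) + X.V1B w z m r := by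
    rw [C.a1, C.v1, hsc]
  have hl2 : R.V2A w z m r / r + R.V2B w z m r = X.V2A w z m r / (r / v) + X.V2B w z m r := by
    rw [C.a2, C.v2, hsc]
  rcases e0 : Nat.beq k 0 with _ | _ <;> rw [e0] at h
  · -- beyond
    obtain ⟨t2, t3⟩ := band_true h
    have OU : ∀ {LF LN D' : ℕ} {lf ln d : ℝ}, Enc E LF lf → Enc E LN ln → Enc E D' d → 0 ≤ lf →
        0 ≤ ln → 0 ≤ d →
        ouS M pone M L LF LN D' (pnorm (padd (pnat c (nh.t (pnorm (pmul M Q)))) GM)) = true →
        0 < c * nh.v (m * r) + X.GM w z m r ∧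
          OuR (m * r) r m (X.L w z) lf ln d (R.GP w z m r) := by
      intro LF LN D' lf ln d h1 h2 h3 p1 p2 p3 h4
      unfold ouS at h4
      obtain ⟨q1, q2⟩ := band_true h4
      exact ou_mono r0 D.m0 rfl hgp p3 p1 p2
        (pnn_sound (couf.enc hm hm F.l h1 h3 hG) q1)
        (ppos_sound (cinf.enc (enc_one E) h2 h3 hG) q2)
    have la : 0 ≤ X.A w z := by rw [C.a]; exact D.a0
    have lb : 0 ≤ X.B w z := by rw [C.b]; exact D.b0
    have hs := sgS_sound (P := 0 ≤ -X.DS w z m r → 0 < c * nh.v (m * r) + X.GM w z m r ∧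
          OuR (m * r) r m (X.L w z) (X.B w z) (X.A w z) (-X.DS w z m r) (R.GP w z m r))
      (Q := 0 ≤ X.DS w z m r → 0 < c * nh.v (m * r) + X.GM w z m r ∧
          OuR (m * r) r m (X.L w z) (X.A w z) (X.B w z) (X.DS w z m r) (R.GP w z m r)) F.ds
      (fun h0 h1 => OU F.b F.a (enc_neg F.ds) lb la h1 h0)
      (fun h0 h1 => OU F.a F.b F.ds la lb h1 h0) t2
    have hs' : 0 < c * nh.v (m * r) + X.GM w z m r ∧ ((X.DS w z m r ≤ 0 ∧
        OuR (m * r) r m (X.L w z) (X.B w z) (X.A w z) (-X.DS w z m r) (R.GP w z m r)) ∨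
        (0 ≤ X.DS w z m r ∧
        OuR (m * r) r m (X.L w z) (X.A w z) (X.B w z) (X.DS w z m r) (R.GP w z m r))) := by
      rcases hs with ⟨h1, h2⟩ | ⟨h1, h2⟩
      · have := h2 (by linarith)
        exact ⟨this.1, Or.inl ⟨h1, this.2⟩⟩
      · have := h2 h1
        exact ⟨this.1, Or.inr ⟨h1, this.2⟩⟩
    obtain ⟨g0, hou⟩ := hs'
    have k1 := enc_mul hNH (m2f.enc hm F.l)
    have k0 := enc_sub (brf.enc hX hr hm F.l (enc_norm (enc_sub F.a F.b)) F.nf F.gm F.ds F.bs)
      (v1_abg.enc hX hm F.l F.a F.b F.ds hG)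
    have hlo := los_sound hR F.v1a F.v1b F.v2a F.v2b hNH k1
      (fun e => ⟨fun hn => by
        refine mul_nonneg hn ?_
        rw [m2f_val]
        positivity, (um e).1, (um e).2⟩) k0 t3
    rw [← hl1, ← hl2] at hlo
    rw [C.l, C.a, C.b, C.ds] at hou
    refine sk_of_res (nr := 0) (nnr := 0) (bn' := R.BN w z m r)
      (bs' := (R.NU w z m r + R.NF w z m r) / r + R.BS w z m r) D rfl rfl
      (by rw [C.nu]; simp) (by linarith) ?_ hlev
      (Or.inr (Or.inr (Or.inl ⟨hou, hlo⟩)))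
    have habg : abf.v (m * r) m (R.L w z) (R.A w z) (R.B w z) (R.DS w z m r) (R.GP w z m r) ≤
        v1_abg.v (m * r) m (X.L w z) (X.A w z) (X.B w z) (X.DS w z m r)
          (c * nh.v (m * r) + X.GM w z m r) := by
      simp only [v1_abg, v1_abg_7, kx_val]
      rw [abf_val, C.l, C.a, C.b, C.ds]
      have l0 := D.l0
      have a0 := D.a0
      have b0 := D.b0
      have m0 := D.m0
      have h9 : 0 ≤ m * (G.eh (m * r) / (1 - m * r)) * (R.A w z * (R.L w z)⁻¹ *
          (R.B w z * (R.L w z)⁻¹)) := by positivity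
      refine mul_le_mul_of_nonneg_left ?_ h9
      have hgr : 0 < (c * nh.v (m * r) + X.GM w z m r) * r := mul_pos g0 r0
      rw [← div_eq_mul_inv, ← div_eq_mul_inv, div_le_div_iff₀ (by linarith) g0]
      have h8 : 0 ≤ m * R.DS w z m r ^ 2 := by positivity
      have := mul_le_mul_of_nonneg_left hgp h8
      linarith
    have e1 : nh.v (m * r) * m2f.v m (X.L w z) / (r / v) = R.NF w z m r / r *
        (1 - m / R.L w z) ^ 2 := by
      rw [C.n, C.l, m2f_val, div_eq_mul_inv m, ← hsc]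
      ring
    have e2 : brf.v (m * r) r m (X.L w z) (X.A w z - X.B w z) (X.NF w z m r) (X.GM w z m r)
        (X.DS w z m r) (X.BS w z m r) = R.BR w z m r := by
      unfold RowF.BR
      rw [C.l, C.a, C.b, C.nf, C.gm, C.ds, C.bs]
    unfold RowF.FO
    rw [e1, e2, C.nu, zero_div]
    linarith
  · -- inside
    obtain ⟨t2, t3⟩ := band_true h
    obtain ⟨a1, a2⟩ := um t2
    have IN : ∀ {LF LN D' : ℕ} {lf ln d : ℝ}, Enc E LF lf → Enc E LN ln → Enc E D' d → 0 ≤ lf →
        0 ≤ ln → 0 ≤ d →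
        inS (fun F0 => lv0 F0 V1B V2B) (pnorm (pmul M Q)) pone M L LF LN BN D'
          (pnorm (padd (pnat c (nh.t (pnorm (pmul M Q)))) GM)) = true →
        InR (m * r) r m (X.L w z) lf ln 0 (R.BN w z m r) d (R.GP w z m r)
          (R.V1A w z m r / r + R.V1B w z m r) (R.V2A w z m r / r + R.V2B w z m r) := by
      intro LF LN D' lf ln d h1 h2 h3 p1 p2 p3 h4
      unfold inS at h4
      obtain ⟨q1, q2⟩ := band_true h4
      have hci := pnn_sound (cinf.enc (enc_one E) h2 h3 hG) q2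
      rw [cinf_val] at hci
      have h5 := mul_nonneg p3 p2
      have g0 : 0 ≤ c * nh.v (m * r) + X.GM w z m r := by linarith
      have hp := lv0_sound (finf.enc hX (enc_one E) hm F.l h1 F.bn h3 hG) F.v1b F.v2b q1
      refine ⟨?_, ?_⟩
      · rw [hl1, hl2, a1, a2, zero_div, zero_add, zero_add, zero_add]
        refine hp.mono ?_
        have l0 : 0 ≤ X.L w z := by rw [C.l]; exact D.l0.le
        have h6 := in_mono (K := G.eh (m * r) / (1 - m * r) * X.L w z) (ds := d) (lf := lf) r0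
          (mul_nonneg hK l0) hgp p3 p1 g0
        rw [finf_val, finf_val, C.bn]
        linarith
      · rw [cinf_val]
        have := mul_nonneg r0.le hci
        linarith
    have la : 0 ≤ X.A w z := by rw [C.a]; exact D.a0
    have lb : 0 ≤ X.B w z := by rw [C.b]; exact D.b0
    have hs := sgS_sound (P := 0 ≤ -X.DS w z m r →
          InR (m * r) r m (X.L w z) (X.B w z) (X.A w z) 0 (R.BN w z m r) (-X.DS w z m r)
            (R.GP w z m r) (R.V1A w z m r / r + R.V1B w z m r) (R.V2A w z m r / r + R.V2B w z m r))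
      (Q := 0 ≤ X.DS w z m r →
          InR (m * r) r m (X.L w z) (X.A w z) (X.B w z) 0 (R.BN w z m r) (X.DS w z m r)
            (R.GP w z m r) (R.V1A w z m r / r + R.V1B w z m r) (R.V2A w z m r / r + R.V2B w z m r))
      F.ds
      (fun h0 h1 => IN F.b F.a (enc_neg F.ds) lb la h1 h0)
      (fun h0 h1 => IN F.a F.b F.ds la lb h1 h0) t3
    have hs' : (X.DS w z m r ≤ 0 ∧
          InR (m * r) r m (X.L w z) (X.B w z) (X.A w z) 0 (R.BN w z m r) (-X.DS w z m r)
            (R.GP w z m r) (R.V1A w z m r / r + R.V1B w z m r)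
            (R.V2A w z m r / r + R.V2B w z m r)) ∨
        (0 ≤ X.DS w z m r ∧
          InR (m * r) r m (X.L w z) (X.A w z) (X.B w z) 0 (R.BN w z m r) (X.DS w z m r)
            (R.GP w z m r) (R.V1A w z m r / r + R.V1B w z m r)
            (R.V2A w z m r / r + R.V2B w z m r)) := by
      rcases hs with ⟨h1, h2⟩ | ⟨h1, h2⟩
      · exact Or.inl ⟨h1, h2 (by linarith)⟩
      · exact Or.inr ⟨h1, h2 h1⟩
    rw [C.l, C.a, C.b, C.ds] at hs'
    exact sk_of_res (nr := 0) (nnr := 0) (bn' := R.BN w z m r)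
      (bs' := (R.NU w z m r + R.NF w z m r) / r + R.BS w z m r) (fo := R.FO w z m r) D rfl rfl
      (by rw [C.nu]; simp) (by linarith) le_rfl hlev (Or.inl hs')

end

end Pool.Agent.Strip051.LC.E1.V1
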