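import Pool.Agent.Strip051.LC.E1.V1.Ds
import Pool.Agent.Strip051.LC.E1.Ch.Lb2
import Pool.Agent.Strip051.LC.E1.Ch.Ph

/-! # Rests near the full period: the row between `W` and `1.15`, the second direct leaf -/

set_option linter.unusedVariables false
set_option linter.unusedSimpArgs false
set_option maxRecDepth 100000

namespace Pool.Agent.Strip051.LC.E1.V1

open Pool.Agent.Strip051.PB
open Pool.Agent.Strip051.LC.E1.Ch
open Pool.Agent.Strip051.LC.E1.V0
open Pool.Agent.Strip051.LC.E0.Ch (onCell Tree)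
open Pool.Agent.Strip051.LC.E1.G (hg)

section

attribute [local irreducible] padd psub pneg pmul psq pinv psqrt psqrtg pabs pps pmax pmin pphi plam
  pcase phf pnat prat pscale pnorm pdc pnc pone ppos pnn Enc

noncomputable def v1_vw1 : Fn2 := ⟨_, _, fun h1 h2 => enc_add (enc_one _) (vw3.enc h2)⟩
noncomputable def v1_vw2 : Fn2 := ⟨_, _, fun h1 h2 => enc_sub (enc_one _) (vw3.enc h2)⟩

end

theorem vw1 : Tree 0 0 0 0 0 26843546 (tnn v1_vw1) :=
  ⟨.l 0, by decide +kernel⟩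

theorem vw2 : Tree 0 0 0 0 0 26843546 (tnn v1_vw2) :=
  ⟨.l 0, by decide +kernel⟩

theorem vW3_b {e : ℝ} (h0 : 0 ≤ e) (h1 : e ≤ 1 / 40) : -1 ≤ G.vW3 e ∧ G.vW3 e ≤ 1 := by
  have k1 := tnn_sound vw1 (a := 0) (b := 0) (by norm_num) (by norm_num) (w := 0) le_rfl le_rfl h0 h1
  have k2 := tnn_sound vw2 (a := 0) (b := 0) (by norm_num) (by norm_num) (w := 0) le_rfl le_rfl h0 h1
  simp only [v1_vw1, v1_vw2, vw3_val] at k1 k2
  constructor <;> linarith

/-- A function without kinks between `0`, `1 / 2`, `1`, `5 / 2`. -/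
theorem tl_b {b b' c c' m a k k' : ℝ} (hm : 0 < m) (ha : 0 < a) (h0 : k ≤ c + 2 * b)
    (h0' : c + 2 * b ≤ k') (h1 : k ≤ c + b') (h1' : c + b' ≤ k') (h2 : k ≤ c) (h2' : c ≤ k') :
    k ≤ (c * a + G.tl b b' m a) / a ∧ (c * a + G.tl b b' m a) / a ≤ k' := by
  rw [le_div_iff₀ ha, div_le_iff₀ ha]
  unfold G.tl
  rcases le_or_gt a (m / 2) with g1 | g1
  · rw [hg_le (by linarith : a - m / 2 ≤ 0), hg_le (by linarith : a - m ≤ 0),
      hg_le (by linarith : a - 5 / 2 * m ≤ 0)]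
    constructor <;> nlinarith
  rcases le_or_gt a m with g2 | g2
  · rw [hg_ge (by linarith : 0 ≤ a - m / 2), hg_le (by linarith : a - m ≤ 0),
      hg_le (by linarith : a - 5 / 2 * m ≤ 0)]
    constructor <;> nlinarith
  rcases le_or_gt a (5 / 2 * m) with g3 | g3
  · rw [hg_ge (by linarith : 0 ≤ a - m / 2), hg_ge (by linarith : 0 ≤ a - m),
      hg_le (by linarith : a - 5 / 2 * m ≤ 0)]
    constructor <;> nlinarith
  · rw [hg_ge (by linarith : 0 ≤ a - m / 2), hg_ge (by linarith : 0 ≤ a - m),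
      hg_ge (by linarith : 0 ≤ a - 5 / 2 * m)]
    constructor <;> nlinarith

section

variable {w z t m r : ℝ}

theorem okx_val (hm : 0 < m) (ht : t < 0) (x0 : 0 ≤ m * r) (x1 : m * r ≤ 1 / 40) :
    v1_okx.v t m r (m * r) = om3k.v t m r (m * r) := by
  obtain ⟨k1, k2⟩ := vW3_b x0 x1
  have h := tl_b (b := -(157 / 625)) (b' := G.vW3 (m * r) - 1377 / 2500) (c := 1377 / 2500)
    (c' := 0) (k := -1) (k' := 1) hm (by linarith : 0 < -t) (by norm_num) (by norm_num)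
    (by linarith) (by linarith) (by norm_num) (by norm_num)
  simp only [v1_okx]
  rw [om3k_val hm ht]
  unfold G.wK3
  rw [Nat.cast_one, min_eq_right h.2, max_eq_right h.1]

theorem obx_val (hm : 0 < m) (ht : t < 0) :
    v1_obx.v t m r (m * r) = v0_om3b.v t m r (m * r) := by
  have h := tl_b (b := -(12119 / 10000)) (b' := 0 - 237 / 200) (c := 237 / 200)
    (c' := 0) (k := -2) (k' := 2) hm (by linarith : 0 < -t) (by norm_num) (by norm_num)
    (by linarith) (by linarith) (by norm_num) (by norm_num)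
  simp only [v1_obx]
  rw [om3b_val hm ht]
  unfold G.wB3
  rw [Nat.cast_ofNat, min_eq_right h.2, max_eq_right h.1]

theorem LAM_le (e : ℝ) (h0 : 0 ≤ e) (h1 : e ≤ 1) : G.LAM e ≤ 1 := by
  have h := gs_sq' h0 h1
  have h2 := @gs_nn e
  unfold G.LAM
  nlinarith

/-- The levels of first order. -/
theorem a13_b (H : Hc r m t) (hm : 0 < m) (ht : t < 0) (x1 : m * r ≤ 1 / 40) {u : ℝ} (u0 : 0 ≤ u)
    (u1 : 20 * u ≤ 3 * (G.x3v t r - E0.G.xi1 t r)) :
    0 ≤ ta1v.v u w z t m r (m * r) / t ∧ ta1v.v u w z t m r (m * r) / t ≤ 3 / 400 := by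
  have hr := H.r0
  have x0 : 0 < m * r := mul_pos hm hr
  have h4 : -4 < r * t := by
    have := (abs_le.1 H.a).1
    linarith
  have hy := y_gt H ht
  simp only [ta1v]
  rw [qx3_val hm ht, hdr_val hr ht h4, xw3_val]
  have hy' : 0 < G.x3v t r - E0.G.xi1 t r := by linarith
  have l0 := LAM_nn x0.le (by linarith : m * r ≤ 1)
  have l1 := LAM_le _ x0.le (by linarith : m * r ≤ 1)
  have e : (G.W3 r m t).cA = -(9 / 1250 * (G.LAM (m * r) * hg (-t - 5 / 2 * m))) := by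
    unfold G.W3
    ring
  have g0 : 0 ≤ hg (-t - 5 / 2 * m) := le_max_right _ _
  have g1 : hg (-t - 5 / 2 * m) ≤ -t := max_le (by linarith) (by linarith)
  have e2 : ((G.W3 r m t).cA - u * (20 / 3 * ((G.W3 r m t).cA / -t *
      (-t / (G.x3v t r - E0.G.xi1 t r))))) / t =
      9 / 1250 * (G.LAM (m * r) * (hg (-t - 5 / 2 * m) / -t)) *
        (1 - 20 / 3 * (u / (G.x3v t r - E0.G.xi1 t r))) := by
    rw [e]
    have : t ≠ 0 := ht.ne
    field_simp
    ring
  push_cast at e2 ⊢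
  rw [e2]
  have q0 : 0 ≤ u / (G.x3v t r - E0.G.xi1 t r) := by positivity
  have q1 : u / (G.x3v t r - E0.G.xi1 t r) ≤ 3 / 20 := by
    rw [div_le_iff₀ hy']
    linarith
  have p0 : 0 ≤ hg (-t - 5 / 2 * m) / -t := div_nonneg g0 (by linarith)
  have p1 : hg (-t - 5 / 2 * m) / -t ≤ 1 := by
    rw [div_le_one (by linarith)]
    exact g1
  have s0 : 0 ≤ G.LAM (m * r) * (hg (-t - 5 / 2 * m) / -t) := mul_nonneg l0 p0
  have s1 : G.LAM (m * r) * (hg (-t - 5 / 2 * m) / -t) ≤ 1 := mul_le_one₀ l1 p0 p1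
  constructor
  · have : 0 ≤ 1 - 20 / 3 * (u / (G.x3v t r - E0.G.xi1 t r)) := by linarith
    positivity
  · nlinarith

/-- `(20 / 3 U) ^ 2 ≤ y ^ 2 ≤ 3 v / r`. -/
theorem u_sq (H : Hc r m t) (ht : t < 0) {u : ℝ} (u0 : 0 ≤ u)
    (u1 : 20 * u ≤ 3 * (G.x3v t r - E0.G.xi1 t r)) : 400 / 27 * u ^ 2 ≤ -t / r := by
  have hr := H.r0
  have h4 := abs_le.1 H.a
  have hD := (D1_b H).1
  have hx : 0 ≤ E0.G.xi1 t r := by
    rw [xi1_D]
    have : 0 ≤ -t * D1 t r := mul_nonneg (by linarith) hD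
    linarith
  have h5 : 20 / 3 * u ≤ G.x3v t r := by linarith
  have h6 := y_sq hr ht (by linarith)
  have h7 : (20 / 3 * u) ^ 2 ≤ G.x3v t r ^ 2 := pow_le_pow_left₀ (by positivity) h5 2
  rw [le_div_iff₀ hr]
  have h8 := mul_le_mul_of_nonneg_left h7 hr.le
  rw [h6] at h8
  have h9 : 0 ≤ r * t ^ 2 := by positivity
  nlinarith

end

end Pool.Agent.Strip051.LC.E1.V1
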