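import Pool.Agent.Strip051.LC.E1.V0.Fn

/-! # Rests near the full period: the functions of the row between `W` and `1.15` -/

set_option linter.unusedVariables false

namespace Pool.Agent.Strip051.LC.E1.V1

open Pool.Agent.Strip051.PB
open Pool.Agent.Strip051.LC.E1.Ch
open Pool.Agent.Strip051.LC.E1.V0

/-- clamp to `[-n, n]` -/
noncomputable def pcl (n X : ℕ) : ℕ :=
  Bool.rec (motive := fun _ => ℕ) (psub (pflat (Nat.mul (Nat.mul 2 n) 1073741824)) (pnc n))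
    (pmax (pneg (pnc n)) (pmin (pnc n) X)) (Nat.ble X 0x3fffffffffffffffffffffffffffffffffffffffffffffffffffffffffffffffffffffffffffffffffffffffffffffffffffffffffffffffffffffffffffffffffffffffffffffffffffffffffffffffffffffffffffffffffffffffffffffffffffffffffffffffffffffffffffffffffffffffffffffffffffffffffffffffffffffffffffffffffffffffffffffffffffffffffffffffffffffffffffffffffffffffffffffffffffffffffffffffffffffffffffffffffffffffffffffffffffffffffffffffffffffffffffffff)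

theorem enc_cl {E : Pt} {X : ℕ} {v : ℝ} (n : ℕ) (hn : n ≤ 2 ^ 20) (h : Enc E X v) :
    Enc E (pcl n X) (max (-(n : ℝ)) (min (n : ℝ) v)) := by
  unfold pcl
  rcases Nat.ble X 0x3fffffffffffffffffffffffffffffffffffffffffffffffffffffffffffffffffffffffffffffffffffffffffffffffffffffffffffffffffffffffffffffffffffffffffffffffffffffffffffffffffffffffffffffffffffffffffffffffffffffffffffffffffffffffffffffffffffffffffffffffffffffffffffffffffffffffffffffffffffffffffffffffffffffffffffffffffffffffffffffffffffffffffffffffffffffffffffffffffffffffffffffffffffffffffffffffffffffffffffffffffffffffffffffff with _ | _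
  · have h1 : -(n : ℝ) ≤ max (-(n : ℝ)) (min (n : ℝ) v) := le_max_left _ _
    have n0 : (0 : ℝ) ≤ n := Nat.cast_nonneg n
    have h2 : max (-(n : ℝ)) (min (n : ℝ) v) ≤ n := max_le (by linarith) (min_le_left _ _)
    have hS : (S : ℝ) = 1073741824 := by unfold S; norm_num
    have h3 : Enc E (pflat (Nat.mul (Nat.mul 2 n) 1073741824))
        (max (-(n : ℝ)) (min (n : ℝ) v) + n) := by
      refine enc_flat ?_ ?_ ?_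
      · show 2 * n * 1073741824 ≤ 2 ^ 64
        omega
      · rw [hS]
        exact mul_nonneg (by norm_num) (by linarith)
      · rw [hS]
        have e : ((Nat.mul (Nat.mul 2 n) 1073741824 : ℕ) : ℝ) = 2 * n * 1073741824 := by
          show ((2 * n * 1073741824 : ℕ) : ℝ) = _
          push_cast
          ring
        rw [e]
        nlinarith
    have h4 := enc_sub h3 (enc_pnc E n)
    rw [add_sub_cancel_right] at h4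
    exact h4
  · exact enc_max (enc_neg (enc_pnc E n)) (enc_min (enc_pnc E n) h)

theorem enc_400 {E : Pt} {y : ℝ} : Enc E (pflat 8053064) (max 0 (min (3 / 400) y)) := by
  have h1 : 0 ≤ max 0 (min (3 / 400) y) := le_max_left _ _
  have h2 : max 0 (min (3 / 400) y) ≤ 3 / 400 := max_le (by norm_num) (min_le_left _ _)
  have hS : (S : ℝ) = 1073741824 := by unfold S; norm_num
  refine enc_flat (by norm_num) ?_ ?_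
  · rw [hS]
    exact mul_nonneg (by norm_num) h1
  · rw [hS]
    push_cast
    linarith

/-- a number between `l` and `l + n / d` -/
noncomputable def piv (L n d : ℕ) : ℕ :=
  padd L (pflat (Nat.add (Nat.div (Nat.mul n 1073741824) d) 1))

theorem enc_iv {E : Pt} {L n d : ℕ} {l y : ℝ} (hL : Enc E L l) (hn : n ≤ 2 ^ 20) (hd : 0 < d)
    (h0 : l ≤ y) (h1 : y ≤ l + n / d) : Enc E (piv L n d) y := by
  unfold piv
  have hS : (S : ℝ) = 1073741824 := by unfold S; norm_num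
  have hd' : (0 : ℝ) < d := by exact_mod_cast hd
  have h2 : Enc E (pflat (Nat.add (Nat.div (Nat.mul n 1073741824) d) 1)) (y - l) := by
    refine enc_flat ?_ ?_ ?_
    · show n * 1073741824 / d + 1 ≤ 2 ^ 64
      have := Nat.div_le_self (n * 1073741824) d
      omega
    · rw [hS]
      exact mul_nonneg (by norm_num) (by linarith)
    · rw [hS]
      have h3 : n * 1073741824 < (n * 1073741824 / d + 1) * d := by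
        have := Nat.lt_div_mul_add hd (a := n * 1073741824)
        nlinarith
      have h4 : ((n * 1073741824 : ℕ) : ℝ) < ((n * 1073741824 / d + 1 : ℕ) : ℝ) * d := by
        exact_mod_cast h3
      show 1073741824 * (y - l) ≤ ((n * 1073741824 / d + 1 : ℕ) : ℝ)
      have h5 : y - l ≤ n / d := by linarith
      have h6 : 1073741824 * (y - l) ≤ 1073741824 * ((n : ℝ) / d) :=
        mul_le_mul_of_nonneg_left h5 (by norm_num)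
      refine h6.trans ?_
      rw [← mul_div_assoc, div_le_iff₀ hd']
      push_cast at h4 ⊢
      linarith
  have h3 := enc_add hL h2
  rw [add_sub_cancel] at h3
  exact h3



/-- slopes; the kinds of the arguments are `cvcc` -/
structure Sl_cvcc (F : Fn4) where
  s : ℕ → ℕ → ℕ → ℕ → ℕ → ℕ → ℕ
  snd : ∀ {E : Pt} {N : ℝ} {C1 A2 B2 D2 C3 C4 : ℕ} {c1 a2 b2 c3 c4 : ℝ}, Enc E C1 c1 → Pr E N A2 B2 D2 a2 b2 → Enc E C3 c3 → Enc E C4 c4 →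
    Pr E N (F.t C1 A2 C3 C4) (F.t C1 B2 C3 C4) (s C1 A2 B2 D2 C3 C4) (F.v c1 a2 c3 c4) (F.v c1 b2 c3 c4)

/-- slopes; the kinds of the arguments are `cvvc` -/
structure Sl_cvvc (F : Fn4) where
  s : ℕ → ℕ → ℕ → ℕ → ℕ → ℕ → ℕ → ℕ → ℕ
  snd : ∀ {E : Pt} {N : ℝ} {C1 A2 B2 D2 A3 B3 D3 C4 : ℕ} {c1 a2 b2 a3 b3 c4 : ℝ}, Enc E C1 c1 → Pr E N A2 B2 D2 a2 b2 → Pr E N A3 B3 D3 a3 b3 → Enc E C4 c4 →
    Pr E N (F.t C1 A2 A3 C4) (F.t C1 B2 B3 C4) (s C1 A2 B2 D2 A3 B3 D3 C4) (F.v c1 a2 a3 c4) (F.v c1 b2 b3 c4)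

/-- slopes; the kinds of the arguments are `cvccc` -/
structure Sl_cvccc (F : Fn5) where
  s : ℕ → ℕ → ℕ → ℕ → ℕ → ℕ → ℕ → ℕ
  snd : ∀ {E : Pt} {N : ℝ} {C1 A2 B2 D2 C3 C4 C5 : ℕ} {c1 a2 b2 c3 c4 c5 : ℝ}, Enc E C1 c1 → Pr E N A2 B2 D2 a2 b2 → Enc E C3 c3 → Enc E C4 c4 → Enc E C5 c5 →
    Pr E N (F.t C1 A2 C3 C4 C5) (F.t C1 B2 C3 C4 C5) (s C1 A2 B2 D2 C3 C4 C5) (F.v c1 a2 c3 c4 c5) (F.v c1 b2 c3 c4 c5)

attribute [local irreducible] padd psub pneg pmul psq pinv psqrt psqrtg pabs pps pmax pmin pphi plam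
  pcase phf pnat prat pscale pnorm pdc pnc pone ppos pnn Enc

noncomputable def v1_u : Fn4 := ⟨_, _, fun h1 h2 h3 h4 => (enc_norm (enc_sub (enc_sub (xi1.enc h1 h4) (xi1.enc h2 h4)) (xi1.enc (enc_norm (enc_add h1 h2)) h4)))⟩
noncomputable def v1_u_vvcc : Sl_vvcc v1_u := ⟨_, fun h1 h2 h3 h4 => (pr_norm (pr_sub (pr_sub (xi1_vc.snd h1 h4) (xi1_vc.snd h2 h4)) (xi1_vc.snd (pr_norm (pr_add h1 h2)) h4)))⟩
noncomputable def k1m_wp_zvvvccc : Sl_zvvvccc k1m_wp := ⟨_, fun h1 z1 h2 h3 h4 h5 h6 h7 => (k1m_vccc.snd h2 h5 h6 h7)⟩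
noncomputable def v1_rhv_2 : Fn2 := ⟨_, _, fun h1 h2 => (enc_mul h2 h1)⟩
noncomputable def v1_rhv : Fn2 := ⟨_, _, fun h1 h2 => (enc_sqrtg (enc_neg (enc_mul (enc_norm (v1_rhv_2.enc h1 h2)) (enc_norm (enc_add (enc_pnc _ 3) (enc_scale 3 4 (v1_rhv_2.enc h1 h2)))))))⟩
noncomputable def kdk_3 : Fn2 := ⟨_, _, fun h1 h2 => (enc_sqrt (enc_pnc _ 3))⟩
noncomputable def kdk_5 : Fn2 := ⟨_, _, fun h1 h2 => (enc_scale 109997 100000 (kdk_3.enc h1 h2))⟩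
noncomputable def kdk_8 : Fn2 := ⟨_, _, fun h1 h2 => (enc_scale 559209 200000 (kdk_3.enc h1 h2))⟩
noncomputable def kdk_38 : Fn2 := ⟨_, _, fun h1 h2 => (enc_mul (enc_half (kdk_3.enc h1 h2)) h1)⟩
noncomputable def kdk : Fn2 := ⟨_, _, fun h1 h2 => (enc_norm (enc_add (enc_add (enc_sub (enc_add (enc_add (enc_add (enc_sub (enc_mul (enc_pos (enc_sub h1 h2)) (enc_norm (enc_add (u2k.enc h2) (kdk_5.enc h1 h2)))) (enc_mul h1 (kdk_5.enc h1 h2))) (enc_mul (enc_pos (enc_sub h1 (enc_scale 8 5 h2))) (enc_norm (enc_sub (enc_neg (kdk_8.enc h1 h2)) (u2k.enc h2))))) (enc_mul (enc_pos (enc_sub h1 (enc_scale 11 5 h2))) (enc_norm (enc_add (u4k.enc h2) (kdk_8.enc h1 h2))))) (enc_mul (enc_pos (enc_sub h1 (enc_scale 5 2 h2))) (enc_norm (enc_sub (enc_neg (enc_scale 6303 3125 (kdk_3.enc h1 h2))) (u4k.enc h2))))) (enc_scale 6894 3125 (enc_pos (enc_subr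 1 16 (kdk_38.enc h1 h2))))) (enc_scale 2753 2500 (enc_pos (enc_subr 1 10 (kdk_38.enc h1 h2))))) (enc_scale 12847 2500 (enc_pos (enc_subr 1 5 (kdk_38.enc h1 h2))))))⟩
noncomputable def kap : Fn4 := ⟨_, _, fun h1 h2 h3 h4 => (enc_norm (enc_mul (enc_norm (enc_add (enc_pnc _ 1) (kdk.enc (enc_scale 2 3 h1) h4))) (enc_inv (enc_add (enc_pnc _ 2) (enc_half (enc_mul h3 h2))))))⟩
noncomputable def v1_g3k_10 : Fn5 := ⟨_, _, fun h1 h2 h3 h4 h5 => (enc_mul h1 (enc_inv (enc_add (enc_pnc _ 3) (enc_scale 3 4 (enc_mul h4 h2)))))⟩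
noncomputable def v1_g3k : Fn5 := ⟨_, _, fun h1 h2 h3 h4 h5 => (enc_norm (enc_mul (enc_norm (enc_sub (kap.enc h1 h2 h4 h5) (enc_mul (om3k.enc h2 h3 h4 h5) (enc_norm (v1_g3k_10.enc h1 h2 h3 h4 h5))))) (enc_inv (enc_sub (enc_pnc _ 1) (enc_mul (dd1.enc h2 h4) (enc_norm (v1_g3k_10.enc h1 h2 h3 h4 h5)))))))⟩
noncomputable def tk1v : Fn7 := ⟨_, _, fun h1 h2 h3 h4 h5 h6 h7 => (enc_norm (enc_add (w3k.enc h4 h5 h6 h7) (enc_mul h1 (v1_g3k.enc (v1_rhv.enc h4 h6) h4 h5 h6 h7))))⟩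
noncomputable def kdk_38_vc : Sl_vc kdk_38 := ⟨_, fun h1 h2 => (pr_cmul (enc_half (kdk_3.enc h1.l h2)) h1)⟩
noncomputable def kdk_vc : Sl_vc kdk := ⟨_, fun h1 h2 => (pr_norm (pr_add (pr_add (pr_sub (pr_add (pr_add (pr_add (pr_sub (pr_mulc (pr_nd (pr_posh (pr_subc h1 h2))) (enc_norm (enc_add (u2k.enc h2) (kdk_5.enc h1.l h2)))) (pr_mulc h1 (kdk_5.enc h1.l h2))) (pr_mulc (pr_nd (pr_posh (pr_subc h1 (enc_scale 8 5 h2)))) (enc_norm (enc_sub (enc_neg (kdk_8.enc h1.l h2)) (u2k.enc h2))))) (pr_mulc (pr_nd (pr_posh (pr_subc h1 (enc_scale 11 5 h2)))) (enc_norm (enc_add (u4k.enc h2) (kdk_8.enc h1.l h2))))) (pr_mulc (pr_nd (pr_posh (pr_subc h1 (enc_scale 5 2 h2)))) (enc_norm (enc_sub (enc_neg (enc_scale 6303 3125 (kdk_3.enc h1.l h2))) (u4k.enc h2))))) (pr_scale 6894 3125 (pr_posh (pr_subr 1 16 (kdk_38_vc.snd h1 h2))))) (pr_scale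 2753 2500 (pr_posh (pr_subr 1 10 (kdk_38_vc.snd h1 h2))))) (pr_scale 12847 2500 (pr_posh (pr_subr 1 5 (kdk_38_vc.snd h1 h2))))))⟩
noncomputable def kap_vvcc : Sl_vvcc kap := ⟨_, fun h1 h2 h3 h4 => (pr_norm (pr_mul (pr_norm (pr_cadd (enc_pnc _ 1) (kdk_vc.snd (pr_nd (pr_scale 2 3 h1)) h4))) (pr_nd (pr_inv (pr_cadd (enc_pnc _ 2) (pr_half (pr_cmul h3 h2)))))))⟩
noncomputable def v1_g3k_10_vvccc : Sl_vvccc v1_g3k_10 := ⟨_, fun h1 h2 h3 h4 h5 => (pr_mul h1 (pr_nd (pr_inv (pr_cadd (enc_pnc _ 3) (pr_scale 3 4 (pr_cmul h4 h2))))))⟩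
noncomputable def v1_g3k_vvccc : Sl_vvccc v1_g3k := ⟨_, fun h1 h2 h3 h4 h5 => (pr_norm (pr_mul (pr_norm (pr_sub (kap_vvcc.snd h1 h2 h4 h5) (pr_mul (om3k_vccc.snd h2 h3 h4 h5) (pr_norm (v1_g3k_10_vvccc.snd h1 h2 h3 h4 h5))))) (pr_nd (pr_inv (pr_csub (enc_pnc _ 1) (pr_mul (dd1_vc.snd h2 h4) (pr_norm (v1_g3k_10_vvccc.snd h1 h2 h3 h4 h5))))))))⟩
noncomputable def v1_rhv_2_vc : Sl_vc v1_rhv_2 := ⟨_, fun h1 h2 => (pr_cmul h2 h1)⟩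
noncomputable def v1_rhv_vc : Sl_vc v1_rhv := ⟨_, fun h1 h2 => (pr_sqrtg (pr_neg (pr_mul (pr_norm (v1_rhv_2_vc.snd h1 h2)) (pr_norm (pr_cadd (enc_pnc _ 3) (pr_scale 3 4 (v1_rhv_2_vc.snd h1 h2)))))))⟩
noncomputable def tk1v_zvvvccc : Sl_zvvvccc tk1v := ⟨_, fun h1 z1 h2 h3 h4 h5 h6 h7 => (pr_norm (pr_add (w3k_vccc.snd h4 h5 h6 h7) (pr_mz z1 h1 (v1_g3k_vvccc.snd (pr_nd (v1_rhv_vc.snd h4 h6)) h4 h5 h6 h7))))⟩
noncomputable def hdr_8 : Fn3 := ⟨_, _, fun h1 h2 h3 => (enc_mul h1 (enc_inv (enc_add (enc_pnc _ 3) (enc_scale 3 4 (enc_mul h3 h2)))))⟩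
noncomputable def hdr : Fn3 := ⟨_, _, fun h1 h2 h3 => (enc_norm (enc_mul (enc_norm (hdr_8.enc h1 h2 h3)) (enc_inv (enc_sub (enc_pnc _ 1) (enc_mul (dd1.enc h2 h3) (enc_norm (hdr_8.enc h1 h2 h3)))))))⟩
noncomputable def ta1v : Fn7 := ⟨_, _, fun h1 h2 h3 h4 h5 h6 h7 => (enc_norm (enc_sub (xw3.enc h4 h5 h6 h7) (enc_mul h1 (enc_norm (enc_scale 20 3 (enc_mul (qx3.enc h4 h5 h6 h7) (hdr.enc (v1_rhv.enc h4 h6) h4 h6)))))))⟩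
noncomputable def hdr_8_vvc : Sl_vvc hdr_8 := ⟨_, fun h1 h2 h3 => (pr_mul h1 (pr_nd (pr_inv (pr_cadd (enc_pnc _ 3) (pr_scale 3 4 (pr_cmul h3 h2))))))⟩
noncomputable def hdr_vvc : Sl_vvc hdr := ⟨_, fun h1 h2 h3 => (pr_norm (pr_mul (pr_norm (hdr_8_vvc.snd h1 h2 h3)) (pr_nd (pr_inv (pr_csub (enc_pnc _ 1) (pr_mul (dd1_vc.snd h2 h3) (pr_norm (hdr_8_vvc.snd h1 h2 h3))))))))⟩
noncomputable def ta1v_zvvvccc : Sl_zvvvccc ta1v := ⟨_, fun h1 z1 h2 h3 h4 h5 h6 h7 => (pr_norm (pr_sub (xw3_vccc.snd h4 h5 h6 h7) (pr_mz z1 h1 (pr_norm (pr_scale 20 3 (pr_mul (qx3_vccc.snd h4 h5 h6 h7) (hdr_vvc.snd (pr_nd (v1_rhv_vc.snd h4 h6)) h4 h6)))))))⟩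
noncomputable def l1m_wp_zvvvccc : Sl_zvvvccc l1m_wp := ⟨_, fun h1 z1 h2 h3 h4 h5 h6 h7 => (l1m_vccc.snd h2 h5 h6 h7)⟩
noncomputable def v1_cc5 : Fn1 := ⟨_, _, fun h1 => (enc_norm (enc_mul (lmf.enc h1) (enc_norm (enc_subr 1283 6250 (enc_scale 2598 125 h1)))))⟩
noncomputable def hfr_10 : Fn3 := ⟨_, _, fun h1 h2 h3 => (enc_mul (dd1.enc h2 h3) (enc_norm (enc_mul h1 (enc_inv (enc_add (enc_pnc _ 3) (enc_scale 3 4 (enc_mul h3 h2)))))))⟩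
noncomputable def hfr : Fn3 := ⟨_, _, fun h1 h2 h3 => (enc_norm (enc_mul (enc_norm (hfr_10.enc h1 h2 h3)) (enc_inv (enc_sub (enc_pnc _ 1) (hfr_10.enc h1 h2 h3)))))⟩
noncomputable def v1_b1c : Fn4 := ⟨_, _, fun h1 h2 h3 h4 => (enc_norm (enc_scale 20 3 (enc_mul (v1_cc5.enc h4) (enc_norm (enc_add (hfr.enc h1 h2 h3) (enc_rat _ 3 20))))))⟩
noncomputable def tc1v : Fn7 := ⟨_, _, fun h1 h2 h3 h4 h5 h6 h7 => (enc_norm (enc_mul h1 (enc_norm (enc_neg (enc_mul (v1_b1c.enc (v1_rhv.enc h4 h6) h4 h6 h7) h4)))))⟩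
noncomputable def hfr_10_vvc : Sl_vvc hfr_10 := ⟨_, fun h1 h2 h3 => (pr_mul (dd1_vc.snd h2 h3) (pr_norm (pr_mul h1 (pr_nd (pr_inv (pr_cadd (enc_pnc _ 3) (pr_scale 3 4 (pr_cmul h3 h2))))))))⟩
noncomputable def hfr_vvc : Sl_vvc hfr := ⟨_, fun h1 h2 h3 => (pr_norm (pr_mul (pr_norm (hfr_10_vvc.snd h1 h2 h3)) (pr_nd (pr_inv (pr_csub (enc_pnc _ 1) (hfr_10_vvc.snd h1 h2 h3))))))⟩
noncomputable def v1_b1c_vvcc : Sl_vvcc v1_b1c := ⟨_, fun h1 h2 h3 h4 => (pr_norm (pr_scale 20 3 (pr_cmul (v1_cc5.enc h4) (pr_norm (pr_addc (hfr_vvc.snd h1 h2 h3) (enc_rat _ 3 20))))))⟩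
noncomputable def tc1v_zvvvccc : Sl_zvvvccc tc1v := ⟨_, fun h1 z1 h2 h3 h4 h5 h6 h7 => (pr_norm (pr_mz z1 h1 (pr_norm (pr_neg (pr_mul (v1_b1c_vvcc.snd (pr_nd (v1_rhv_vc.snd h4 h6)) h4 h6 h7) h4)))))⟩
noncomputable def kap_cvcc : Sl_cvcc kap := ⟨_, fun h1 h2 h3 h4 => (pr_norm (pr_cmul (enc_norm (enc_add (enc_pnc _ 1) (kdk.enc (enc_scale 2 3 h1) h4))) (pr_nd (pr_inv (pr_cadd (enc_pnc _ 2) (pr_half (pr_cmul h3 h2)))))))⟩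
noncomputable def v1_g3k_10_cvccc : Sl_cvccc v1_g3k_10 := ⟨_, fun h1 h2 h3 h4 h5 => (pr_cmul h1 (pr_nd (pr_inv (pr_cadd (enc_pnc _ 3) (pr_scale 3 4 (pr_cmul h4 h2))))))⟩
noncomputable def v1_g3k_cvccc : Sl_cvccc v1_g3k := ⟨_, fun h1 h2 h3 h4 h5 => (pr_norm (pr_mul (pr_norm (pr_sub (kap_cvcc.snd h1 h2 h4 h5) (pr_mul (om3k_vccc.snd h2 h3 h4 h5) (pr_norm (v1_g3k_10_cvccc.snd h1 h2 h3 h4 h5))))) (pr_nd (pr_inv (pr_csub (enc_pnc _ 1) (pr_mul (dd1_vc.snd h2 h4) (pr_norm (v1_g3k_10_cvccc.snd h1 h2 h3 h4 h5))))))))⟩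
noncomputable def nk1m_wp_zvvvccc : Sl_zvvvccc nk1m_wp := ⟨_, fun h1 z1 h2 h3 h4 h5 h6 h7 => (nkf_cvv.snd h7 (pr_nd (k1m_wp_vvvvccc.snd h1 h2 h3 h4 h5 h6 h7)) (pr_nd (b1m_wp_vvvvccc.snd h1 h2 h3 h4 h5 h6 h7)))⟩
noncomputable def kdb_34 : Fn2 := ⟨_, _, fun h1 h2 => (enc_mul (enc_half (enc_sqrt (enc_pnc _ 3))) h1)⟩
noncomputable def kdb_39 : Fn2 := ⟨_, _, fun h1 h2 => (enc_subr 8487 100000 (enc_scale 4 5 (b0f.enc h2)))⟩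
noncomputable def kdb_44 : Fn2 := ⟨_, _, fun h1 h2 => (enc_scale 80 3 (enc_sub (kdb_39.enc h1 h2) (enc_add (enc_scale 7 8 (b0f.enc h2)) (enc_rat _ 23151 50000))))⟩
noncomputable def kdb : Fn2 := ⟨_, _, fun h1 h2 => (enc_norm (enc_add (enc_add (enc_add (enc_add (enc_add (enc_add (enc_add (enc_mul h1 (u1b.enc h2)) (enc_mul (enc_pos (enc_sub h1 h2)) (enc_norm (enc_sub (u2b.enc h2) (u1b.enc h2))))) (enc_mul (enc_pos (enc_sub h1 (enc_scale 8 5 h2))) (enc_norm (enc_sub (u3b.enc h2) (u2b.enc h2))))) (enc_mul (enc_pos (enc_sub h1 (enc_scale 11 5 h2))) (enc_norm (enc_sub (u4b.enc h2) (u3b.enc h2))))) (enc_mul (enc_pos (enc_sub h1 (enc_scale 5 2 h2))) (enc_norm (enc_sub (u5b.enc h2) (u4b.enc h2))))) (enc_mul (enc_pos (enc_subr 1 16 (kdb_34.enc h1 h2))) (enc_norm (enc_sub (kdb_44.enc h1 h2) (enc_sub (enc_rat _ 23151 3125) (enc_nat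 2 (b0f.enc h2))))))) (enc_mul (enc_pos (enc_subr 1 10 (kdb_34.enc h1 h2))) (enc_norm (enc_sub (enc_neg (enc_nat 10 (kdb_39.enc h1 h2))) (kdb_44.enc h1 h2))))) (enc_mul (enc_pos (enc_subr 1 5 (kdb_34.enc h1 h2))) (enc_norm (enc_subr 8487 10000 (enc_nat 8 (b0f.enc h2)))))))⟩
noncomputable def bap : Fn4 := ⟨_, _, fun h1 h2 h3 h4 => (enc_norm (enc_mul (enc_norm (enc_add (b0f.enc h4) (kdb.enc (enc_scale 2 3 h1) h4))) (enc_inv (enc_add (enc_pnc _ 2) (enc_half (enc_mul h3 h2))))))⟩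
noncomputable def v1_g3b_10 : Fn5 := ⟨_, _, fun h1 h2 h3 h4 h5 => (enc_mul h1 (enc_inv (enc_add (enc_pnc _ 3) (enc_scale 3 4 (enc_mul h4 h2)))))⟩
noncomputable def v1_g3b : Fn5 := ⟨_, _, fun h1 h2 h3 h4 h5 => (enc_norm (enc_mul (enc_norm (enc_sub (bap.enc h1 h2 h4 h5) (enc_mul (v0_om3b.enc h2 h3 h4 h5) (enc_norm (v1_g3b_10.enc h1 h2 h3 h4 h5))))) (enc_inv (enc_sub (enc_pnc _ 1) (enc_mul (dd1.enc h2 h4) (enc_norm (v1_g3b_10.enc h1 h2 h3 h4 h5)))))))⟩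
noncomputable def tb1v : Fn7 := ⟨_, _, fun h1 h2 h3 h4 h5 h6 h7 => (enc_norm (enc_add (v0_w3b.enc h4 h5 h6 h7) (enc_mul h1 (v1_g3b.enc (v1_rhv.enc h4 h6) h4 h5 h6 h7))))⟩
noncomputable def ntk1v : Fn7 := ⟨_, _, fun h1 h2 h3 h4 h5 h6 h7 => (nkf.enc h7 (tk1v.enc h1 h2 h3 h4 h5 h6 h7) (tb1v.enc h1 h2 h3 h4 h5 h6 h7))⟩
noncomputable def kdb_34_vc : Sl_vc kdb_34 := ⟨_, fun h1 h2 => (pr_cmul (enc_half (enc_sqrt (enc_pnc _ 3))) h1)⟩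
noncomputable def kdb_vc : Sl_vc kdb := ⟨_, fun h1 h2 => (pr_norm (pr_add (pr_add (pr_add (pr_add (pr_add (pr_add (pr_add (pr_mulc h1 (u1b.enc h2)) (pr_mulc (pr_nd (pr_posh (pr_subc h1 h2))) (enc_norm (enc_sub (u2b.enc h2) (u1b.enc h2))))) (pr_mulc (pr_nd (pr_posh (pr_subc h1 (enc_scale 8 5 h2)))) (enc_norm (enc_sub (u3b.enc h2) (u2b.enc h2))))) (pr_mulc (pr_nd (pr_posh (pr_subc h1 (enc_scale 11 5 h2)))) (enc_norm (enc_sub (u4b.enc h2) (u3b.enc h2))))) (pr_mulc (pr_nd (pr_posh (pr_subc h1 (enc_scale 5 2 h2)))) (enc_norm (enc_sub (u5b.enc h2) (u4b.enc h2))))) (pr_mulc (pr_nd (pr_posh (pr_subr 1 16 (kdb_34_vc.snd h1 h2)))) (enc_norm (enc_sub (kdb_44.enc h1.l h2) (enc_sub (enc_rat _ 23151 3125) (enc_nat 2 (b0f.enc h2))))))) (pr_mulc (pr_nd (pr_posh (pr_subr 1 10 (kdb_34_vc.snd h1 h2)))) (enc_norm (enc_sub (enc_neg (enc_nat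 10 (kdb_39.enc h1.l h2))) (kdb_44.enc h1.l h2))))) (pr_mulc (pr_nd (pr_posh (pr_subr 1 5 (kdb_34_vc.snd h1 h2)))) (enc_norm (enc_subr 8487 10000 (enc_nat 8 (b0f.enc h2)))))))⟩
noncomputable def bap_vvcc : Sl_vvcc bap := ⟨_, fun h1 h2 h3 h4 => (pr_norm (pr_mul (pr_norm (pr_cadd (b0f.enc h4) (kdb_vc.snd (pr_nd (pr_scale 2 3 h1)) h4))) (pr_nd (pr_inv (pr_cadd (enc_pnc _ 2) (pr_half (pr_cmul h3 h2)))))))⟩
noncomputable def v1_g3b_10_vvccc : Sl_vvccc v1_g3b_10 := ⟨_, fun h1 h2 h3 h4 h5 => (pr_mul h1 (pr_nd (pr_inv (pr_cadd (enc_pnc _ 3) (pr_scale 3 4 (pr_cmul h4 h2))))))⟩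
noncomputable def v1_g3b_vvccc : Sl_vvccc v1_g3b := ⟨_, fun h1 h2 h3 h4 h5 => (pr_norm (pr_mul (pr_norm (pr_sub (bap_vvcc.snd h1 h2 h4 h5) (pr_mul (v0_om3b_vccc.snd h2 h3 h4 h5) (pr_norm (v1_g3b_10_vvccc.snd h1 h2 h3 h4 h5))))) (pr_nd (pr_inv (pr_csub (enc_pnc _ 1) (pr_mul (dd1_vc.snd h2 h4) (pr_norm (v1_g3b_10_vvccc.snd h1 h2 h3 h4 h5))))))))⟩
noncomputable def tb1v_zvvvccc : Sl_zvvvccc tb1v := ⟨_, fun h1 z1 h2 h3 h4 h5 h6 h7 => (pr_norm (pr_add (v0_w3b_vccc.snd h4 h5 h6 h7) (pr_mz z1 h1 (v1_g3b_vvccc.snd (pr_nd (v1_rhv_vc.snd h4 h6)) h4 h5 h6 h7))))⟩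
noncomputable def ntk1v_zvvvccc : Sl_zvvvccc ntk1v := ⟨_, fun h1 z1 h2 h3 h4 h5 h6 h7 => (nkf_cvv.snd h7 (tk1v_zvvvccc.snd h1 z1 h2 h3 h4 h5 h6 h7) (tb1v_zvvvccc.snd h1 z1 h2 h3 h4 h5 h6 h7))⟩
noncomputable def v1_w3n : Fn4 := ⟨_, _, fun h1 h2 h3 h4 => (nkf.enc h4 (w3k.enc h1 h2 h3 h4) (v0_w3b.enc h1 h2 h3 h4))⟩
noncomputable def v1_w3n_vccc : Sl_vccc v1_w3n := ⟨_, fun h1 h2 h3 h4 => (nkf_cvv.snd h4 (w3k_vccc.snd h1 h2 h3 h4) (v0_w3b_vccc.snd h1 h2 h3 h4))⟩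
noncomputable def v1_g3n : Fn5 := ⟨_, _, fun h1 h2 h3 h4 h5 => (nkf.enc h5 (v1_g3k.enc h1 h2 h3 h4 h5) (v1_g3b.enc h1 h2 h3 h4 h5))⟩
noncomputable def bap_cvcc : Sl_cvcc bap := ⟨_, fun h1 h2 h3 h4 => (pr_norm (pr_cmul (enc_norm (enc_add (b0f.enc h4) (kdb.enc (enc_scale 2 3 h1) h4))) (pr_nd (pr_inv (pr_cadd (enc_pnc _ 2) (pr_half (pr_cmul h3 h2)))))))⟩
noncomputable def v1_g3b_10_cvccc : Sl_cvccc v1_g3b_10 := ⟨_, fun h1 h2 h3 h4 h5 => (pr_cmul h1 (pr_nd (pr_inv (pr_cadd (enc_pnc _ 3) (pr_scale 3 4 (pr_cmul h4 h2))))))⟩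
noncomputable def v1_g3b_cvccc : Sl_cvccc v1_g3b := ⟨_, fun h1 h2 h3 h4 h5 => (pr_norm (pr_mul (pr_norm (pr_sub (bap_cvcc.snd h1 h2 h4 h5) (pr_mul (v0_om3b_vccc.snd h2 h3 h4 h5) (pr_norm (v1_g3b_10_cvccc.snd h1 h2 h3 h4 h5))))) (pr_nd (pr_inv (pr_csub (enc_pnc _ 1) (pr_mul (dd1_vc.snd h2 h4) (pr_norm (v1_g3b_10_cvccc.snd h1 h2 h3 h4 h5))))))))⟩
noncomputable def v1_g3n_cvccc : Sl_cvccc v1_g3n := ⟨_, fun h1 h2 h3 h4 h5 => (nkf_cvv.snd h5 (v1_g3k_cvccc.snd h1 h2 h3 h4 h5) (v1_g3b_cvccc.snd h1 h2 h3 h4 h5))⟩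
noncomputable def v1_okx : Fn4 := ⟨_, _, fun h1 h2 h3 h4 => enc_cl 1 (by norm_num) (om3k.enc h1 h2 h3 h4)⟩
noncomputable def v1_g3kx_10 : Fn5 := ⟨_, _, fun h1 h2 h3 h4 h5 => (enc_mul h1 (enc_inv (enc_add (enc_pnc _ 3) (enc_scale 3 4 (enc_mul h4 h2)))))⟩
noncomputable def v1_g3kx : Fn5 := ⟨_, _, fun h1 h2 h3 h4 h5 => (enc_norm (enc_mul (enc_norm (enc_sub (kap.enc h1 h2 h4 h5) (enc_mul (v1_okx.enc h2 h3 h4 h5) (enc_norm (v1_g3kx_10.enc h1 h2 h3 h4 h5))))) (enc_inv (enc_sub (enc_pnc _ 1) (enc_mul (dd1.enc h2 h4) (enc_norm (v1_g3kx_10.enc h1 h2 h3 h4 h5)))))))⟩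
noncomputable def v1_k13x : Fn7 := ⟨_, _, fun h1 h2 h3 h4 h5 h6 h7 => (enc_norm (enc_add (w3k.enc h4 h5 h6 h7) (enc_mul h1 (v1_g3kx.enc (v1_rhv.enc h4 h6) h4 h5 h6 h7))))⟩
noncomputable def v1_a13x : Fn7 := ⟨fun _ _ _ _ _ _ _ => _, fun u w z t m r x => -(max 0 (min (3 / 400) (ta1v.v u w z t m r x / t))), fun h1 h2 h3 h4 h5 h6 h7 => enc_neg enc_400⟩
noncomputable def v1_nhf : Fn1 := ⟨_, _, fun h1 => (enc_rat _ 1 2)⟩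
noncomputable def v1_obx : Fn4 := ⟨_, _, fun h1 h2 h3 h4 => enc_cl 2 (by norm_num) (v0_om3b.enc h1 h2 h3 h4)⟩
noncomputable def v1_g3bx_10 : Fn5 := ⟨_, _, fun h1 h2 h3 h4 h5 => (enc_mul h1 (enc_inv (enc_add (enc_pnc _ 3) (enc_scale 3 4 (enc_mul h4 h2)))))⟩
noncomputable def v1_g3bx : Fn5 := ⟨_, _, fun h1 h2 h3 h4 h5 => (enc_norm (enc_mul (enc_norm (enc_sub (bap.enc h1 h2 h4 h5) (enc_mul (v1_obx.enc h2 h3 h4 h5) (enc_norm (v1_g3bx_10.enc h1 h2 h3 h4 h5))))) (enc_inv (enc_sub (enc_pnc _ 1) (enc_mul (dd1.enc h2 h4) (enc_norm (v1_g3bx_10.enc h1 h2 h3 h4 h5)))))))⟩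
noncomputable def v1_b13x : Fn7 := ⟨_, _, fun h1 h2 h3 h4 h5 h6 h7 => (enc_norm (enc_add (v0_w3b.enc h4 h5 h6 h7) (enc_mul h1 (v1_g3bx.enc (v1_rhv.enc h4 h6) h4 h5 h6 h7))))⟩
noncomputable def v1_nk13x : Fn7 := ⟨_, _, fun h1 h2 h3 h4 h5 h6 h7 => (nkf.enc h7 (v1_k13x.enc h1 h2 h3 h4 h5 h6 h7) (v1_b13x.enc h1 h2 h3 h4 h5 h6 h7))⟩
noncomputable def v1_nhn : Fn1 := ⟨_, _, fun h1 => (enc_half (bef.enc h1))⟩
noncomputable def v1_abg_7 : Fn7 := ⟨_, _, fun h1 h2 h3 h4 h5 h6 h7 => (enc_inv h3)⟩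
noncomputable def v1_abg : Fn7 := ⟨_, _, fun h1 h2 h3 h4 h5 h6 h7 => (enc_norm (enc_mul (enc_norm (enc_mul (enc_norm (enc_mul h2 (kx.enc h1))) (enc_norm (enc_mul (enc_norm (enc_mul h4 (v1_abg_7.enc h1 h2 h3 h4 h5 h6 h7))) (enc_norm (enc_mul h5 (v1_abg_7.enc h1 h2 h3 h4 h5 h6 h7))))))) (enc_norm (enc_mul (enc_norm (enc_mul h2 (enc_sq h6))) (enc_inv h7)))))⟩
noncomputable def v1_sv : Fn2 := ⟨_, _, fun h1 h2 => (enc_norm (enc_neg (enc_mul h1 (enc_norm (enc_add (enc_rat _ 1 2) (dd1.enc h1 h2))))))⟩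
noncomputable def v1_t0 : Fn2 := ⟨_, _, fun h1 h2 => (enc_norm (enc_neg (enc_nat 2 (enc_mul h2 (om.enc h1 h2)))))⟩
noncomputable def v1_grk_7 : Fn7 := ⟨_, _, fun h1 h2 h3 h4 h5 h6 h7 => (enc_mul h6 h4)⟩
noncomputable def v1_grk_11 : Fn7 := ⟨_, _, fun h1 h2 h3 h4 h5 h6 h7 => (enc_inv (enc_add (enc_pnc _ 3) (enc_scale 3 4 (v1_grk_7.enc h1 h2 h3 h4 h5 h6 h7))))⟩
noncomputable def v1_grk : Fn7 := ⟨_, _, fun h1 h2 h3 h4 h5 h6 h7 => (enc_norm (enc_mul (enc_norm (enc_sub (enc_scale 2 3 (enc_mul h1 (enc_inv (enc_add (enc_pnc _ 2) (enc_half (v1_grk_7.enc h1 h2 h3 h4 h5 h6 h7)))))) (enc_mul (enc_norm (enc_sub (om3k.enc h4 h5 h6 h7) (enc_mul h2 (dd1.enc h4 h6)))) (v1_grk_11.enc h1 h2 h3 h4 h5 h6 h7)))) (enc_inv (enc_sub (enc_pnc _ 1) (enc_mul (dd1.enc h4 h6) (enc_norm (enc_mul h3 (v1_grk_11.enc h1 h2 h3 h4 h5 h6 h7))))))))⟩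
noncomputable def v1_grb_7 : Fn7 := ⟨_, _, fun h1 h2 h3 h4 h5 h6 h7 => (enc_mul h6 h4)⟩
noncomputable def v1_grb_11 : Fn7 := ⟨_, _, fun h1 h2 h3 h4 h5 h6 h7 => (enc_inv (enc_add (enc_pnc _ 3) (enc_scale 3 4 (v1_grb_7.enc h1 h2 h3 h4 h5 h6 h7))))⟩
noncomputable def v1_grb : Fn7 := ⟨_, _, fun h1 h2 h3 h4 h5 h6 h7 => (enc_norm (enc_mul (enc_norm (enc_sub (enc_scale 2 3 (enc_mul h1 (enc_inv (enc_add (enc_pnc _ 2) (enc_half (v1_grb_7.enc h1 h2 h3 h4 h5 h6 h7)))))) (enc_mul (enc_norm (enc_sub (v0_om3b.enc h4 h5 h6 h7) (enc_mul h2 (dd1.enc h4 h6)))) (v1_grb_11.enc h1 h2 h3 h4 h5 h6 h7)))) (enc_inv (enc_sub (enc_pnc _ 1) (enc_mul (dd1.enc h4 h6) (enc_norm (enc_mul h3 (v1_grb_11.enc h1 h2 h3 h4 h5 h6 h7))))))))⟩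
noncomputable def v1_ut : Fn4 := ⟨_, _, fun h1 h2 h3 h4 => (enc_norm (enc_sub (enc_sub (xi1.enc h1 h4) (xi1.enc h2 h4)) (xi1.enc h3 h4)))⟩
noncomputable def v1_ut_cvvc : Sl_cvvc v1_ut := ⟨_, fun h1 h2 h3 h4 => (pr_norm (pr_sub (pr_csub (xi1.enc h1 h4) (xi1_vc.snd h2 h4)) (xi1_vc.snd h3 h4)))⟩

end Pool.Agent.Strip051.LC.E1.V1
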