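import Pool.Agent.Strip051.LC.E1.V1.Vg

/-! # Rests near the full period: the row between `W` and `1.15`, slopes in the direction of the
circle of radius `√3` -/

set_option linter.unusedVariables false
set_option linter.unusedSimpArgs false

namespace Pool.Agent.Strip051.LC.E1.V1

open Pool.Agent.Strip051.PB
open Pool.Agent.Strip051.LC.E1.Ch
open Pool.Agent.Strip051.LC.E1.V0

theorem gr_id {κ κ' k o d i p p' : ℝ} (hκ : κ' - κ = (p' - p) * k) (h0 : 1 - d * (p * i) ≠ 0)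
    (h1 : 1 - d * (p' * i) ≠ 0) :
    (κ' - o * (p' * i)) * (1 - d * (p' * i))⁻¹ - (κ - o * (p * i)) * (1 - d * (p * i))⁻¹ =
      (p' - p) * ((k - (o - (κ - o * (p * i)) * (1 - d * (p * i))⁻¹ * d) * i) *
        (1 - d * (p' * i))⁻¹) := by
  obtain ⟨g, hg⟩ : ∃ g, g = (κ - o * (p * i)) * (1 - d * (p * i))⁻¹ := ⟨_, rfl⟩
  have hg' : g * (1 - d * (p * i)) = κ - o * (p * i) := by
    rw [hg, mul_assoc, inv_mul_cancel₀ h0, mul_one]
  rw [← hg]
  have e : (κ' - o * (p' * i)) = g * (1 - d * (p' * i)) + (p' - p) * (k - (o - g * d) * i) := by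
    linear_combination hκ - hg'
  rw [e, add_mul, mul_assoc g, mul_inv_cancel₀ h1]
  ring

theorem d_ne {t m r p : ℝ} (H : Hc r m t) (ht : t < 0) (p0 : 0 ≤ p) (p1 : p ≤ 27 / 250) :
    1 - D1 t r * (p * (3 + 3 / 4 * (r * t))⁻¹) ≠ 0 := by
  have hD := D1_b H
  have h1 := abs_le.1 H.a
  have h2 : 0 < 3 + 3 / 4 * (r * t) := by linarith
  have h3 : (3 + 3 / 4 * (r * t))⁻¹ ≤ 1 / 2 := by
    rw [inv_le_comm₀ h2 (by norm_num)]
    linarith
  have h4 : 0 ≤ (3 + 3 / 4 * (r * t))⁻¹ := by positivity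
  have h5 : p * (3 + 3 / 4 * (r * t))⁻¹ ≤ 27 / 250 * (1 / 2) :=
    mul_le_mul p1 h3 h4 (by norm_num)
  have h6 : 0 ≤ p * (3 + 3 / 4 * (r * t))⁻¹ := mul_nonneg p0 h4
  have h7 : D1 t r * (p * (3 + 3 / 4 * (r * t))⁻¹) ≤ 7 / 4 * (27 / 250 * (1 / 2)) :=
    mul_le_mul hD.2 h5 h6 (by norm_num)
  intro h8
  linarith

section

variable {t m r s : ℝ} {a : ℕ} {E : Pt}

/-- The slope of the first kernel. -/
noncomputable def tK (t m r s : ℝ) : ℝ :=
  (G.kU r m (2 / 3 * G.x3v t r) - G.kU r m s) / (2 / 3 * G.x3v t r - s)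

/-- The slope of the second kernel. -/
noncomputable def tB (t m r s : ℝ) : ℝ :=
  (G.bU r m (2 / 3 * G.x3v t r) - G.bU r m s) / (2 / 3 * G.x3v t r - s)

theorem s16 (hr : 0 < r) (V : Vg t m r s a) : r * (Real.sqrt 3 / 2 * s) ≤ 1 / 16 := by
  refine le_trans ?_ V.h16
  refine mul_le_mul_of_nonneg_left ?_ hr.le
  have h1 := V.s1
  have h2 := V.s0
  exact mul_le_mul_of_nonneg_left (by linarith) (by linarith [sh_lo])

theorem k_diff (hr : 0 < r) (V : Vg t m r s a) :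
    (1 + kdk.v (2 / 3 * (r * G.x3v t r)) (m * r)) * (2 + r * tz r s / 2)⁻¹ -
      (1 + kdk.v (2 / 3 * (3 / 2 * (r * s))) (m * r)) * (2 + r * tz r s / 2)⁻¹ =
      (r * G.x3v t r - 3 / 2 * (r * s)) *
        (2 / 3 * (tK t m r s * (2 + r * tz r s / 2)⁻¹)) := by
  have h1 := V.s1
  have h2 := V.s0
  have h3 : 2 / 3 * G.x3v t r - s ≠ 0 := by
    have : 0 < 2 / 3 * G.x3v t r - s := by linarith
    exact this.ne'
  rw [show 2 / 3 * (r * G.x3v t r) = r * (2 / 3 * G.x3v t r) by ring,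
    show 2 / 3 * (3 / 2 * (r * s)) = r * s by ring, kdk_val hr, kdk_val hr,
    kU'_of hr V.h16, kU'_of hr (s16 hr V)]
  have e : tK t m r s * (2 / 3 * G.x3v t r - s) = G.kU r m (2 / 3 * G.x3v t r) - G.kU r m s := by
    unfold tK
    exact div_mul_cancel₀ _ h3
  linear_combination (-(r * (2 + r * tz r s / 2)⁻¹)) * e

theorem b_diff (hr : 0 < r) (V : Vg t m r s a) :
    (G.B0 (m * r) + kdb.v (2 / 3 * (r * G.x3v t r)) (m * r)) * (2 + r * tz r s / 2)⁻¹ -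
      (G.B0 (m * r) + kdb.v (2 / 3 * (3 / 2 * (r * s))) (m * r)) *
        (2 + r * tz r s / 2)⁻¹ =
      (r * G.x3v t r - 3 / 2 * (r * s)) *
        (2 / 3 * (tB t m r s * (2 + r * tz r s / 2)⁻¹)) := by
  have h1 := V.s1
  have h2 := V.s0
  have h3 : 2 / 3 * G.x3v t r - s ≠ 0 := by
    have : 0 < 2 / 3 * G.x3v t r - s := by linarith
    exact this.ne'
  rw [show 2 / 3 * (r * G.x3v t r) = r * (2 / 3 * G.x3v t r) by ring,
    show 2 / 3 * (3 / 2 * (r * s)) = r * s by ring, kdb_val hr, kdb_val hr,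
    bU'_of hr V.h16, bU'_of hr (s16 hr V)]
  have e : tB t m r s * (2 / 3 * G.x3v t r - s) = G.bU r m (2 / 3 * G.x3v t r) - G.bU r m s := by
    unfold tB
    exact div_mul_cancel₀ _ h3
  linear_combination (-(r * (2 + r * tz r s / 2)⁻¹)) * e

theorem grk_eq (hr : 0 < r) (V : Vg t m r s a) (hy : r * G.x3v t r ≤ 27 / 250) :
    v1_g3k.v (r * G.x3v t r) (tz r s) m r (m * r) - v1_g3k.v (3 / 2 * (r * s)) (tz r s) m r
      (m * r) = (r * G.x3v t r - 3 / 2 * (r * s)) * v1_grk.v (tK t m r s)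
      (v1_g3k.v (3 / 2 * (r * s)) (tz r s) m r (m * r)) (r * G.x3v t r) (tz r s) m r (m * r) := by
  have h0 := d_ne (p := 3 / 2 * (r * s)) V.H0 V.t0 (by have := V.s0; positivity)
    (by have := V.rs; linarith)
  have h1 := d_ne (p := r * G.x3v t r) V.H0 V.t0
    (by have := V.y0; have := V.s0; exact mul_nonneg hr.le (by linarith)) hy
  have h2 := gr_id (o := om3k.v (tz r s) m r (m * r)) (k_diff hr V) h0 h1
  simp only [v1_g3k, v1_g3k_10, kap, v1_grk, v1_grk_7, v1_grk_11, dd1_val]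
  push_cast
  exact h2

theorem grb_eq (hr : 0 < r) (V : Vg t m r s a) (hy : r * G.x3v t r ≤ 27 / 250) :
    v1_g3b.v (r * G.x3v t r) (tz r s) m r (m * r) - v1_g3b.v (3 / 2 * (r * s)) (tz r s) m r
      (m * r) = (r * G.x3v t r - 3 / 2 * (r * s)) * v1_grb.v (tB t m r s)
      (v1_g3b.v (3 / 2 * (r * s)) (tz r s) m r (m * r)) (r * G.x3v t r) (tz r s) m r (m * r) := by
  have h0 := d_ne (p := 3 / 2 * (r * s)) V.H0 V.t0 (by have := V.s0; positivity)
    (by have := V.rs; linarith)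
  have h1 := d_ne (p := r * G.x3v t r) V.H0 V.t0
    (by have := V.y0; have := V.s0; exact mul_nonneg hr.le (by linarith)) hy
  have h2 := gr_id (o := v0_om3b.v (tz r s) m r (m * r)) (b_diff hr V) h0 h1
  simp only [v1_g3b, v1_g3b_10, bap, v1_grb, v1_grb_7, v1_grb_11, dd1_val, b0f_val]
  push_cast
  exact h2

theorem ivK_enc {kk : ℕ} {y : ℝ} (h0 : -(39 / 10) ≤ y) (h0' : y ≤ -(19 / 10))
    (h1 : kk = 1 → y ≤ -(34 / 10)) (h2 : kk = 2 → -(191 / 100) ≤ y) : Enc E (ivK kk) y := by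
  unfold ivK
  have e39 := enc_neg (enc_rat E 39 10)
  push_cast at e39
  rcases e2 : Nat.beq kk 2 with _ | _
  · rcases e1 : Nat.beq kk 1 with _ | _
    · exact enc_iv e39 (by norm_num) (by norm_num) h0 (by push_cast; linarith)
    · have := h1 (Nat.eq_of_beq_eq_true e1)
      exact enc_iv e39 (by norm_num) (by norm_num) h0 (by push_cast; linarith)
  · have := h2 (Nat.eq_of_beq_eq_true e2)
    have e191 := enc_neg (enc_rat E 191 100)
    push_cast at e191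
    exact enc_iv e191 (by norm_num) (by norm_num) this (by push_cast; linarith)

theorem ivB_enc {kk : ℕ} {y : ℝ} (h0 : -(2 : ℝ) ≤ y) (h0' : y ≤ 8)
    (h1 : kk = 1 → 55 / 10 ≤ y ∧ y ≤ 68 / 10) (h2 : kk = 2 → -(1 / 10) ≤ y ∧ y ≤ 0) :
    Enc E (ivB kk) y := by
  unfold ivB
  rcases e2 : Nat.beq kk 2 with _ | _
  · rcases e1 : Nat.beq kk 1 with _ | _
    · have e := enc_neg (enc_rat E 2 1)
      push_cast at e
      exact enc_iv e (by norm_num) (by norm_num) (by linarith) (by push_cast; linarith)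
    · have := h1 (Nat.eq_of_beq_eq_true e1)
      have e := enc_rat E 55 10
      push_cast at e
      exact enc_iv e (by norm_num) (by norm_num) this.1 (by push_cast; linarith)
  · have := h2 (Nat.eq_of_beq_eq_true e2)
    have e := enc_neg (enc_rat E 1 10)
    push_cast at e
    exact enc_iv e (by norm_num) (by norm_num) this.1 (by push_cast; linarith)

/-- The conditions for the alternatives. -/
structure Kc (t m r s : ℝ) (kk : ℕ) : Prop where
  k1 : kk = 1 → 11 / 25 * m ≤ s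
  k2 : kk = 2 → r * G.x3v t r ≤ 3 / 2 * (m * r)

theorem encK (hr : 0 < r) (hm : 0 < m) (x1 : m * r ≤ 1 / 40) (V : Vg t m r s a) {kk : ℕ}
    (C : Kc t m r s kk) : Enc E (ivK kk) (tK t m r s) := by
  obtain ⟨⟨h1, h2⟩, h3, h4⟩ := thK hr hm x1 V.s0 V.s1 V.h16
  have h5 := V.s1
  have h6 := V.s0
  have h7 : 0 < 2 / 3 * G.x3v t r - s := by linarith
  unfold tK
  refine ivK_enc ?_ ?_ (fun e => ?_) (fun e => ?_)
  · rw [le_div_iff₀ h7]; exact h1
  · rw [div_le_iff₀ h7]; exact h2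
  · rw [div_le_iff₀ h7]; exact h3 (C.k1 e)
  · rw [le_div_iff₀ h7]
    refine h4 ?_
    have := C.k2 e
    have k : r * (2 / 3 * G.x3v t r) ≤ r * m := by linarith
    exact le_of_mul_le_mul_left k hr

theorem encB (hr : 0 < r) (hm : 0 < m) (x1 : m * r ≤ 1 / 40) (V : Vg t m r s a) (sm : s ≤ m)
    {kk : ℕ} (C : Kc t m r s kk) : Enc E (ivB kk) (tB t m r s) := by
  obtain ⟨⟨h1, h2⟩, h3, h4⟩ := thB hr hm x1 V.s0 sm V.s1 V.h16
  have h5 := V.s1
  have h6 := V.s0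
  have h7 : 0 < 2 / 3 * G.x3v t r - s := by linarith
  unfold tB
  refine ivB_enc ?_ ?_ (fun e => ⟨?_, ?_⟩) (fun e => ?_)
  · rw [le_div_iff₀ h7]; exact h1
  · rw [div_le_iff₀ h7]; exact h2
  · rw [le_div_iff₀ h7]; exact (h3 (C.k1 e)).1
  · rw [div_le_iff₀ h7]; exact (h3 (C.k1 e)).2
  · have hx : 2 / 3 * G.x3v t r ≤ m := by
      have := C.k2 e
      have k : r * (2 / 3 * G.x3v t r) ≤ r * m := by linarith
      exact le_of_mul_le_mul_left k hr
    have := h4 hx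
    constructor
    · rw [le_div_iff₀ h7]; exact this.1
    · rw [div_le_iff₀ h7, zero_mul]; exact this.2

/-- The slope of the third side. -/
def GrOK (F : Gs) (t m r s : ℝ) (kk : ℕ) : Prop :=
  ∀ {E : Pt} {R0 P T0 M Q X : ℕ}, Enc E R0 (3 / 2 * (r * s)) → Enc E P (r * G.x3v t r) →
    Enc E T0 (tz r s) → Enc E M m → Enc E Q r → Enc E X (m * r) →
    ∃ g : ℝ, Enc E (F.gr kk R0 P T0 M Q X) g ∧
      F.g3.v (r * G.x3v t r) (tz r s) m r (m * r) - F.g3.v (3 / 2 * (r * s)) (tz r s) m r (m * r) =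
        (r * G.x3v t r - 3 / 2 * (r * s)) * g

theorem gr_f (hr : 0 < r) (hm : 0 < m) (x1 : m * r ≤ 1 / 40) (V : Vg t m r s a) {kk : ℕ}
    (C : Kc t m r s kk) (hy : r * G.x3v t r ≤ 27 / 250) : GrOK Gf t m r s kk := by
  intro E R0 P T0 M Q X h1 h2 h3 h4 h5 h6
  exact ⟨_, v1_grk.enc (encK hr hm x1 V C) (v1_g3k.enc h1 h3 h4 h5 h6) h2 h3 h4 h5 h6,
    grk_eq hr V hy⟩

theorem gr_n (hr : 0 < r) (hm : 0 < m) (x1 : m * r ≤ 1 / 40) (V : Vg t m r s a) (sm : s ≤ m)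
    {kk : ℕ} (C : Kc t m r s kk) (hy : r * G.x3v t r ≤ 27 / 250) : GrOK Gn t m r s kk := by
  intro E R0 P T0 M Q X h1 h2 h3 h4 h5 h6
  refine ⟨_, nkf.enc h6 (v1_grk.enc (encK hr hm x1 V C) (v1_g3k.enc h1 h3 h4 h5 h6) h2 h3 h4 h5 h6)
    (v1_grb.enc (encB hr hm x1 V sm C) (v1_g3b.enc h1 h3 h4 h5 h6) h2 h3 h4 h5 h6), ?_⟩
  have e1 := grk_eq hr V hy
  have e2 := grb_eq hr V hy
  show v1_g3n.v _ _ _ _ _ - v1_g3n.v _ _ _ _ _ = _
  simp only [v1_g3n, nkf_val]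
  linear_combination (1 + G.LAM (m * r) * G.mu (m * r)) * e1 + G.mu (m * r) * e2

end

end Pool.Agent.Strip051.LC.E1.V1
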