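import Pool.Agent.Strip051.LC.E1.Ch.Main
import Pool.Agent.Strip051.LC.E1.V1.Fn

/-! # Rests near the full period: the row between `W` and `1.15` -/

set_option linter.unusedVariables false

namespace Pool.Agent.Strip051.LC.E1.V1

open Pool.Agent.Strip051.PB
open Pool.Agent.Strip051.LC.E1.Ch
open Pool.Agent.Strip051.LC.E1.V0

/-- The functions of the strip leaf. -/
structure Gs where
  w3 : Fn4
  w3s : Sl_vccc w3
  g3 : Fn5
  g3s : Sl_cvccc g3
  gr : ℕ → ℕ → ℕ → ℕ → ℕ → ℕ → ℕ → ℕ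

noncomputable def ivK (k : ℕ) : ℕ :=
  Bool.rec (motive := fun _ => ℕ) (Bool.rec (motive := fun _ => ℕ) (piv (pneg (prat 39 10)) 20 10)
    (piv (pneg (prat 39 10)) 5 10) (Nat.beq k 1)) (piv (pneg (prat 191 100)) 1 100) (Nat.beq k 2)

noncomputable def ivB (k : ℕ) : ℕ :=
  Bool.rec (motive := fun _ => ℕ) (Bool.rec (motive := fun _ => ℕ) (piv (pneg (prat 2 1)) 10 1)
    (piv (prat 55 10) 13 10) (Nat.beq k 1)) (piv (pneg (prat 1 10)) 1 10) (Nat.beq k 2)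

noncomputable def Gf : Gs :=
  ⟨w3k, w3k_vccc, v1_g3k, v1_g3k_cvccc, fun k R0 P T0 M Q X =>
    v1_grk.t (ivK k) (v1_g3k.t R0 T0 M Q X) P T0 M Q X⟩

noncomputable def Gn : Gs :=
  ⟨v1_w3n, v1_w3n_vccc, v1_g3n, v1_g3n_cvccc, fun k R0 P T0 M Q X =>
    nkf.t X (v1_grk.t (ivK k) (v1_g3k.t R0 T0 M Q X) P T0 M Q X)
      (v1_grb.t (ivB k) (v1_g3b.t R0 T0 M Q X) P T0 M Q X)⟩

/-- The functions of the row. -/
noncomputable def Rf : RowF :=
  ⟨v1_u, v0_nff, nu0, v0_bsf, k1m_wp, k1p_zn, tk1v, zr7, zr7, ta1v, l1m_wp, l1p_zn, tc1v, vf1,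
      vf2, lnw, lz, lnt, gm2⟩

/-- Their slopes. -/
noncomputable def Sf : RowS Rf true :=
  ⟨v1_u_vvcc, v0_nff_vvc, nu0_vvc, v0_bsf_vvvccc, slz k1m_wp_zvvvccc, slz k1p_zn_zvvvccc, slz
      tk1v_zvvvccc, slz zr7_zvvvccc, slz zr7_zvvvccc, slz ta1v_zvvvccc, slz l1m_wp_zvvvccc, slz
      l1p_zn_zvvvccc, slz tc1v_zvvvccc, vf1_vvvccvvv, vf2_vvvccvvv, lnw_vvv, lz_vvv, lnt_vvv,
      gm2_vvvvvv⟩

/-- The functions of the row, for the second direct leaf. -/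
noncomputable def Xf : RowF :=
  { Rf with k13 := v1_k13x, a13 := v1_a13x }

/-- The functions of the row. -/
noncomputable def Rn : RowF :=
  ⟨v1_u, v0_nfn, nu0, v0_bsn, nk1m_wp, nk1p_zn, ntk1v, zr7, zr7, ta1v, l1m_wp, l1p_zn, tc1v, mv1,
      mv2, lnw, lz, lnt, gm2⟩

/-- Their slopes. -/
noncomputable def Sn : RowS Rn true :=
  ⟨v1_u_vvcc, v0_nfn_vvc, nu0_vvc, v0_bsn_vvvccc, slz nk1m_wp_zvvvccc, slz nk1p_zn_zvvvccc, slz
      ntk1v_zvvvccc, slz zr7_zvvvccc, slz zr7_zvvvccc, slz ta1v_zvvvccc, slz l1m_wp_zvvvccc, slz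
      l1p_zn_zvvvccc, slz tc1v_zvvvccc, mv1_vvvccvvv, mv2_vvvccvvv, lnw_vvv, lz_vvv, lnt_vvv,
      gm2_vvvvvv⟩

/-- The functions of the row, for the second direct leaf. -/
noncomputable def Xn : RowF :=
  { Rn with k13 := v1_nk13x, a13 := v1_a13x }

/-- leaf at the line `z = 0`, `w` is fixed -/
noncomputable def lwT {R : RowF} {q : Bool} (S : RowS R q) (W Z M Q : ℕ) : Bool :=
  frc (pneg W) fun L =>
  band (pnn (psub L (prat 3 5))) (band (pnn (psub (prat 11 10) L))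
    (frc (pnorm (pmul M Q)) fun X =>
    pval S false W W pzero Z pzero pone M Q fun Ua Ub Ud NUa NUb NUd NFa NFb NFd BSa BSb BSd La
        Lb Ld Aa Ab Ad Ba Bb Bd GMa GMb GMd DSa DSb DSd GPa GPb GPd V1Aa V1Ab V1Ad V1Ba V1Bb V1Bd
        V2Aa V2Ab V2Ad V2Ba V2Bb V2Bd BNa BNb BNd =>
      band (pnn DSa) (inL false X Q M La Lb Ld Aa Ba BNa BNb BNd DSa DSb DSd GPa V1Bd V2Bd)))

/-- the conditions of the strip leaf -/
noncomputable def vsc {R : RowF} {q : Bool} (S : RowS R q) (tn td kk a W Wd Z Zd M Q X SG RH : ℕ)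
    : Bool :=
  band (pnn (psub (S.u.s W pzero Wd Z pzero Zd M Q) (pmul (pneg Wd)
    (pnorm (pmul (prat a 20) (pnorm (padd (phf pone) (dd1.t W Q))))))))
  (band (pnn (psub (pscale tn td M) SG)) (band (pnn (psub (prat 27 250) RH))
    (Bool.rec (motive := fun _ => Bool) (Bool.rec (motive := fun _ => Bool) true
      (pnn (psub SG (pscale 11 25 M))) (Nat.beq kk 1)) (pnn (psub (pscale 3 2 X) RH)) (Nat.beq kk
          2))))

/-- strip leaf: slopes from the rotated lattice triangle with the same `w` -/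
noncomputable def vsT {R : RowF} (S : RowS R true) (F : Gs) (nb : Fn3) (tn td c k s W Wd Z Zd M Q
    : ℕ) : Bool :=
  frc (Nat.div c 32) fun cc => frc (Nat.mod (Nat.div c 8) 4) fun kk =>
  frc (Nat.add 26 (Nat.mod c 8)) fun a =>
  ckc cc Q fun I =>
  frc (pnorm (padd W Z)) fun T => frc (pnorm (pmul M Q)) fun X => frc (R.u.t W Z M Q) fun U =>
  frc (v1_sv.t W Q) fun SG => frc (v1_rhv.t T Q) fun RH =>
  band (vsc S tn td kk a W Wd Z Zd M Q X SG RH)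
  (frc (v1_t0.t SG Q) fun T0 => frc (pnorm (psub T0 W)) fun Z0 => frc (pneg pone) fun D1 =>
  frc (pscale 3 2 (pnorm (pmul Q SG))) fun R0 =>
  frc (pnorm (psub (pscale 3 2 SG) (xi1.t T0 Q))) fun U0 =>
  frc (v1_ut_cvvc.s W Z Z0 D1 T T0 D1 Q) fun Ud =>
  frc (F.g3.t RH T M Q X) fun G1 => frc (F.g3.t R0 T0 M Q X) fun G0 =>
  frc (F.w3.t T M Q X) fun WA => frc (F.w3.t T0 M Q X) fun WB =>
  frc (pnorm (padd (padd (F.w3s.s T T0 D1 M Q X) (pmul (pnorm Ud) G1))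
    (padd (pmul U0 (F.g3s.s RH T T0 D1 M Q X))
      (pmul (piv (prat 0 (Nat.add (Nat.mul 2 a) 9)) 27 (Nat.add (Nat.mul 2 a) 9))
        (F.gr kk R0 RH T0 M Q X))))) fun K13d =>
  frc (pnorm (padd WA (pmul U G1))) fun K13a => frc (pnorm (padd WB (pmul U0 G0))) fun K13b =>
  frc (R.k12.t pzero W Z T M Q X) fun K12 => frc (R.b12.t pzero W Z T M Q X) fun B12 =>
  frc (R.k23.t pzero W Z T M Q X) fun K23a => frc (R.k23.t pzero W Z0 T0 M Q X) fun K23b =>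
  frc (S.k23.s pzero pzero pzero W W pzero Z Z0 D1 T T0 D1 M Q X) fun K23d =>
  frc (R.b23.t pzero W Z T M Q X) fun B23a => frc (R.b23.t pzero W Z0 T0 M Q X) fun B23b =>
  frc (S.b23.s pzero pzero pzero W W pzero Z Z0 D1 T T0 D1 M Q X) fun B23d =>
  frc (pnorm (pmul U (v1_b1c.t RH T Q X))) fun UB =>
  frc (pnorm (pmul UB (pneg T))) fun B13a => frc (pnorm (pmul UB (piv (prat 20 20) 1 20))) fun
      B13d =>
  frc (R.nf.t W T X) fun NFa => frc (R.nf.t W T0 X) fun NFb =>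
  frc (S.nf.s W W pzero T T0 D1 X) fun NFd =>
  frc (R.bs.t W Z T M Q X) fun BSa => frc (R.bs.t W Z0 T0 M Q X) fun BSb =>
  frc (S.bs.s W W pzero Z Z0 D1 T T0 D1 M Q X) fun BSd =>
  frc (dln.t K12 K23a K13a) fun DLa => frc (dln.t K12 K23b K13b) fun DLb =>
  frc (dln_vvv.s K12 K12 pzero K23a K23b K23d K13a K13b K13d) fun DLd =>
  frc (R.l.t W Z T) fun La => frc (R.l.t W Z0 T0) fun Lb => frc (S.l.s W W pzero Z Z0 D1 T T0 D1)
      fun Ld =>
  frc (R.a.t W Z T) fun Aa => frc (R.a.t W Z0 T0) fun Ab => frc (S.a.s W W pzero Z Z0 D1 T T0 D1)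
      fun Ad =>
  frc (R.b.t W Z T) fun Ba => frc (R.b.t W Z0 T0) fun Bb => frc (S.b.s W W pzero Z Z0 D1 T T0 D1)
      fun Bd =>
  frc (R.gm.t W Z T K12 K23a K13a) fun GMa => frc (R.gm.t W Z0 T0 K12 K23b K13b) fun GMb =>
  frc (S.gm.s W W pzero Z Z0 D1 T T0 D1 K12 K12 pzero K23a K23b K23d K13a K13b K13d) fun GMd =>
  frc (shf.t Q La) fun Ha => frc (shf.t Q Lb) fun Hb => frc (shf_cv.s Q La Lb Ld) fun Hd =>
  frc (dsf.t DLa Ha) fun DSa => frc (dsf.t DLb Hb) fun DSb =>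
  frc (dsf_zv.s DLa DLb DLd Ha Hb Hd) fun DSd => frc (gpf_cvv.s Q NFa NFb NFd GMa GMb GMd) fun
      GPd =>
  frc (S.v1.s W W pzero Z Z0 D1 T T0 D1 Q X B12 B12 pzero B23a B23b B23d B13a pzero B13d) fun
      V1Bd =>
  frc (S.v2.s W W pzero Z Z0 D1 T T0 D1 Q X B12 B12 pzero B23a B23b B23d B13a pzero B13d) fun
      V2Bd =>
  frc (bnf_ccvvv.s X M NFa NFb NFd BSa BSb BSd GMa GMb GMd) fun BNd =>
  tst (lvs true cc I pzero V1Bd pzero V2Bd pzero) (lgs true cc I pzero V1Bd pzero V2Bd NFd)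
    (los true cc I pzero V1Bd pzero V2Bd NFd (pmul NFd (m2f.t M La))
      (psub (padd (brf_cccvvvvvv.s X Q M La Lb Ld (pnorm (psub Aa Ba)) (pnorm (psub Ab Bb))
          (pnorm (psub Ad Bd)) NFa NFb NFd GMa GMb GMd DSa DSb DSd BSa BSb BSd)
        (pmul (nb.t SG Q X) (m2f_cv.s M La Lb Ld))) (abf.t X M La Aa Ba DSd GPd)))
    k s X Q M La Aa Ba BNd BSd DSd GPd)

/-- second direct leaf: `c` is a lower bound of `- t / r` -/
noncomputable def dsT (R : RowF) (nh : Fn1) (u : Bool) (c k s W Z M Q : ℕ) : Bool :=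
  band (Nat.ble 1 c)
  (dval R W Z M Q fun U NU NF BS L A B GM DS GP V1A V1B V2A V2B BN =>
    band (pnn (psub (pscale 400 27 (psq U)) (pnat c pone)))
    (frc (pnorm (pmul M Q)) fun X => frc (nh.t X) fun NH => frc (pnorm (padd (pnat c NH) GM)) fun
        G =>
    frc pone fun O =>
    Bool.rec (motive := fun _ => Bool)
      (band (sgS s DS (ouS M O M L B A (pneg DS) G) (ouS M O M L A B DS G))
        (los u c pzero V1A V1B V2A V2B NH (pmul NH (m2f.t M L))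
          (psub (brf.t X Q M L (pnorm (psub A B)) NF GM DS BS) (v1_abg.t X M L A B DS G))))
      (band u (sgS s DS (inS (fun F0 => lv0 F0 V1B V2B) X O M L B A BN (pneg DS) G)
        (inS (fun F0 => lv0 F0 V1B V2B) X O M L A B BN DS G))) (Nat.beq k 0)))

/-- exit: the point is beyond the cell -/
noncomputable def exV (R : RowF) (W Z M Q : ℕ) : Bool :=
  frc (pnorm (padd W Z)) fun T =>
  ppos (psub (pnat 20 (pmul Q (R.u.t W Z M Q))) (pnat 3 (psub (v1_rhv.t T Q) (pmul Q (xi1.t T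
      Q)))))

/-- `w = - N`, `z = N p` -/
noncomputable def polnp (f : ℕ → ℕ → ℕ → ℕ → Bool) (A B : ℕ) : Bool :=
  frc (pneg A) fun W => frc (pnorm (pmul A B)) fun Z => frc (pneg pone) fun W' => f W W' Z B

noncomputable def B1f (h W Wd Z Zd M Q : ℕ) : Bool :=
  body (fun c k s => dirT Rf true c k s W Z M Q)
    (fun c k s => vsT Sf Gf nbf 167 50 c k s W Wd Z Zd M Q)
    (fun c k s => conT Sf true c k s W Wd Z Zd M Q)
    (fun _ _ _ => lwT Sf W Z M Q)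
    (exits false (exV Rf W Z M Q) false)
    (fun _ a b => dsT Xf v1_nhf true b (Nat.mod a 4) (Nat.div a 4) W Z M Q) h

noncomputable def T1f : ℕ → ℕ → ℕ → ℕ → Bool := ch1 polnp B1f

noncomputable def B2f (h W Wd Z Zd M Q : ℕ) : Bool :=
  body (fun c k s => dirT Rf false c k s W Z M Q) noF noF noF
    (exits false (exV Rf W Z M Q) false)
    (fun _ a b => dsT Xf v1_nhf false b (Nat.mod a 4) (Nat.div a 4) W Z M Q) h

noncomputable def T2f : ℕ → ℕ → ℕ → ℕ → Bool := ch2 polnp B2f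

noncomputable def B1n (h W Wd Z Zd M Q : ℕ) : Bool :=
  body (fun c k s => dirT Rn true c k s W Z M Q)
    (fun c k s => vsT Sn Gn nbn 1 1 c k s W Wd Z Zd M Q)
    (fun c k s => conT Sn true c k s W Wd Z Zd M Q)
    (fun _ _ _ => lwT Sn W Z M Q)
    (exits false (exV Rn W Z M Q) false)
    (fun _ a b => dsT Xn v1_nhn true b (Nat.mod a 4) (Nat.div a 4) W Z M Q) h

noncomputable def T1n : ℕ → ℕ → ℕ → ℕ → Bool := ch1 polnp B1n

noncomputable def B2n (h W Wd Z Zd M Q : ℕ) : Bool :=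
  body (fun c k s => dirT Rn false c k s W Z M Q) noF noF noF
    (exits false (exV Rn W Z M Q) false)
    (fun _ a b => dsT Xn v1_nhn false b (Nat.mod a 4) (Nat.div a 4) W Z M Q) h

noncomputable def T2n : ℕ → ℕ → ℕ → ℕ → Bool := ch2 polnp B2n

end Pool.Agent.Strip051.LC.E1.V1
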