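import Pool.Agent.Strip051.LC.E1.V1.Th

/-! # Rests near the full period: the row between `W` and `1.15`, the rotated lattice triangle -/

set_option linter.unusedVariables false
set_option linter.unusedSimpArgs false

namespace Pool.Agent.Strip051.LC.E1.V1

open Pool.Agent.Strip051.PB
open Pool.Agent.Strip051.LC.E1.Ch
open Pool.Agent.Strip051.LC.E1.V0
open Pool.Agent.Strip051.LC.E1.BaseR
open Pool.Agent.Strip051.LC.E0.BaseP (x_xi1)
open Pool.Agent.Strip051.LC.E1.G (hg)

theorem sv_val (w r : ℝ) : v1_sv.v w r = -E0.G.sg1 w r := by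
  simp only [v1_sv, dd1_val]
  rw [sg1_D]
  push_cast
  ring

theorem t0_val (s r : ℝ) : v1_t0.v s r = -2 * (r * E0.G.om s r) := by
  simp only [v1_t0, om_val]
  push_cast
  ring

theorem ut_val (w z t r : ℝ) : v1_ut.v w z t r = E0.G.xi1 w r - E0.G.xi1 z r - E0.G.xi1 t r := by
  simp only [v1_ut, xi1_val]

section

variable {w m r s : ℝ} (H : Hc r m w) (hw : w < 0) (hs : s = -E0.G.sg1 w r)

include H hw hs

theorem s_pos : 0 < s := by
  have h := (D1_b H).1
  rw [hs, sg1_D]
  have : 0 < -w * (1 / 2 + D1 w r) := mul_pos (by linarith) (by linarith)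
  linarith

theorem s_le : s ≤ 9 / 4 * -w := by
  have h := (D1_b H).2
  rw [hs, sg1_D]
  have : -w * (1 / 2 + D1 w r) ≤ -w * (9 / 4) := mul_le_mul_of_nonneg_left (by linarith) (by linarith)
  linarith

theorem w_le : -w ≤ 2 * s := by
  have h := (D1_b H).1
  rw [hs, sg1_D]
  have : -w * (1 / 2) ≤ -w * (1 / 2 + D1 w r) := mul_le_mul_of_nonneg_left (by linarith) (by linarith)
  linarith

/-- The first coordinate. -/
theorem w_s (hr1 : r * s ≤ 1 / 16) : w = -(s / 2) - r * E0.G.om s r := by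
  have r0 := H.r0
  have s0 := s_pos H hw hs
  have h1 := abs_le.1 H.a
  have h2 : 3 / 4 * (1 + r * w) ^ 2 ≤ 1 := by nlinarith
  have h3 := x_xi1 (x := r) (z := w) h2
  have hc : E0.G.cc1 w r ^ 2 = 1 - 3 / 4 * (1 + r * w) ^ 2 := Real.sq_sqrt (by linarith)
  have hc0 := cc1_ge H
  have hrs : r * s = E0.G.cc1 w r - 1 / 2 - r * w / 2 := by
    rw [hs]
    unfold E0.G.sg1
    linear_combination h3
  have hq : E0.G.qw s r = E0.G.cc1 w r / 2 + 3 / 4 * (1 + r * w) := by
    unfold E0.G.qw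
    refine (Real.sqrt_eq_iff_mul_self_eq ?_ (by linarith)).2 ?_
    · have h5 : 0 ≤ r * s := by positivity
      nlinarith
    · have e : r ^ 2 * s ^ 2 = (E0.G.cc1 w r - 1 / 2 - r * w / 2) ^ 2 := by rw [← hrs]; ring
      linear_combination (-(3 / 4 : ℝ)) * e - hc
  have h6 := rrom r0 s0.le hr1
  have h7 : r * (w + s / 2 + r * E0.G.om s r) = 0 := by
    linear_combination h6 - hq + (1 / 2) * hrs
  rcases mul_eq_zero.1 h7 with h8 | h8
  · exact absurd h8 r0.ne'
  · linarith

end

section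

variable {m r s : ℝ} (hr : 0 < r) (hs : 0 < s) (hrs : r * s ≤ 1 / 16)

include hr hs hrs

/-- The circle of radius `√3` passes through the base point. -/
theorem y_t0 : G.x3v (-2 * (r * E0.G.om s r)) r = 3 / 2 * s := by
  have h1 := om_mul hr hs.le hrs
  have h2 := rrom hr hs.le hrs
  unfold G.x3v
  refine (Real.sqrt_eq_iff_mul_self_eq ?_ (by linarith)).2 ?_
  · have e : -(3 * (-2 * (r * E0.G.om s r)) / r) - 3 / 4 * (-2 * (r * E0.G.om s r)) ^ 2 =
        3 / 2 * s * (3 / 2 * s) := by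
      field_simp
      linear_combination 16 * h1 - 16 * E0.G.om s r * h2
    rw [e]
    positivity
  · field_simp
    linear_combination 16 * h1 - 16 * E0.G.om s r * h2

theorem om_le : E0.G.om s r ≤ 16 / 41 * s ^ 2 := by
  have h1 := om_mul hr hs.le hrs
  have h2 := qw_ge hr hs.le hrs
  have h3 : 0 ≤ E0.G.om s r := om_nn hr hs.le hrs
  nlinarith

theorem om_pos : 0 < E0.G.om s r := by
  have h2 := qw_ge hr hs.le hrs
  unfold E0.G.om
  positivity

end

end Pool.Agent.Strip051.LC.E1.V1
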