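import Pool.Agent.Strip051.LC.E1.V1.Dx

/-! # Rests near the full period: the row between `W` and `1.15`, slopes of the unit kernels -/

set_option linter.unusedVariables false
set_option linter.unusedSimpArgs false
set_option maxRecDepth 100000

namespace Pool.Agent.Strip051.LC.E1.V1

open Pool.Agent.Strip051.PB
open Pool.Agent.Strip051.LC.E1.Ch
open Pool.Agent.Strip051.LC.E1.V0
open Pool.Agent.Strip051.LC.E0.Ch (onCell Tree)
open Pool.Agent.Strip051.LC.E1.G (hg)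

section

attribute [local irreducible] padd psub pneg pmul psq pinv psqrt psqrtg pabs pps pmax pmin pphi plam
  pcase phf pnat prat pscale pnorm pdc pnc pone ppos pnn Enc

noncomputable def v1_p1 : Fn2 := ⟨_, _, fun h1 h2 => enc_add (enc_rat _ 605 100) (prf.enc h2)⟩
noncomputable def v1_p2 : Fn2 := ⟨_, _, fun h1 h2 => enc_sub (enc_neg (enc_rat _ 55 10)) (prf.enc h2)⟩
noncomputable def v1_e1 : Fn2 := ⟨_, _, fun h1 h2 => enc_sub (eh.enc h2) (enc_rat _ 92 100)⟩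
noncomputable def v1_e2 : Fn2 := ⟨_, _, fun h1 h2 => enc_sub (enc_rat _ 1001 1000) (eh.enc h2)⟩
noncomputable def v1_b1 : Fn2 := ⟨_, _, fun h1 h2 => enc_sub (b0f.enc h2) (enc_rat _ 99 200)⟩
noncomputable def v1_b2 : Fn2 := ⟨_, _, fun h1 h2 => enc_sub (enc_rat _ 51 100) (b0f.enc h2)⟩
noncomputable def v1_q1 : Fn2 := ⟨_, _, fun h1 h2 => enc_add (enc_rat _ 76 100) (pbf.enc h2)⟩
noncomputable def v1_q2 : Fn2 := ⟨_, _, fun h1 h2 => enc_sub (enc_neg (enc_rat _ 68 100)) (pbf.enc h2)⟩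

end

theorem tp1 : Tree 0 0 0 0 0 26843546 (tnn v1_p1) := ⟨.l 0, by decide +kernel⟩
theorem tp2 : Tree 0 0 0 0 0 26843546 (tnn v1_p2) := ⟨.l 0, by decide +kernel⟩
theorem te1 : Tree 0 0 0 0 0 26843546 (tnn v1_e1) := ⟨.l 0, by decide +kernel⟩
theorem te2 : Tree 0 0 0 0 0 26843546 (tnn v1_e2) := ⟨.l 0, by decide +kernel⟩
theorem tb1 : Tree 0 0 0 0 0 26843546 (tnn v1_b1) := ⟨.l 0, by decide +kernel⟩
theorem tb2 : Tree 0 0 0 0 0 26843546 (tnn v1_b2) := ⟨.l 0, by decide +kernel⟩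
theorem tq1 : Tree 0 0 0 0 0 26843546 (tnn v1_q1) := ⟨.l 0, by decide +kernel⟩
theorem tq2 : Tree 0 0 0 0 0 26843546 (tnn v1_q2) := ⟨.l 0, by decide +kernel⟩

/-- The numbers in the slopes of the unit kernels. -/
theorem num_b {e : ℝ} (h0 : 0 ≤ e) (h1 : e ≤ 1 / 40) :
    (-(605 / 100) ≤ G.pK e ∧ G.pK e ≤ -(55 / 10)) ∧ (92 / 100 ≤ G.eh e ∧ G.eh e ≤ 1001 / 1000) ∧
      (99 / 200 ≤ G.B0 e ∧ G.B0 e ≤ 51 / 100) ∧ (-(76 / 100) ≤ G.pB e ∧ G.pB e ≤ -(68 / 100)) := by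
  have k : ∀ F : Fn2, Tree 0 0 0 0 0 26843546 (tnn F) → 0 ≤ F.v 0 e := fun F t =>
    tnn_sound t (a := 0) (b := 0) (by norm_num) (by norm_num) (w := 0) le_rfl le_rfl h0 h1
  have a1 := k _ tp1
  have a2 := k _ tp2
  have a3 := k _ te1
  have a4 := k _ te2
  have a5 := k _ tb1
  have a6 := k _ tb2
  have a7 := k _ tq1
  have a8 := k _ tq2
  simp only [v1_p1, v1_p2, v1_e1, v1_e2, v1_b1, v1_b2, v1_q1, v1_q2, prf_val, eh_val, b0f_val,
    pbf_val] at a1 a2 a3 a4 a5 a6 a7 a8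
  push_cast at a1 a2 a3 a4 a5 a6 a7 a8
  refine ⟨⟨?_, ?_⟩, ⟨?_, ?_⟩, ⟨?_, ?_⟩, ⟨?_, ?_⟩⟩ <;> linarith

theorem sh_lo : 8660 / 10000 ≤ Real.sqrt 3 / 2 := by
  have h : 1732 / 1000 ≤ Real.sqrt 3 := Real.le_sqrt_of_sq_le (by norm_num)
  linarith

theorem sh_up : Real.sqrt 3 / 2 ≤ 8661 / 10000 := by
  have h : Real.sqrt 3 ≤ 17321 / 10000 := by
    rw [Real.sqrt_le_iff]
    constructor <;> norm_num
  linarith

/-! ### Piecewise linear functions -/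

/-- The unit kernel for moderate arguments, with the slopes `a1` - `a5`. -/
noncomputable def pl (a1 a2 a3 a4 a5 m t : ℝ) : ℝ :=
  a1 * t + (a2 - a1) * hg (t - m) + (a3 - a2) * hg (t - 8 / 5 * m) +
    (a4 - a3) * hg (t - 11 / 5 * m) + (a5 - a4) * hg (t - 5 / 2 * m)

section

variable {a1 a2 a3 a4 a5 m t c : ℝ}

theorem lin_nn {α β a b t : ℝ} (ha : 0 ≤ α + β * a) (hb : 0 ≤ α + β * b) (h1 : a ≤ t)
    (h2 : t ≤ b) : 0 ≤ α + β * t := by
  rcases le_total 0 β with h | h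
  · have := mul_le_mul_of_nonneg_left h1 h
    linarith
  · have := mul_le_mul_of_nonpos_left h2 h
    linarith

theorem pl_ge (hm : 0 < m) (ht : 0 ≤ t) (n1 : c ≤ a1) (n2 : c * (8 / 5) ≤ a1 + a2 * (3 / 5))
    (n3 : c * (11 / 5) ≤ a1 + a2 * (3 / 5) + a3 * (3 / 5))
    (n4 : c * (5 / 2) ≤ a1 + a2 * (3 / 5) + a3 * (3 / 5) + a4 * (3 / 10)) (n5 : c ≤ a5) :
    c * t ≤ pl a1 a2 a3 a4 a5 m t := by
  unfold pl
  have k1 : 0 ≤ (a1 - c) * m := mul_nonneg (by linarith) hm.le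
  have k2 : 0 ≤ (a1 + a2 * (3 / 5) - c * (8 / 5)) * m := mul_nonneg (by linarith) hm.le
  have k3 : 0 ≤ (a1 + a2 * (3 / 5) + a3 * (3 / 5) - c * (11 / 5)) * m :=
    mul_nonneg (by linarith) hm.le
  have k4 : 0 ≤ (a1 + a2 * (3 / 5) + a3 * (3 / 5) + a4 * (3 / 10) - c * (5 / 2)) * m :=
    mul_nonneg (by linarith) hm.le
  rcases le_or_gt t m with g1 | g1
  · rw [hg_le (by linarith : t - m ≤ 0), hg_le (by linarith : t - 8 / 5 * m ≤ 0),
      hg_le (by linarith : t - 11 / 5 * m ≤ 0), hg_le (by linarith : t - 5 / 2 * m ≤ 0)]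
    have := mul_nonneg (by linarith : 0 ≤ a1 - c) ht
    linarith
  rcases le_or_gt t (8 / 5 * m) with g2 | g2
  · rw [hg_ge (by linarith : 0 ≤ t - m), hg_le (by linarith : t - 8 / 5 * m ≤ 0),
      hg_le (by linarith : t - 11 / 5 * m ≤ 0), hg_le (by linarith : t - 5 / 2 * m ≤ 0)]
    have := lin_nn (α := -(a2 - a1) * m) (β := a2 - c) (a := m) (b := 8 / 5 * m) (t := t)
      (by linarith) (by linarith) g1.le g2
    linarith
  rcases le_or_gt t (11 / 5 * m) with g3 | g3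
  · rw [hg_ge (by linarith : 0 ≤ t - m), hg_ge (by linarith : 0 ≤ t - 8 / 5 * m),
      hg_le (by linarith : t - 11 / 5 * m ≤ 0), hg_le (by linarith : t - 5 / 2 * m ≤ 0)]
    have := lin_nn (α := -(a2 - a1) * m - (a3 - a2) * (8 / 5 * m)) (β := a3 - c)
      (a := 8 / 5 * m) (b := 11 / 5 * m) (t := t) (by linarith) (by linarith) g2.le g3
    linarith
  rcases le_or_gt t (5 / 2 * m) with g4 | g4
  · rw [hg_ge (by linarith : 0 ≤ t - m), hg_ge (by linarith : 0 ≤ t - 8 / 5 * m),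
      hg_ge (by linarith : 0 ≤ t - 11 / 5 * m), hg_le (by linarith : t - 5 / 2 * m ≤ 0)]
    have := lin_nn (α := -(a2 - a1) * m - (a3 - a2) * (8 / 5 * m) - (a4 - a3) * (11 / 5 * m))
      (β := a4 - c) (a := 11 / 5 * m) (b := 5 / 2 * m) (t := t) (by linarith) (by linarith)
      g3.le g4
    linarith
  · rw [hg_ge (by linarith : 0 ≤ t - m), hg_ge (by linarith : 0 ≤ t - 8 / 5 * m),
      hg_ge (by linarith : 0 ≤ t - 11 / 5 * m), hg_ge (by linarith : 0 ≤ t - 5 / 2 * m)]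
    have := mul_nonneg (by linarith : 0 ≤ a5 - c) (by linarith : 0 ≤ t - 5 / 2 * m)
    linarith

theorem pl_neg : pl (-a1) (-a2) (-a3) (-a4) (-a5) m t = -pl a1 a2 a3 a4 a5 m t := by
  unfold pl
  ring

theorem pl_le (hm : 0 < m) (ht : 0 ≤ t) (n1 : a1 ≤ c) (n2 : a1 + a2 * (3 / 5) ≤ c * (8 / 5))
    (n3 : a1 + a2 * (3 / 5) + a3 * (3 / 5) ≤ c * (11 / 5))
    (n4 : a1 + a2 * (3 / 5) + a3 * (3 / 5) + a4 * (3 / 10) ≤ c * (5 / 2)) (n5 : a5 ≤ c) :
    pl a1 a2 a3 a4 a5 m t ≤ c * t := by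
  have := pl_ge (a1 := -a1) (a2 := -a2) (a3 := -a3) (a4 := -a4) (a5 := -a5) (c := -c) hm ht
    (by linarith) (by linarith) (by linarith) (by linarith) (by linarith)
  rw [pl_neg] at this
  linarith

theorem pl_1 (hm : 0 < m) (h : t ≤ m) : pl a1 a2 a3 a4 a5 m t = a1 * t := by
  unfold pl
  rw [hg_le (by linarith : t - m ≤ 0), hg_le (by linarith : t - 8 / 5 * m ≤ 0),
    hg_le (by linarith : t - 11 / 5 * m ≤ 0), hg_le (by linarith : t - 5 / 2 * m ≤ 0)]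
  ring

theorem pl_5 (hm : 0 < m) (h : 5 / 2 * m ≤ t)
    (n4 : a1 + a2 * (3 / 5) + a3 * (3 / 5) + a4 * (3 / 10) = a5 * (5 / 2)) :
    pl a1 a2 a3 a4 a5 m t = a5 * t := by
  unfold pl
  rw [hg_ge (by linarith : 0 ≤ t - m), hg_ge (by linarith : 0 ≤ t - 8 / 5 * m),
    hg_ge (by linarith : 0 ≤ t - 11 / 5 * m), hg_ge (by linarith : 0 ≤ t - 5 / 2 * m)]
  linear_combination m * n4

end

/-! ### The unit kernels -/

section

variable {r m t : ℝ}

theorem uR_pl (k0 v m' p f f' E : ℝ) (hr : 0 < r) (h : r * (Real.sqrt 3 / 2 * t) ≤ 1 / 16) :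
    G.uR k0 v m' p f f' E r m t = pl (G.u1 k0 v) (G.u2 k0 v m' p E) (G.u3 k0 m')
      (G.u4 k0 m' p (G.u5 k0 f) E) (G.u5 k0 f) m t := by
  unfold G.uR
  rw [hgz (a := 1) (b := 16) hr (by norm_num) h,
    hgz (a := 1) (b := 10) hr (by norm_num) (by linarith)]
  unfold pl
  ring

theorem kU'_of (hr : 0 < r) (h : r * (Real.sqrt 3 / 2 * t) ≤ 1 / 16) :
    G.kU' r m t = G.kU r m t := by
  unfold G.kU'
  rw [hgz (a := 1) (b := 5) hr (by norm_num) (by linarith)]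
  ring

theorem bU'_of (hr : 0 < r) (h : r * (Real.sqrt 3 / 2 * t) ≤ 1 / 16) :
    G.bU' r m t = G.bU r m t := by
  unfold G.bU'
  rw [hgz (a := 1) (b := 5) hr (by norm_num) (by linarith)]
  ring

theorem pin_2 (k0 v m' p E : ℝ) :
    G.u1 k0 v + G.u2 k0 v m' p E * (3 / 5) = p + G.u3 k0 m' * (3 / 5 - E) := by
  unfold G.u2
  ring

theorem pin_4 (k0 m' p s E : ℝ) :
    p + G.u3 k0 m' * (3 / 5 - E) + G.u3 k0 m' * (3 / 5) + G.u4 k0 m' p s E * (3 / 10) =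
      s * (5 / 2) := by
  unfold G.u4
  ring

/-- The first unit kernel. -/
theorem kU_b (hr : 0 < r) (hm : 0 < m) (x1 : m * r ≤ 1 / 40) (ht : 0 ≤ t)
    (h : r * (Real.sqrt 3 / 2 * t) ≤ 1 / 16) :
    G.u5 1 (-(1589 / 12500)) * t ≤ G.kU r m t ∧ G.kU r m t ≤ G.u1 1 (-(9997 / 50000)) * t ∧
      (5 / 2 * m ≤ t → G.kU r m t = G.u5 1 (-(1589 / 12500)) * t) := by
  obtain ⟨⟨p1, p2⟩, ⟨e1, e2⟩, _, _⟩ := num_b (mul_pos hm hr).le x1
  have s1 := sh_lo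
  have s2 := sh_up
  have u1 : G.u1 1 (-(9997 / 50000)) = -(109997 / 50000) * (Real.sqrt 3 / 2) := by
    unfold G.u1
    ring
  have u5 : G.u5 1 (-(1589 / 12500)) = -(12606 / 3125) * (Real.sqrt 3 / 2) := by
    unfold G.u5
    ring
  have u3 : G.u3 1 (-(359209 / 100000)) = -(559209 / 100000) * (Real.sqrt 3 / 2) := by
    unfold G.u3
    ring
  have q2 := pin_2 1 (-(9997 / 50000)) (-(359209 / 100000)) (G.pK (m * r)) (G.eh (m * r))
  have q4 := pin_4 1 (-(359209 / 100000)) (G.pK (m * r)) (G.u5 1 (-(1589 / 12500)))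
    (G.eh (m * r))
  have c3 : -(485 / 100) ≤ G.u3 1 (-(359209 / 100000)) ∧
      G.u3 1 (-(359209 / 100000)) ≤ -(484 / 100) := by
    rw [u3]
    constructor <;> linarith
  have c1 : -(191 / 100) ≤ G.u1 1 (-(9997 / 50000)) ∧ G.u1 1 (-(9997 / 50000)) ≤ -(19 / 10) := by
    rw [u1]
    constructor <;> linarith
  have c5 : -(35 / 10) ≤ G.u5 1 (-(1589 / 12500)) ∧ G.u5 1 (-(1589 / 12500)) ≤ -(349 / 100) := by
    rw [u5]
    constructor <;> linarith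
  have d1 : -(485 / 100) * (3 / 5 - G.eh (m * r)) ≥ G.u3 1 (-(359209 / 100000)) *
      (3 / 5 - G.eh (m * r)) := by
    have := mul_le_mul_of_nonpos_right c3.1 (by linarith : 3 / 5 - G.eh (m * r) ≤ 0)
    linarith
  have d2 : -(484 / 100) * (3 / 5 - G.eh (m * r)) ≤ G.u3 1 (-(359209 / 100000)) *
      (3 / 5 - G.eh (m * r)) := by
    have := mul_le_mul_of_nonpos_right c3.2 (by linarith : 3 / 5 - G.eh (m * r) ≤ 0)
    linarith
  unfold G.kU
  rw [uR_pl _ _ _ _ _ _ _ hr h]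
  refine ⟨pl_ge hm ht (by linarith) ?_ ?_ ?_ le_rfl, pl_le hm ht le_rfl ?_ ?_ ?_ (by linarith),
    fun h5 => pl_5 hm h5 ?_⟩ <;> rw [q2]
  · linarith
  · linarith
  · linarith
  · linarith
  · linarith
  · linarith
  · linarith

/-- The second unit kernel. -/
theorem bU_b (hr : 0 < r) (hm : 0 < m) (x1 : m * r ≤ 1 / 40) (ht : 0 ≤ t)
    (h : r * (Real.sqrt 3 / 2 * t) ≤ 1 / 16) :
    -(12 / 10) * t ≤ G.bU r m t ∧ G.bU r m t ≤ 56 / 10 * t ∧
      (5 / 2 * m ≤ t → 55 / 10 * t ≤ G.bU r m t) := by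
  obtain ⟨_, ⟨e1, e2⟩, ⟨b1, b2⟩, ⟨p1, p2⟩⟩ := num_b (mul_pos hm hr).le x1
  have s1 := sh_lo
  have s2 := sh_up
  have m1 : (2 * G.B0 (m * r) - 99 / 100) * (8660 / 10000) ≤
      (2 * G.B0 (m * r) - 99 / 100) * (Real.sqrt 3 / 2) :=
    mul_le_mul_of_nonneg_left s1 (by linarith)
  have m2 : (2 * G.B0 (m * r) - 99 / 100) * (Real.sqrt 3 / 2) ≤
      (2 * G.B0 (m * r) - 99 / 100) * (8661 / 10000) :=
    mul_le_mul_of_nonneg_left s2 (by linarith)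
  have c1 : -(1 / 10) ≤ G.u1 (G.B0 (m * r)) (18757 / 20000) ∧
      G.u1 (G.B0 (m * r)) (18757 / 20000) ≤ 0 := by
    unfold G.u1
    constructor <;> linarith
  have c3 : -(575 / 100) ≤ G.u3 (G.B0 (m * r)) (-(280683 / 50000)) ∧
      G.u3 (G.B0 (m * r)) (-(280683 / 50000)) ≤ -(571 / 100) := by
    unfold G.u3
    constructor <;> linarith
  have c5 : 553 / 100 ≤ G.u5 (G.B0 (m * r)) (23151 / 50000) ∧
      G.u5 (G.B0 (m * r)) (23151 / 50000) ≤ 556 / 100 := by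
    unfold G.u5
    constructor <;> linarith
  have q2 := pin_2 (G.B0 (m * r)) (18757 / 20000) (-(280683 / 50000)) (G.pB (m * r))
    (G.eh (m * r))
  have q4 := pin_4 (G.B0 (m * r)) (-(280683 / 50000)) (G.pB (m * r))
    (G.u5 (G.B0 (m * r)) (23151 / 50000)) (G.eh (m * r))
  have d1 : -(575 / 100) * (3 / 5 - G.eh (m * r)) ≥ G.u3 (G.B0 (m * r)) (-(280683 / 50000)) *
      (3 / 5 - G.eh (m * r)) := by
    have := mul_le_mul_of_nonpos_right c3.1 (by linarith : 3 / 5 - G.eh (m * r) ≤ 0)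
    linarith
  have d2 : -(571 / 100) * (3 / 5 - G.eh (m * r)) ≤ G.u3 (G.B0 (m * r)) (-(280683 / 50000)) *
      (3 / 5 - G.eh (m * r)) := by
    have := mul_le_mul_of_nonpos_right c3.2 (by linarith : 3 / 5 - G.eh (m * r) ≤ 0)
    linarith
  unfold G.bU
  rw [uR_pl _ _ _ _ _ _ _ hr h]
  refine ⟨pl_ge hm ht (by linarith) ?_ ?_ ?_ (by linarith),
    pl_le hm ht (by linarith) ?_ ?_ ?_ (by linarith), fun h5 => ?_⟩
  · rw [q2]; linarith
  · rw [q2]; linarith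
  · rw [q2]; linarith
  · rw [q2]; linarith
  · rw [q2]; linarith
  · rw [q2]; linarith
  · rw [pl_5 hm h5 (by rw [q2]; linarith)]
    exact mul_le_mul_of_nonneg_right (by linarith) ht

/-- The slopes of the first unit kernel between far points. -/
theorem thK {s s' : ℝ} (hr : 0 < r) (hm : 0 < m) (x1 : m * r ≤ 1 / 40) (s0 : 0 < s)
    (hs : 577 / 100 * s ≤ s') (h : r * (Real.sqrt 3 / 2 * s') ≤ 1 / 16) :
    (-(39 / 10) * (s' - s) ≤ G.kU r m s' - G.kU r m s ∧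
      G.kU r m s' - G.kU r m s ≤ -(19 / 10) * (s' - s)) ∧
    (11 / 25 * m ≤ s → G.kU r m s' - G.kU r m s ≤ -(34 / 10) * (s' - s)) ∧
    (s' ≤ m → -(191 / 100) * (s' - s) ≤ G.kU r m s' - G.kU r m s) := by
  have s1 := sh_lo
  have s2 := sh_up
  have h' : r * (Real.sqrt 3 / 2 * s) ≤ 1 / 16 := by
    refine le_trans ?_ h
    refine mul_le_mul_of_nonneg_left ?_ hr.le
    exact mul_le_mul_of_nonneg_left (by linarith) (by linarith)
  obtain ⟨a1, a2, a3⟩ := kU_b hr hm x1 (by linarith : 0 ≤ s') h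
  obtain ⟨b1, b2, b3⟩ := kU_b hr hm x1 s0.le h'
  have c1 : -(191 / 100) ≤ G.u1 1 (-(9997 / 50000)) ∧ G.u1 1 (-(9997 / 50000)) ≤ -(19 / 10) := by
    unfold G.u1
    constructor <;> linarith
  have c5 : -(35 / 10) ≤ G.u5 1 (-(1589 / 12500)) ∧ G.u5 1 (-(1589 / 12500)) ≤ -(349 / 100) := by
    unfold G.u5
    constructor <;> linarith
  have d1 := mul_le_mul_of_nonneg_right c1.1 (by linarith : 0 ≤ s' - s)
  have d2 := mul_le_mul_of_nonneg_right c1.2 (by linarith : 0 ≤ s' - s)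
  have d3 := mul_le_mul_of_nonneg_right c5.1 (by linarith : 0 ≤ s' - s)
  have d4 := mul_le_mul_of_nonneg_right c5.2 (by linarith : 0 ≤ s' - s)
  have d5 := mul_le_mul_of_nonneg_right c1.2 s0.le
  have d6 := mul_le_mul_of_nonneg_right c5.1 (by linarith : 0 ≤ s')
  refine ⟨⟨?_, ?_⟩, fun hg => ?_, fun hg => ?_⟩
  · linarith
  · rcases le_total s m with g | g
    · rw [kU_s hr hm x1 g] at b2 ⊢
      linarith
    · have := a3 (by linarith)
      rw [this]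
      linarith
  · have := a3 (by linarith)
    rw [this]
    linarith
  · rw [kU_s hr hm x1 hg, kU_s hr hm x1 (by linarith : s ≤ m)]
    linarith

/-- The slopes of the second unit kernel between far points. -/
theorem thB {s s' : ℝ} (hr : 0 < r) (hm : 0 < m) (x1 : m * r ≤ 1 / 40) (s0 : 0 < s) (sm : s ≤ m)
    (hs : 577 / 100 * s ≤ s') (h : r * (Real.sqrt 3 / 2 * s') ≤ 1 / 16) :
    (-(2 : ℝ) * (s' - s) ≤ G.bU r m s' - G.bU r m s ∧
      G.bU r m s' - G.bU r m s ≤ 8 * (s' - s)) ∧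
    (11 / 25 * m ≤ s → 55 / 10 * (s' - s) ≤ G.bU r m s' - G.bU r m s ∧
      G.bU r m s' - G.bU r m s ≤ 68 / 10 * (s' - s)) ∧
    (s' ≤ m → -(1 / 10) * (s' - s) ≤ G.bU r m s' - G.bU r m s ∧
      G.bU r m s' - G.bU r m s ≤ 0) := by
  obtain ⟨_, _, ⟨b1, b2⟩, _⟩ := num_b (mul_pos hm hr).le x1
  have s1 := sh_lo
  have s2 := sh_up
  obtain ⟨a1, a2, a3⟩ := bU_b hr hm x1 (by linarith : 0 ≤ s') h
  have m1 : (2 * G.B0 (m * r) - 99 / 100) * (8660 / 10000) ≤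
      (2 * G.B0 (m * r) - 99 / 100) * (Real.sqrt 3 / 2) :=
    mul_le_mul_of_nonneg_left s1 (by linarith)
  have m2 : (2 * G.B0 (m * r) - 99 / 100) * (Real.sqrt 3 / 2) ≤
      (2 * G.B0 (m * r) - 99 / 100) * (8661 / 10000) :=
    mul_le_mul_of_nonneg_left s2 (by linarith)
  have c1 : -(1 / 10) ≤ G.u1 (G.B0 (m * r)) (18757 / 20000) ∧
      G.u1 (G.B0 (m * r)) (18757 / 20000) ≤ 0 := by
    unfold G.u1
    constructor <;> linarith
  have d1 := mul_le_mul_of_nonneg_right c1.1 s0.le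
  have d2 := mul_le_mul_of_nonneg_right c1.2 s0.le
  have d3 := mul_le_mul_of_nonneg_right c1.1 (by linarith : 0 ≤ s' - s)
  have d4 := mul_le_mul_of_nonneg_right c1.2 (by linarith : 0 ≤ s' - s)
  rw [bU_s hr hm x1 sm]
  refine ⟨⟨?_, ?_⟩, fun hg => ⟨?_, ?_⟩, fun hg => ⟨?_, ?_⟩⟩
  · linarith
  · linarith
  · have := a3 (by linarith)
    linarith
  · linarith
  · rw [bU_s hr hm x1 hg]
    linarith
  · rw [bU_s hr hm x1 hg]
    linarith

end

end Pool.Agent.Strip051.LC.E1.V1
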