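import Pool.Agent.Strip051.LC.E1.V0.Val
import Pool.Agent.Strip051.LC.E1.V1.Rw

/-! # Rests near the full period: the row between `W` and `1.15`, values -/

set_option linter.unusedVariables false
set_option linter.unusedSimpArgs false

namespace Pool.Agent.Strip051.LC.E1.V1

open Pool.Agent.Strip051.PB
open Pool.Agent.Strip051.LC.E1.Ch
open Pool.Agent.Strip051.LC.E1.V0
open Pool.Agent.Strip051.LC.E1.G (hg)

/-! ### The kernels at the circle of radius `√3` -/

section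

variable {r : ℝ} (hr : 0 < r) (s m : ℝ)

include hr

theorem max_r (a : ℝ) : max (r * a) 0 = r * hg a := by
  unfold hg
  rw [mul_max_of_nonneg _ _ hr.le, mul_zero]

theorem mx1 (a : ℝ) : max (r * s - a * (m * r)) 0 = r * hg (s - a * m) := by
  rw [← max_r hr]
  ring_nf

theorem mx0 : max (r * s - m * r) 0 = r * hg (s - m) := by
  rw [← max_r hr]
  ring_nf

theorem mx2 {h a b : ℝ} (hb : 0 < b) : max (h * (r * s) - a / b) 0 = r * hg (h * s - a / (b * r)) := by
  rw [← max_r hr]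
  congr 1
  field_simp

theorem kdk_val : kdk.v (r * s) (m * r) = r * G.kU' r m s := by
  unfold G.kU' G.kU G.uR
  simp only [kdk, kdk_3, kdk_5, kdk_8, kdk_38, u2k, u2k_3, u4k, u4k_2, prf_val, eh_val]
  push_cast
  rw [mx0 hr, mx1 hr, mx1 hr, mx1 hr, mx2 hr _ (by norm_num : (0 : ℝ) < 16),
    mx2 hr _ (by norm_num : (0 : ℝ) < 10), mx2 hr _ (by norm_num : (0 : ℝ) < 5)]
  simp only [G.u1, G.u2, G.u3, G.u4, G.u5, G.u6, G.u7]
  ring

theorem kdb_val : kdb.v (r * s) (m * r) = r * G.bU' r m s := by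
  unfold G.bU' G.bU G.uR
  simp only [kdb, kdb_34, kdb_39, kdb_44, u1b, u2b, u3b, u4b, u5b, pbf_val, eh_val, b0f_val]
  push_cast
  rw [mx0 hr, mx1 hr, mx1 hr, mx1 hr, mx2 hr _ (by norm_num : (0 : ℝ) < 16),
    mx2 hr _ (by norm_num : (0 : ℝ) < 10), mx2 hr _ (by norm_num : (0 : ℝ) < 5)]
  simp only [G.u1, G.u2, G.u3, G.u4, G.u5, G.u6, G.u7]
  ring

end

/-! ### The position of the circle of radius `√3` -/

section

variable {t m r : ℝ}

/-- `3 + 3 / 4 r t`. -/
theorem y_sq (hr : 0 < r) (ht : t < 0) (h : -4 < r * t) :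
    r * G.x3v t r ^ 2 = -t * (3 + 3 / 4 * (r * t)) := by
  unfold G.x3v
  have e : -(3 * t / r) - 3 / 4 * t ^ 2 = -t * (3 + 3 / 4 * (r * t)) / r := by
    field_simp
    ring
  rw [Real.sq_sqrt, e]
  · field_simp
  · rw [e]
    have : 0 < -t := by linarith
    have : 0 < 3 + 3 / 4 * (r * t) := by linarith
    positivity

theorem y_pos (hr : 0 < r) (ht : t < 0) (h : -4 < r * t) : 0 < G.x3v t r := by
  unfold G.x3v
  apply Real.sqrt_pos.2
  have e : -(3 * t / r) - 3 / 4 * t ^ 2 = -t * (3 + 3 / 4 * (r * t)) / r := by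
    field_simp
    ring
  rw [e]
  have : 0 < -t := by linarith
  have : 0 < 3 + 3 / 4 * (r * t) := by linarith
  positivity

theorem rhv_val (hr : 0 < r) (ht : t < 0) (h : -4 < r * t) : v1_rhv.v t r = r * G.x3v t r := by
  simp only [v1_rhv, v1_rhv_2]
  push_cast
  have h1 := y_sq hr ht h
  have h2 := y_pos hr ht h
  rw [show -(r * t * (3 + 3 / 4 * (r * t))) = (r * G.x3v t r) ^ 2 by
    linear_combination (-r) * h1]
  exact Real.sqrt_sq (by positivity)

/-- `v / y`. -/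
theorem vy_val (hr : 0 < r) (ht : t < 0) (h : -4 < r * t) :
    r * G.x3v t r * (3 + 3 / 4 * (r * t))⁻¹ = -t * (G.x3v t r)⁻¹ := by
  have h1 := y_sq hr ht h
  have h2 := (y_pos hr ht h).ne'
  have h3 : (3 + 3 / 4 * (r * t)) ≠ 0 := by
    have : 0 < 3 + 3 / 4 * (r * t) := by linarith
    exact this.ne'
  rw [← div_eq_mul_inv, ← div_eq_mul_inv, div_eq_div_iff h3 h2]
  linear_combination h1

theorem inv_y (a y e : ℝ) (hy : y ≠ 0) : a * y⁻¹ * ((y - e) * y⁻¹)⁻¹ = a / (y - e) := by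
  rw [mul_inv, inv_inv, div_eq_mul_inv]
  field_simp

theorem om_y {V : ℝ} (ht : t < 0) (y : ℝ) : V / -t * (-t * y⁻¹) = V * y⁻¹ := by
  have : -t ≠ 0 := by linarith
  rw [← mul_assoc, div_mul_cancel₀ _ this]

theorem dd_y {y : ℝ} (hy : y ≠ 0) : 1 - D1 t r * (-t * y⁻¹) = (y - E0.G.xi1 t r) * y⁻¹ := by
  rw [xi1_D]
  field_simp

theorem g3k_val (hr : 0 < r) (hm : 0 < m) (ht : t < 0) (h : -4 < r * t) :
    v1_g3k.v (v1_rhv.v t r) t m r (m * r) =
      ((G.C33 r m t).k - (G.W3 r m t).k) / (G.x3v t r - E0.G.xi1 t r) := by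
  have hy := (y_pos hr ht h).ne'
  simp only [v1_g3k, v1_g3k_10, kap, rhv_val hr ht h, om3k_val hm ht, dd1_val]
  push_cast
  rw [vy_val hr ht h, om_y ht, dd_y hy,
    show 2 / 3 * (r * G.x3v t r) = r * (2 / 3 * G.x3v t r) by ring, kdk_val hr]
  unfold G.C33 G.W3
  rw [← inv_y _ _ _ hy]
  congr 1
  rw [sub_mul]
  congr 1
  have : 2 + r * t / 2 ≠ 0 := by
    have : 0 < 2 + r * t / 2 := by linarith
    exact this.ne'
  field_simp

theorem g3b_val (hr : 0 < r) (hm : 0 < m) (ht : t < 0) (h : -4 < r * t) :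
    v1_g3b.v (v1_rhv.v t r) t m r (m * r) =
      ((G.C33 r m t).b - (G.W3 r m t).b) / (G.x3v t r - E0.G.xi1 t r) := by
  have hy := (y_pos hr ht h).ne'
  simp only [v1_g3b, v1_g3b_10, bap, rhv_val hr ht h, om3b_val hm ht, dd1_val, b0f_val]
  push_cast
  rw [vy_val hr ht h, om_y ht, dd_y hy,
    show 2 / 3 * (r * G.x3v t r) = r * (2 / 3 * G.x3v t r) by ring, kdb_val hr]
  unfold G.C33 G.W3
  rw [← inv_y _ _ _ hy]
  congr 1
  rw [sub_mul]
  congr 1
  have : 2 + r * t / 2 ≠ 0 := by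
    have : 0 < 2 + r * t / 2 := by linarith
    exact this.ne'
  field_simp

theorem hdr_val (hr : 0 < r) (ht : t < 0) (h : -4 < r * t) :
    hdr.v (v1_rhv.v t r) t r = -t / (G.x3v t r - E0.G.xi1 t r) := by
  have hy := (y_pos hr ht h).ne'
  simp only [hdr, hdr_8, rhv_val hr ht h, dd1_val]
  push_cast
  rw [vy_val hr ht h, dd_y hy, inv_y _ _ _ hy]

theorem hfr_val (hr : 0 < r) (ht : t < 0) (h : -4 < r * t) :
    hfr.v (v1_rhv.v t r) t r = E0.G.xi1 t r / (G.x3v t r - E0.G.xi1 t r) := by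
  have hy := (y_pos hr ht h).ne'
  simp only [hfr, hfr_10, rhv_val hr ht h, dd1_val]
  push_cast
  rw [vy_val hr ht h, dd_y hy, ← inv_y _ _ _ hy, xi1_D]
  ring

theorem y_gt {m' : ℝ} (H : Hc r m' t) (ht : t < 0) : E0.G.xi1 t r < G.x3v t r := by
  have hr := H.r0
  have h1 := abs_le.1 H.a
  have h2 := D1_b H
  have h3 := y_sq hr ht (by linarith)
  have h4 := y_pos hr ht (by linarith)
  rw [xi1_D]
  by_contra hc
  push Not at hc
  have h5 : 0 < -t := by linarith
  have h6 : G.x3v t r ≤ -t * (7 / 4) := hc.trans (by nlinarith)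
  have h7 : r * G.x3v t r ^ 2 ≤ r * (-t * (7 / 4)) ^ 2 := by
    have := pow_le_pow_left₀ h4.le h6 2
    exact mul_le_mul_of_nonneg_left this hr.le
  rw [h3] at h7
  have h8 : r * (-t * (7 / 4)) ^ 2 = -t * (-(r * t) * (49 / 16)) := by ring
  rw [h8] at h7
  have h9 := le_of_mul_le_mul_left h7 h5
  linarith

theorem b1c_val {m' : ℝ} (H : Hc r m' t) (ht : t < 0) (h : -4 < r * t) (u : ℝ) :
    u * -(v1_b1c.v (v1_rhv.v t r) t r (m * r) * t) = G.v5 r m t *
      (20 / 3 * (u / (G.x3v t r - E0.G.xi1 t r))) := by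
  have hr := H.r0
  have h1 := y_gt H ht
  have e : G.x3v t r - E0.G.xi1 t r ≠ 0 := by
    have : 0 < G.x3v t r - E0.G.xi1 t r := by linarith
    exact this.ne'
  simp only [v1_b1c, v1_cc5, hfr_val hr ht h, lmf_val]
  push_cast
  unfold G.v5 G.xv5
  field_simp
  ring

end

/-! ### The rows -/

section

variable {r lam w z xi : ℝ}

theorem u_val : v1_u.v w z lam r = E0.G.xi1 w r - E0.G.xi1 z r - E0.G.xi1 (w + z) r := by
  simp only [v1_u, xi1_val]

theorem gf (D : Dom .npn r lam w z) (ht : w + z < 0)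
    (e_xi : xi = E0.G.xi1 w r - E0.G.xi1 z r) (h1 : E0.G.xi1 (w + z) r ≤ xi) :
    Good Rf w z lam r
      (RowV .far .npn r lam w z xi 0 (G.C1d r lam w) (-G.C1u r lam z) (G.V1 xi r lam (w + z))) := by
  obtain ⟨H1, H2, H3⟩ := hc_of D
  have h4 : -4 < r * (w + z) := by
    have := (abs_le.1 H3.a).1
    linarith
  have hU : Rf.U w z lam r = xi - E0.G.xi1 (w + z) r := by
    rw [e_xi]
    exact u_val
  have hp : PatF .npn Rf := ⟨rfl, rfl, rfl, rfl⟩
  have hD := dm_of hp D (by rw [hU]; linarith)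
  have hn : Rf.NF w z lam r = -BV.g w z := by
    simp only [RowF.NF, Rf, v0_nff]
    unfold Bs.g BV
    push_cast
    ring
  have hb : Rf.NU w z lam r / r + Rf.BS w z lam r = 0 / r + (((G.x2 w r + G.x2 z r) / 2) +
      ((w + z) * (E0.G.xi1 w r) - w * xi) / 2) := by
    subst e_xi
    simp only [RowF.NU, RowF.BS, Rf, nu0, v0_bsf, xi1_val]
    rw [x2_eq H1, x2_eq H2]
    push_cast
    ring
  have k12 : Rf.K12 w z lam r = (G.C1d r lam w).k := by
    unfold RowF.K12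
    simp only [Rf, k1m_wp]
    rw [k1m_val H1]
  have c12 : Rf.A12 w z lam r / r + Rf.B12 w z lam r = (G.C1d r lam w).c r := by
    unfold RowF.A12 RowF.B12
    simp only [Rf, zr7, l1m_wp]
    rw [cC1d H1]
    push_cast
    ring
  have k23 : Rf.K23 w z lam r = (-G.C1u r lam z).k := by
    unfold RowF.K23
    simp only [Rf, k1p_zn]
    rw [neg_k, k1p_val H2]
  have c23 : Rf.A23 w z lam r / r + Rf.B23 w z lam r = (-G.C1u r lam z).c r := by
    unfold RowF.A23 RowF.B23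
    simp only [Rf, zr7, l1p_zn]
    rw [neg_c, cC1u H2]
    push_cast
    ring
  have k13 : Rf.K13 w z lam r = (G.V1 xi r lam (w + z)).k := by
    unfold RowF.K13
    rw [hU]
    simp only [Rf, tk1v, w3k_val]
    rw [g3k_val D.r0 D.l0 ht h4]
    unfold G.V1 G.W3
    ring
  have c13 : Rf.A13 w z lam r / r + Rf.B13 w z lam r = (G.V1 xi r lam (w + z)).c r := by
    unfold RowF.A13 RowF.B13
    rw [hU]
    simp only [Rf, ta1v, tc1v, xw3_val, qx3_val D.l0 ht]
    rw [hdr_val D.r0 ht h4, b1c_val H3 ht h4]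
    unfold Sv.c G.V1
    have h0 : -(w + z) ≠ 0 := by linarith
    have e : ∀ a c : ℝ, a / -(w + z) * (-(w + z) / c) = a / c := fun a c => by
      rw [div_mul_div_comm, mul_comm a, mul_div_mul_left _ _ h0]
    rw [e]
    push_cast
    ring
  exact far_good hp ⟨rfl, rfl⟩ hD hn hb ⟨k12, k23, k13, c12, c23, c13⟩

theorem gn (D : Dom .npn r lam w z) (ht : w + z < 0)
    (e_xi : xi = E0.G.xi1 w r - E0.G.xi1 z r) (h1 : E0.G.xi1 (w + z) r ≤ xi) :
    Good Rn w z lam r
      (RowV .near .npn r lam w z xi 0 (G.C1d r lam w) (-G.C1u r lam z) (G.V1 xi r lam (w + z))) := by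
  obtain ⟨H1, H2, H3⟩ := hc_of D
  have h4 : -4 < r * (w + z) := by
    have := (abs_le.1 H3.a).1
    linarith
  have hU : Rn.U w z lam r = xi - E0.G.xi1 (w + z) r := by
    rw [e_xi]
    exact u_val
  have hp : PatF .npn Rn := ⟨rfl, rfl, rfl, rfl⟩
  have hD := dm_of hp D (by rw [hU]; linarith)
  have hn : Rn.NF w z lam r = -(G.be (lam * r) * BV.g w z) := by
    simp only [RowF.NF, Rn, v0_nfn, bef_val]
    unfold Bs.g BV
    push_cast
    ring
  have hb : Rn.NU w z lam r / r + Rn.BS w z lam r =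
      (1 + G.LAM (lam * r) * G.mu (lam * r)) * 0 / r +
      ((1 + G.LAM (lam * r) * G.mu (lam * r)) * (((G.x2 w r + G.x2 z r) / 2) +
        ((w + z) * (E0.G.xi1 w r) - w * xi) / 2) +
        G.mu (lam * r) * G.LAM (lam * r) * lam * G.q1 (lam * r) / (2 * G.eh (lam * r)) *
          BV.g w z) := by
    subst e_xi
    simp only [RowF.NU, RowF.BS, Rn, nu0, v0_bsn, bef_val, n1f_val, lmf_val, mu_val',
      qo_val, eh_val, xi1_val]
    rw [x2_eq H1, x2_eq H2]
    unfold Bs.g BV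
    push_cast
    ring
  have k12 : Rn.K12 w z lam r = G.nk (lam * r) (G.C1d r lam w).k (G.C1d r lam w).b := by
    unfold RowF.K12
    simp only [Rn, nk1m_wp, k1m_wp, b1m_wp, nkf_val]
    unfold G.nk
    rw [k1m_val H1, b1m_val H1]
  have c12 : Rn.A12 w z lam r / r + Rn.B12 w z lam r = (G.C1d r lam w).c r := by
    unfold RowF.A12 RowF.B12
    simp only [Rn, zr7, l1m_wp]
    rw [cC1d H1]
    push_cast
    ring
  have k23 : Rn.K23 w z lam r = G.nk (lam * r) (-G.C1u r lam z).k (-G.C1u r lam z).b := by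
    unfold RowF.K23
    simp only [Rn, nk1p_zn, k1p_zn, b1p_zn, nkf_val]
    unfold G.nk
    rw [neg_k, neg_b, k1p_val H2, b1p_val H2]
  have c23 : Rn.A23 w z lam r / r + Rn.B23 w z lam r = (-G.C1u r lam z).c r := by
    unfold RowF.A23 RowF.B23
    simp only [Rn, zr7, l1p_zn]
    rw [neg_c, cC1u H2]
    push_cast
    ring
  have k13 : Rn.K13 w z lam r = G.nk (lam * r) (G.V1 xi r lam (w + z)).k
      (G.V1 xi r lam (w + z)).b := by
    unfold RowF.K13
    rw [hU]
    simp only [Rn, ntk1v, tk1v, tb1v, nkf_val, w3k_val, w3b_val]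
    rw [g3k_val D.r0 D.l0 ht h4, g3b_val D.r0 D.l0 ht h4]
    unfold G.nk G.V1 G.W3
    ring
  have c13 : Rn.A13 w z lam r / r + Rn.B13 w z lam r = (G.V1 xi r lam (w + z)).c r := by
    unfold RowF.A13 RowF.B13
    rw [hU]
    simp only [Rn, ta1v, tc1v, xw3_val, qx3_val D.l0 ht]
    rw [hdr_val D.r0 ht h4, b1c_val H3 ht h4]
    unfold Sv.c G.V1
    have h0 : -(w + z) ≠ 0 := by linarith
    have e : ∀ a c : ℝ, a / -(w + z) * (-(w + z) / c) = a / c := fun a c => by
      rw [div_mul_div_comm, mul_comm a, mul_div_mul_left _ _ h0]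
    rw [e]
    push_cast
    ring
  exact near_goodV hp rfl rfl hD hn hb ⟨k12, k23, k13, c12, c23, c13⟩

end

end Pool.Agent.Strip051.LC.E1.V1
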