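import Pool.Agent.Strip051.LC.E1.V1.Gr
import Pool.Agent.Strip051.LC.E1.V1.Bs
import Pool.Agent.Strip051.LC.E1.Ch.Ph

/-! # Rests near the full period: the row between `W` and `1.15`, the base of the strip leaf -/

set_option linter.unusedVariables false
set_option linter.unusedSimpArgs false

namespace Pool.Agent.Strip051.LC.E1.V1

open Pool.Agent.Strip051.PB
open Pool.Agent.Strip051.LC.E1.Ch
open Pool.Agent.Strip051.LC.E1.V0
open Pool.Agent.Strip051.LC.E1.BaseR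

/-- The third value at the base. -/
noncomputable def kb (F : Gs) (t m r s : ℝ) : ℝ :=
  F.w3.v t m r (m * r) +
    (3 / 2 * s - E0.G.xi1 t r) * F.g3.v (3 / 2 * (r * s)) t m r (m * r)

/-- The base point of the slopes of the strip leaf. -/
structure VB (R : RowF) (F : Gs) (w z t m r s nb k12 b12 : ℝ) : Prop where
  d : dln.v k12 (R.k23.v 0 w z t m r (m * r)) (kb F t m r s) = 0
  nf : R.nf.v w t (m * r) = r * nb
  gm : R.gm.v w z t k12 (R.k23.v 0 w z t m r (m * r)) (kb F t m r s) = -nb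
  bs : ∃ et, 0 ≤ et ∧ R.bs.v w z t m r (m * r) = -nb + et
  l : R.l.v w z t ≠ 0
  v1 : R.v1.v w z t r (m * r) b12 (R.b23.v 0 w z t m r (m * r)) 0 = 0
  v2 : R.v2.v w z t r (m * r) b12 (R.b23.v 0 w z t m r (m * r)) 0 = 0

/-- What is known about the row at the point. -/
structure VR (R : RowF) (F : Gs) (w z m r : ℝ) : Prop where
  u : R.U w z m r = E0.G.xi1 w r - E0.G.xi1 z r - E0.G.xi1 (w + z) r
  k12 : R.K12 w z m r = R.k12.v 0 w z (w + z) m r (m * r)
  k23 : R.K23 w z m r = R.k23.v 0 w z (w + z) m r (m * r)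
  b12 : R.B12 w z m r = R.b12.v 0 w z (w + z) m r (m * r)
  b23 : R.B23 w z m r = R.b23.v 0 w z (w + z) m r (m * r)
  k13 : R.K13 w z m r = F.w3.v (w + z) m r (m * r) +
    R.U w z m r * F.g3.v (r * G.x3v (w + z) r) (w + z) m r (m * r)
  b13 : R.B13 w z m r = R.U w z m r * v1_b1c.v (r * G.x3v (w + z) r) (w + z) r (m * r) * -(w + z)

section

variable {w z m r : ℝ}

theorem vr_f (hr : 0 < r) (ht : w + z < 0) (h : -4 < r * (w + z)) : VR Rf Gf w z m r := by
  refine ⟨u_val, rfl, rfl, rfl, rfl, ?_, ?_⟩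
  · unfold RowF.K13
    simp only [Rf, Gf, tk1v, rhv_val hr ht h]
  · unfold RowF.B13
    simp only [Rf, tc1v, rhv_val hr ht h]
    ring

theorem vr_n (hr : 0 < r) (ht : w + z < 0) (h : -4 < r * (w + z)) : VR Rn Gn w z m r := by
  refine ⟨u_val, rfl, rfl, rfl, rfl, ?_, ?_⟩
  · unfold RowF.K13
    simp only [Rn, Gn, ntk1v, tk1v, tb1v, v1_w3n, v1_g3n, nkf_val, rhv_val hr ht h]
    ring
  · unfold RowF.B13
    simp only [Rn, tc1v, rhv_val hr ht h]
    ring

end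

/-! ### The values at the base -/

section

variable {w t m r s : ℝ} {a : ℕ}

/-- `2 + r t / 2 = 1 + qw`. -/
theorem tz_q (hr : 0 < r) (s0 : 0 ≤ s) (rs : r * s ≤ 1 / 16) :
    2 + r * tz r s / 2 = 1 + E0.G.qw s r := by
  have := rrom hr s0 rs
  unfold tz
  linear_combination (-1 : ℝ) * this

theorem z0_eq (hw : w = -(s / 2) - r * E0.G.om s r) :
    tz r s - w = s / 2 - r * E0.G.om s r := by
  rw [hw]
  unfold tz
  ring

theorem kb_f (hr : 0 < r) (hm : 0 < m) (V : Vg t m r s a) : kb Gf (tz r s) m r s =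
    2 * (3 / 4 * (s * (1 + E0.G.qw s r)⁻¹) * (1 + r * ku.v s m r (m * r))) := by
  have h4 : -4 < r * tz r s := by
    have := (abs_le.1 V.H0.a).1
    linarith
  have s0 := V.s0
  have rs : r * s ≤ 1 / 16 := by have := V.rs; linarith
  have hy := V.yt
  have e1 : 3 / 2 * (r * s) = v1_rhv.v (tz r s) r := by
    rw [rhv_val hr V.t0 h4, hy]
    ring
  have hgt := y_gt V.H0 V.t0
  have hne : G.x3v (tz r s) r - E0.G.xi1 (tz r s) r ≠ 0 := by
    have : 0 < G.x3v (tz r s) r - E0.G.xi1 (tz r s) r := by linarith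
    exact this.ne'
  have e2 : G.x3v (tz r s) r * (1 + r * G.kU' r m (2 / 3 * G.x3v (tz r s) r)) /
      (2 + r * tz r s / 2) = 2 * (3 / 4 * (s * (1 + E0.G.qw s r)⁻¹) *
      (1 + r * ku.v s m r (m * r))) := by
    rw [hy, tz_q hr s0.le rs, show 2 / 3 * (3 / 2 * s) = s by ring, kU'_of hr (s16 hr V),
      ku_val hr s m (fun _ => by have := V.rs; linarith), div_eq_mul_inv]
    ring
  rw [← e2]
  unfold kb
  show w3k.v _ _ _ _ + _ * v1_g3k.v _ _ _ _ _ = _
  rw [e1, g3k_val hr hm V.t0 h4, ← hy, mul_div_cancel₀ _ hne, w3k_val]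
  unfold G.W3 G.C33
  ring

theorem kb_b (hr : 0 < r) (hm : 0 < m) (V : Vg t m r s a) :
    v0_w3b.v (tz r s) m r (m * r) + (3 / 2 * s - E0.G.xi1 (tz r s) r) *
      v1_g3b.v (3 / 2 * (r * s)) (tz r s) m r (m * r) =
    2 * (3 / 4 * (s * (1 + E0.G.qw s r)⁻¹) * (G.B0 (m * r) + r * kv.v s m r (m * r))) := by
  have h4 : -4 < r * tz r s := by
    have := (abs_le.1 V.H0.a).1
    linarith
  have s0 := V.s0
  have rs : r * s ≤ 1 / 16 := by have := V.rs; linarith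
  have hy := V.yt
  have e1 : 3 / 2 * (r * s) = v1_rhv.v (tz r s) r := by
    rw [rhv_val hr V.t0 h4, hy]
    ring
  have hgt := y_gt V.H0 V.t0
  have hne : G.x3v (tz r s) r - E0.G.xi1 (tz r s) r ≠ 0 := by
    have : 0 < G.x3v (tz r s) r - E0.G.xi1 (tz r s) r := by linarith
    exact this.ne'
  have e2 : G.x3v (tz r s) r * (G.B0 (m * r) + r * G.bU' r m (2 / 3 * G.x3v (tz r s) r)) /
      (2 + r * tz r s / 2) = 2 * (3 / 4 * (s * (1 + E0.G.qw s r)⁻¹) *
      (G.B0 (m * r) + r * kv.v s m r (m * r))) := by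
    rw [hy, tz_q hr s0.le rs, show 2 / 3 * (3 / 2 * s) = s by ring, bU'_of hr (s16 hr V),
      kv_val hr s m (fun _ => by have := V.rs; linarith), div_eq_mul_inv]
    ring
  rw [← e2, e1, g3b_val hr hm V.t0 h4, ← hy, mul_div_cancel₀ _ hne, w3b_val]
  unfold G.W3 G.C33
  ring

theorem kb_n (hr : 0 < r) (hm : 0 < m) (V : Vg t m r s a) : kb Gn (tz r s) m r s =
    (1 + G.LAM (m * r) * G.mu (m * r)) *
      (2 * (3 / 4 * (s * (1 + E0.G.qw s r)⁻¹) * (1 + r * ku.v s m r (m * r)))) +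
    G.mu (m * r) * (2 * (3 / 4 * (s * (1 + E0.G.qw s r)⁻¹) *
      (G.B0 (m * r) + r * kv.v s m r (m * r)))) := by
  rw [← kb_f hr hm V, ← kb_b hr hm V]
  unfold kb
  show nkf.v _ _ _ + _ * nkf.v _ _ _ = _ * (w3k.v _ _ _ _ + _ * v1_g3k.v _ _ _ _ _) + _
  rw [nkf_val, nkf_val]
  ring

end

section

variable {w t m r s : ℝ} {a : ℕ}

theorem vb_f (hr : 0 < r) (hm : 0 < m) (x1 : m * r ≤ 1 / 40) (hw0 : w < 0)
    (hw : w = -(s / 2) - r * E0.G.om s r)
    (V : Vg t m r s a) (sm : s ≤ 167 / 50 * m) :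
    VB Rf Gf w (tz r s - w) (tz r s) m r s (nbf.v s r (m * r)) (k1m.v w m r (m * r))
      (l1m.v w m r (m * r)) := by
  have s0 := V.s0.le
  have rs : r * s ≤ 1 / 16 := by have := V.rs; linarith
  have omw := om_w hr s0 rs
  have omI := om_I hr s0 rs
  have hfar : r < 1 / 100 → r * s ≤ 3 / 50 := fun _ => by have := V.rs; linarith
  have k12 : k1m.v w m r (m * r) = ku.v s m r (m * r) / 2 +
      3 / 4 * (s * (1 + E0.G.qw s r)⁻¹) * (1 + r * ku.v s m r (m * r)) := by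
    rw [hw, e2_k hr s0 rs]
  have k23 : Rf.k23.v 0 w (tz r s - w) (tz r s) m r (m * r) = -(ku.v s m r (m * r) / 2 -
      3 / 4 * (s * (1 + E0.G.qw s r)⁻¹) * (1 + r * ku.v s m r (m * r))) := by
    show -k1p.v (tz r s - w) m r (m * r) = _
    rw [z0_eq hw, e1_k hr s0 rs]
  have k13 := kb_f hr hm V
  obtain ⟨-, ab2, -, ab4⟩ := ab_s hr hm x1 sm
  have b12 : l1m.v w m r (m * r) = 0 := by
    rw [hw, e2_l hr s0 rs, lvm_val hr s m hfar]
    have : G.bL (m * r) r m s = 0 := by linarith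
    rw [this, mul_zero]
  have b23 : Rf.b23.v 0 w (tz r s - w) (tz r s) m r (m * r) = 0 := by
    show -l1p.v (tz r s - w) m r (m * r) = _
    rw [z0_eq hw, e1_l hr s0 rs, lvp_val hr s m hfar, ab2, mul_zero, neg_zero]
  refine ⟨?_, ?_, ?_, ⟨0, le_rfl, ?_⟩, ?_, ?_, ?_⟩
  · rw [dln_val, k12, k23, k13]
    ring
  · rw [nbf_val]
    show v0_nff.v w (tz r s) (m * r) = _
    simp only [v0_nff]
    unfold tz
    ring
  · rw [nbf_val, k12, k23, k13]
    show gm2.v _ _ _ _ _ _ = _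
    rw [gm2_val, z0_eq hw]
    unfold tz
    linear_combination (-(1 + r * ku.v s m r (m * r))) * omI
  · rw [nbf_val, z0_eq hw]
    show v0_bsf.v _ _ _ _ _ _ = _
    simp only [v0_bsf, xi1_val]
    rw [hw, E1_xi1 hr s0 rs, E2_xi1 hr s0 rs]
    unfold tz
    push_cast
    linear_combination (-1 : ℝ) * omw
  · show -w ≠ 0
    linarith
  · rw [b12, b23]
    show vf1.v _ _ _ _ _ _ _ _ = _
    rw [vf1_val]
    ring
  · rw [b12, b23]
    show vf2.v _ _ _ _ _ _ _ _ = _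
    rw [vf2_val]
    ring

theorem vb_n (hr : 0 < r) (hm : 0 < m) (x1 : m * r ≤ 1 / 40) (hw0 : w < 0)
    (hw : w = -(s / 2) - r * E0.G.om s r)
    (V : Vg t m r s a) (sm : s ≤ 167 / 50 * m) :
    VB Rn Gn w (tz r s - w) (tz r s) m r s (nbn.v s r (m * r))
      (nkf.v (m * r) (k1m.v w m r (m * r)) (b1m.v w m r (m * r))) (l1m.v w m r (m * r)) := by
  have s0 := V.s0.le
  have rs : r * s ≤ 1 / 16 := by have := V.rs; linarith
  have x0 : 0 < m * r := mul_pos hm hr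
  have om0 := om_nn hr s0 rs
  have omw := om_w hr s0 rs
  have omI := om_I hr s0 rs
  have hfar : r < 1 / 100 → r * s ≤ 3 / 50 := fun _ => by have := V.rs; linarith
  have k12 : nkf.v (m * r) (k1m.v w m r (m * r)) (b1m.v w m r (m * r)) =
      (1 + G.LAM (m * r) * G.mu (m * r)) * (ku.v s m r (m * r) / 2 +
        3 / 4 * (s * (1 + E0.G.qw s r)⁻¹) * (1 + r * ku.v s m r (m * r))) +
      G.mu (m * r) * (kv.v s m r (m * r) / 2 +
        3 / 4 * (s * (1 + E0.G.qw s r)⁻¹) * (G.B0 (m * r) + r * kv.v s m r (m * r))) := by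
    rw [nkf_val, hw, e2_k hr s0 rs, e2_b hr s0 rs]
  have k23 : Rn.k23.v 0 w (tz r s - w) (tz r s) m r (m * r) =
      (1 + G.LAM (m * r) * G.mu (m * r)) * (-(ku.v s m r (m * r) / 2 -
        3 / 4 * (s * (1 + E0.G.qw s r)⁻¹) * (1 + r * ku.v s m r (m * r)))) +
      G.mu (m * r) * (-(kv.v s m r (m * r) / 2 -
        3 / 4 * (s * (1 + E0.G.qw s r)⁻¹) * (G.B0 (m * r) + r * kv.v s m r (m * r)))) := by
    show nkf.v (m * r) (-k1p.v (tz r s - w) m r (m * r)) (-b1p.v (tz r s - w) m r (m * r)) = _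
    rw [nkf_val, z0_eq hw, e1_k hr s0 rs, e1_b hr s0 rs]
  have k13 := kb_n hr hm V
  obtain ⟨-, ab2, -, ab4⟩ := ab_s hr hm x1 sm
  have b12 : l1m.v w m r (m * r) = 0 := by
    rw [hw, e2_l hr s0 rs, lvm_val hr s m hfar]
    have : G.bL (m * r) r m s = 0 := by linarith
    rw [this, mul_zero]
  have b23 : Rn.b23.v 0 w (tz r s - w) (tz r s) m r (m * r) = 0 := by
    show -l1p.v (tz r s - w) m r (m * r) = _
    rw [z0_eq hw, e1_l hr s0 rs, lvp_val hr s m hfar, ab2, mul_zero, neg_zero]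
  refine ⟨?_, ?_, ?_, ⟨G.mu (m * r) * G.LAM (m * r) * E0.G.om s r / 2, ?_, ?_⟩, ?_, ?_, ?_⟩
  · rw [dln_val, k12, k23, k13]
    ring
  · rw [nbn_val]
    show v0_nfn.v w (tz r s) (m * r) = _
    simp only [v0_nfn, bef_val]
    unfold tz
    ring
  · rw [nbn_val, k12, k23, k13]
    show gm2.v _ _ _ _ _ _ = _
    rw [gm2_val, z0_eq hw]
    unfold tz G.be
    linear_combination (-((1 + G.LAM (m * r) * G.mu (m * r)) * (1 + r * ku.v s m r (m * r)) +
      G.mu (m * r) * (G.B0 (m * r) + r * kv.v s m r (m * r)))) * omI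
  · have h1 := LAM_nn x0.le (by linarith : m * r ≤ 1)
    have h2 := mu_nn (m * r)
    positivity
  · have h := one_sub_eh' x0.le (by linarith : m * r ≤ 1)
    have h2 : G.eh (m * r) ≠ 0 := (eh_pos' x0 (by linarith)).ne'
    have hE : (2 * G.eh (m * r))⁻¹ * G.eh (m * r) = 1 / 2 := by field_simp
    rw [nbn_val, z0_eq hw]
    show v0_bsn.v _ _ _ _ _ _ = _
    simp only [v0_bsn, xi1_val, bef_val, n1f_val, lmf_val, mu_val', qo_val, eh_val]
    rw [hw, E1_xi1 hr s0 rs, E2_xi1 hr s0 rs]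
    unfold tz G.be G.B0
    rw [div_eq_mul_inv (G.LAM (m * r)) (2 * G.eh (m * r))]
    push_cast
    linear_combination (-(1 + G.LAM (m * r) * G.mu (m * r))) * omw +
      (G.mu (m * r) * G.LAM (m * r) * E0.G.om s r * (2 * G.eh (m * r))⁻¹) * h +
      (G.mu (m * r) * G.LAM (m * r) * E0.G.om s r) * hE
  · show -w ≠ 0
    linarith
  · rw [b12, b23]
    show mv1.v _ _ _ _ _ _ _ _ = _
    rw [mv1_val]
    ring
  · rw [b12, b23]
    show mv2.v _ _ _ _ _ _ _ _ = _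
    rw [mv2_val]
    ring

end

end Pool.Agent.Strip051.LC.E1.V1
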