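import Pool.Agent.Strip051.LC.E1.V1.Sg

/-! # Rests near the full period: the row between `W` and `1.15`, the geometry of the strip leaf -/

set_option linter.unusedVariables false
set_option linter.unusedSimpArgs false

namespace Pool.Agent.Strip051.LC.E1.V1

open Pool.Agent.Strip051.PB
open Pool.Agent.Strip051.LC.E1.Ch
open Pool.Agent.Strip051.LC.E1.V0
open Pool.Agent.Strip051.LC.E1.BaseR
open Pool.Agent.Strip051.LC.E1.G (hg)

/-- The height of the base point. -/
noncomputable def tz (r s : ℝ) : ℝ := -2 * (r * E0.G.om s r)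

/-- What is known at a strip leaf. -/
structure Vg (t m r s : ℝ) (a : ℕ) : Prop where
  s0 : 0 < s
  rs : r * s ≤ 1 / 80
  t0 : tz r s < 0
  N0 : 0 < tz r s - t
  vN : ∃ q : ℝ, -t = (tz r s - t) * q ∧ 1 ≤ q ∧ q ≤ 21 / 20
  sr : ∃ q : ℝ, (3 / 2 * s - E0.G.xi1 (tz r s) r) * (r * G.x3v t r - 3 / 2 * (r * s)) =
    (tz r s - t) * q ∧ 0 ≤ q ∧ q ≤ 27 / (2 * a + 9)
  H0 : Hc r m (tz r s)
  s1 : 577 / 100 * s ≤ 2 / 3 * G.x3v t r
  h16 : r * (Real.sqrt 3 / 2 * (2 / 3 * G.x3v t r)) ≤ 1 / 16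
  y0 : 3 / 2 * s < G.x3v t r
  yt : G.x3v (tz r s) r = 3 / 2 * s

theorem hc_mono {r m h h' : ℝ} (H : Hc r m h) (e : |r * h'| ≤ |r * h|) : Hc r m h' :=
  ⟨H.r0, e.trans H.a, fun q => e.trans (H.b q), fun q => by
    have := H.c q
    linarith⟩

theorem vg_of {t m r s U : ℝ} {a : ℕ} (m0 : 0 < m) (H : Hc r m t) (ht : t < 0) (s0 : 0 < s)
    (ha : 26 ≤ a) (hU : (a : ℝ) / 20 * s ≤ U)
    (u1 : 20 * U ≤ 3 * (G.x3v t r - E0.G.xi1 t r)) (hy : r * G.x3v t r ≤ 27 / 250) :
    Vg t m r s a := by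
  have r0 := H.r0
  have h1 := abs_le.1 H.a
  have hD := D1_b H
  have a26 : (26 : ℝ) ≤ a := by exact_mod_cast ha
  have hx : 0 ≤ E0.G.xi1 t r := by
    rw [xi1_D]
    have : 0 ≤ -t * D1 t r := mul_nonneg (by linarith) hD.1
    linarith
  have h4 : -4 < r * t := by linarith
  have ysq := y_sq r0 ht h4
  have ypos := y_pos r0 ht h4
  have hya : (a : ℝ) / 3 * s ≤ G.x3v t r := by linarith
  have hy26 : 26 / 3 * s ≤ G.x3v t r := by
    have := mul_le_mul_of_nonneg_right a26 s0.le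
    linarith
  have rs : r * s ≤ 1 / 80 := by
    have := mul_le_mul_of_nonneg_left hy26 r0.le
    linarith
  have rs16 : r * s ≤ 1 / 16 := by linarith
  have om0 := om_pos r0 s0 rs16
  have omle := om_le r0 s0 rs16
  have tz0 : tz r s < 0 := by
    unfold tz
    have := mul_pos r0 om0
    linarith
  have tzle : -tz r s ≤ 32 / 41 * (r * s ^ 2) := by
    unfold tz
    have := mul_le_mul_of_nonneg_left omle r0.le
    linarith
  have rs2 : 0 < r * s ^ 2 := by positivity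
  have hv : 225 / 9 * (r * s ^ 2) ≤ -t := by
    have k1 : (26 / 3 * s) ^ 2 ≤ G.x3v t r ^ 2 := pow_le_pow_left₀ (by positivity) hy26 2
    have k2 := mul_le_mul_of_nonneg_left k1 r0.le
    rw [ysq] at k2
    have k3 : 0 ≤ r * t ^ 2 := by positivity
    nlinarith
  have hv21 : -tz r s ≤ -t / 21 := by linarith
  have N0 : 0 < tz r s - t := by linarith
  have H0 : Hc r m (tz r s) := by
    refine hc_mono H ?_
    rw [abs_mul, abs_mul, abs_of_neg tz0, abs_of_neg ht]
    exact mul_le_mul_of_nonneg_left (by linarith) (abs_nonneg r)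
  have hD0 := D1_b H0
  have h10 := abs_le.1 H0.a
  have yt : G.x3v (tz r s) r = 3 / 2 * s := y_t0 r0 s0 rs16
  have ysq0 := y_sq r0 tz0 (by linarith)
  rw [yt] at ysq0
  have hx0 : 0 ≤ E0.G.xi1 (tz r s) r := by
    rw [xi1_D]
    have : 0 ≤ -tz r s * D1 (tz r s) r := mul_nonneg (by linarith) hD0.1
    linarith
  have hx1 : E0.G.xi1 (tz r s) r ≤ 3 / 2 * s := by
    rw [xi1_D]
    have k1 : -tz r s * D1 (tz r s) r ≤ -tz r s * (7 / 4) :=
      mul_le_mul_of_nonneg_left hD0.2 (by linarith)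
    have k2 : r * s ^ 2 ≤ 1 / 80 * s := by nlinarith
    linarith
  refine ⟨s0, rs, tz0, N0, ⟨-t / (tz r s - t), ?_, ?_, ?_⟩, ?_, H0, ?_, ?_, ?_, yt⟩
  · field_simp
  · rw [le_div_iff₀ N0]
    linarith
  · rw [div_le_iff₀ N0]
    linarith
  · have ys : 0 < G.x3v t r + 3 / 2 * s := by linarith
    refine ⟨(3 / 2 * s - E0.G.xi1 (tz r s) r) * ((3 + 3 / 4 * r * (t + tz r s)) /
      (G.x3v t r + 3 / 2 * s)), ?_, ?_, ?_⟩
    · have e : r * G.x3v t r - 3 / 2 * (r * s) = (tz r s - t) * ((3 + 3 / 4 * r * (t + tz r s)) /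
          (G.x3v t r + 3 / 2 * s)) := by
        rw [← mul_div_assoc, eq_div_iff ys.ne']
        linear_combination ysq - ysq0
      rw [e]
      ring
    · have : 0 ≤ 3 + 3 / 4 * r * (t + tz r s) := by
        have : 3 + 3 / 4 * r * (t + tz r s) = 3 + 3 / 4 * (r * t) + 3 / 4 * (r * tz r s) := by ring
        rw [this]
        linarith
      exact mul_nonneg (by linarith) (div_nonneg this ys.le)
    · have k1 : 3 + 3 / 4 * r * (t + tz r s) ≤ 3 := by
        have := mul_pos_of_neg_of_neg (by linarith : -r < 0) (by linarith : t + tz r s < 0)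
        linarith
      have k2 : (3 + 3 / 4 * r * (t + tz r s)) / (G.x3v t r + 3 / 2 * s) ≤
          3 / (G.x3v t r + 3 / 2 * s) := div_le_div_of_nonneg_right k1 ys.le
      have k3 : (3 / 2 * s - E0.G.xi1 (tz r s) r) * ((3 + 3 / 4 * r * (t + tz r s)) /
          (G.x3v t r + 3 / 2 * s)) ≤ 3 / 2 * s * (3 / (G.x3v t r + 3 / 2 * s)) := by
        have k4 : (3 / 2 * s - E0.G.xi1 (tz r s) r) * ((3 + 3 / 4 * r * (t + tz r s)) /
            (G.x3v t r + 3 / 2 * s)) ≤ (3 / 2 * s - E0.G.xi1 (tz r s) r) *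
            (3 / (G.x3v t r + 3 / 2 * s)) := mul_le_mul_of_nonneg_left k2 (by linarith)
        have k5 : (3 / 2 * s - E0.G.xi1 (tz r s) r) * (3 / (G.x3v t r + 3 / 2 * s)) ≤
            3 / 2 * s * (3 / (G.x3v t r + 3 / 2 * s)) :=
          mul_le_mul_of_nonneg_right (by linarith) (by positivity)
        linarith
      refine k3.trans ?_
      rw [← mul_div_assoc, div_le_div_iff₀ ys (by positivity)]
      linarith
  · linarith
  · have := sh_up
    have k := mul_le_mul_of_nonneg_right this (mul_nonneg r0.le ypos.le)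
    linarith
  · linarith

end Pool.Agent.Strip051.LC.E1.V1
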