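import Pool.Agent.Strip051.LC.E1.V1.Vb

/-! # Rests near the full period: the row between `W` and `1.15`, the strip leaf -/

set_option linter.unusedVariables false
set_option linter.unusedSimpArgs false

namespace Pool.Agent.Strip051.LC.E1.V1

open Pool.Agent.Strip051.PB
open Pool.Agent.Strip051.LC.E1.Ch
open Pool.Agent.Strip051.LC.E1.V0
open Pool.Agent.Strip051.LC.E1.BaseR

attribute [local irreducible] padd psub pneg pmul psq pinv psqrt psqrtg pabs pps pmax pmin pphi plam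
  pcase phf pnat prat pscale pnorm pdc pnc pone ppos pnn Enc

section

variable {E : Pt} {R : RowF} {q : Bool} {S : RowS R q}
  {tn td kk a W Wd Z Zd M Q X SG RH : ℕ} {N w z m r wd zd s y : ℝ}

theorem vsc_sound (hw : Enc E W w) (hz : Enc E Z z) (hwd : Enc E Wd wd) (hzd : Enc E Zd zd)
    (hm : Enc E M m) (hr : Enc E Q r) (hX : Enc E X (m * r)) (hS : Enc E SG s)
    (hR : Enc E RH (r * y)) (ew : w = N * wd) (ez : z = N * zd) (hN : 0 < N)
    (hs : s = -E0.G.sg1 w r) (u0 : R.U 0 0 m r = 0)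
    (h : vsc S tn td kk a W Wd Z Zd M Q X SG RH = true) :
    (a : ℝ) / 20 * s ≤ R.U w z m r ∧ s ≤ tn / td * m ∧ r * y ≤ 27 / 250 ∧
      (kk = 1 → 11 / 25 * m ≤ s) ∧ (kk = 2 → r * y ≤ 3 / 2 * (m * r)) := by
  unfold vsc at h
  obtain ⟨t1, h⟩ := band_true h
  obtain ⟨t2, h⟩ := band_true h
  obtain ⟨t3, h⟩ := band_true h
  refine ⟨?_, ?_, ?_, ?_, ?_⟩
  · obtain ⟨ud, ku, eu⟩ := (S.u.snd (N := N) ⟨hw, enc_zero E, wd, hwd, by linarith⟩
      ⟨hz, enc_zero E, zd, hzd, by linarith⟩ hm hr).d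
    have k := pnn_sound (enc_sub ku (enc_mul (enc_neg hwd) (enc_norm (enc_mul (enc_rat E a 20)
      (enc_norm (enc_add (enc_half (enc_one E)) (dd1.enc hw hr))))))) t1
    rw [dd1_val] at k
    have e : R.U w z m r = N * ud := by
      have : R.U w z m r - R.U 0 0 m r = N * ud := eu
      linarith
    have k2 := mul_nonneg hN.le k
    rw [e, hs, sg1_D, ew]
    rw [ew] at k2
    push_cast at k2
    linarith
  · have := pnn_sound (enc_sub (enc_scale tn td hm) hS) t2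
    linarith
  · have := pnn_sound (enc_sub (enc_rat E 27 250) hR) t3
    push_cast at this
    linarith
  · intro e
    subst e
    have := pnn_sound (enc_sub hS (enc_scale 11 25 hm)) h
    push_cast at this
    linarith
  · intro e
    subst e
    have := pnn_sound (enc_sub (enc_scale 3 2 hX) hR) h
    push_cast at this
    linarith

end

theorem mk_pr {E : Pt} {N : ℝ} {A B D : ℕ} {a b d : ℝ} (ha : Enc E A a) (hb : Enc E B b)
    (hd : Enc E D d) (e : a - b = N * d) : Pr E N A B D a b := ⟨ha, hb, d, hd, e⟩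

section

variable {R : RowF} {w z m r nb et N lev nf' bs' gm' ds' l' ab' nfd bsd dsd gpd bnd v1' v2' v1bd v2bd
  m2d brd : ℝ}

/-- The slack from the slopes at the strip leaf. -/
theorem vb_end (D : Dm R w z m r) (um : Um R w z m r) (hN : 0 < N)
    (b1 : nf' = r * nb) (b2 : gm' = -nb) (b3 : bs' = -nb + et) (he : 0 ≤ et) (b4 : ds' = 0)
    (b5 : l' ≠ 0) (b6 : v1' = 0) (b7 : v2' = 0)
    (enf : R.NF w z m r - nf' = N * nfd) (ebs : R.BS w z m r - bs' = N * bsd)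
    (eds : R.DS w z m r - ds' = N * dsd) (egp : R.GP w z m r - gpf.v r nf' gm' = N * gpd)
    (ebn : R.BN w z m r - bnf.v (m * r) m nf' bs' gm' = N * bnd)
    (e1b : R.V1B w z m r - v1' = N * v1bd) (e2b : R.V2B w z m r - v2' = N * v2bd)
    (em2 : m2f.v m (R.L w z) - m2f.v m l' = N * m2d)
    (ebr : R.BR w z m r - brf.v (m * r) r m l' ab' nf' gm' ds' bs' = N * brd)
    (r1 : Res (m * r) r m (R.L w z) (R.A w z) (R.B w z) (0 / r) (nfd / r) bnd bsd
      (nfd * m2f.v m (R.L w z) / r + (brd + nb * m2d -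
        abf.v (m * r) m (R.L w z) (R.A w z) (R.B w z) dsd gpd)) dsd gpd (0 / r + v1bd)
      (0 / r + v2bd))
    (hlev : R.Lv w z m r lev) : R.Sk w z m r lev := by
  have r0 := D.r0
  have x0 : 0 < m * r := mul_pos D.m0 D.r0
  have x1 := D.x1
  have hq := one_sub_eh' x0.le (by linarith : m * r ≤ 1)
  have hk := one_add_et' (by linarith : m * r < 1) hq
  subst b1 b2 b3 b4 b6 b7
  rw [sub_zero] at eds e1b e2b
  have hg : gpf.v r (r * nb) (-nb) = 0 := by
    rw [gpf_val]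
    ring
  rw [hg, sub_zero] at egp
  have hbn : bnf.v (m * r) m (r * nb) (-nb + et) (-nb) = et := by
    rw [bnf_val]
    linear_combination nb * (-hq)
  rw [hbn] at ebn
  have hbr : nb * m2f.v m l' + brf.v (m * r) r m l' ab' (r * nb) (-nb) 0 (-nb + et) = et := by
    rw [brf_val, m2f_val, ← hk]
    field_simp
    ring
  have r2 := r1.scale hN
  refine sk_of_res D eds egp ?_ ?_ ?_ ?_ r2
  · rw [um.nu]
    have : N * (0 / r) = 0 / r := by simp
    linarith
  · have h1 : R.NF w z m r = r * nb + N * nfd := by linarith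
    have h2 : R.BS w z m r = -nb + et + N * bsd := by linarith
    rw [um.nu, h1, h2, zero_add, add_mul_div, mul_div_cancel_left₀ _ r0.ne']
    linarith
  · unfold RowF.FO
    have hm2 : (1 - m / R.L w z) ^ 2 = m2f.v m (R.L w z) := by
      rw [m2f_val, div_eq_mul_inv]
    have h1 : R.NF w z m r = r * nb + N * nfd := by linarith
    have hnfr : R.NF w z m r / r = nb + N * (nfd / r) := by
      rw [h1]
      field_simp
    have h3 : R.BR w z m r = brf.v (m * r) r m l' ab' (r * nb) (-nb) 0 (-nb + et) + N * brd := by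
      linarith
    rw [um.nu, hm2, eds, egp, abf_scale hN, hnfr, h3, zero_div]
    have e6 : nfd * m2f.v m (R.L w z) / r = nfd / r * m2f.v m (R.L w z) := by ring
    rw [e6]
    have e7 : nb * m2f.v m (R.L w z) = nb * m2f.v m l' + N * (nb * m2d) := by
      linear_combination nb * em2
    nlinarith [e7, hbr, he]
  · intro F' g1 g2
    refine hlev F' ?_ ?_
    · rw [um.v1, e1b]
      have : N * (0 / r + v1bd) = 0 / r + N * v1bd := by simp
      linarith
    · rw [um.v2, e2b]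
      have : N * (0 / r + v2bd) = 0 / r + N * v2bd := by simp
      linarith

end

section

variable {E : Pt} {R : RowF} {S : RowS R true} {F : Gs} {nb : Fn3}
  {tn td c k s' W Wd Z Zd M Q : ℕ} {Nc w z m r wd zd lev : ℝ}

set_option maxRecDepth 8000 in
theorem vsT_sound (hw : Enc E W w) (hz : Enc E Z z) (hwd : Enc E Wd wd) (hzd : Enc E Zd zd)
    (hm : Enc E M m) (hr : Enc E Q r) (ew : w = Nc * wd) (ez : z = Nc * zd) (hNc : 0 < Nc)
    (D : Dm R w z m r) (H1 : Hc r m w) (H3 : Hc r m (w + z)) (hw0 : w < 0) (ht : w + z < 0)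
    (u00 : R.U 0 0 m r = 0) (um : Um R w z m r) (V : VR R F w z m r)
    (u1 : 20 * R.U w z m r ≤ 3 * (G.x3v (w + z) r - E0.G.xi1 (w + z) r))
    (hB : ∀ {s : ℝ} {a : ℕ}, w = -(s / 2) - r * E0.G.om s r → Vg (w + z) m r s a →
      s ≤ tn / td * m →
      VB R F w (tz r s - w) (tz r s) m r s (nb.v s r (m * r)) (R.K12 w z m r) (R.B12 w z m r))
    (hG : ∀ {s : ℝ} {a kk : ℕ}, Vg (w + z) m r s a → s ≤ tn / td * m →
      Kc (w + z) m r s kk → r * G.x3v (w + z) r ≤ 27 / 250 → GrOK F (w + z) m r s kk)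
    (hlev : R.Lv w z m r lev)
    (h : vsT S F nb tn td c k s' W Wd Z Zd M Q = true) : R.Sk w z m r lev := by
  have r0 := D.r0
  have m0 := D.m0
  have h4 : -4 < r * (w + z) := by
    have := (abs_le.1 H3.a).1
    linarith
  obtain ⟨s, hs⟩ : ∃ s, s = -E0.G.sg1 w r := ⟨_, rfl⟩
  have s0 : 0 < s := s_pos H1 hw0 hs
  have hT := enc_norm (enc_add hw hz)
  have hX := enc_norm (enc_mul hm hr)
  have hU : Enc E (R.u.t W Z M Q) (R.U w z m r) := R.u.enc hw hz hm hr
  have hS : Enc E (v1_sv.t W Q) s := by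
    have := v1_sv.enc hw hr
    rwa [sv_val, ← hs] at this
  have hR : Enc E (v1_rhv.t (pnorm (padd W Z)) Q) (r * G.x3v (w + z) r) := by
    have := v1_rhv.enc hT hr
    rwa [rhv_val r0 ht h4] at this
  unfold vsT at h
  simp only [frc_eq] at h
  obtain ⟨I, hI, h⟩ := ckc_sound hr r0 h
  obtain ⟨hc, h⟩ := band_true h
  obtain ⟨c1, c2, c3, c4, c5⟩ := vsc_sound hw hz hwd hzd hm hr hX hS hR ew ez hNc hs u00 hc
  obtain ⟨a, ha⟩ : ∃ a, a = Nat.add 26 (Nat.mod c 8) := ⟨_, rfl⟩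
  obtain ⟨kk, hkk⟩ : ∃ kk, kk = Nat.mod (Nat.div c 8) 4 := ⟨_, rfl⟩
  rw [← ha] at c1 h
  rw [← hkk] at c4 c5 h
  have ha26 : 26 ≤ a := by
    rw [ha]
    exact Nat.le_add_right _ _
  have G0 : Vg (w + z) m r s a := vg_of m0 H3 ht s0 ha26 c1 u1 c3
  have hws : w = -(s / 2) - r * E0.G.om s r :=
    w_s H1 hw0 hs (by have := G0.rs; linarith)
  have B := hB hws G0 c2
  have GG : GrOK F (w + z) m r s kk := hG G0 c2 ⟨c4, c5⟩ c3
  have rs16 : r * s ≤ 1 / 16 := by have := G0.rs; linarith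
  have hN : 0 < tz r s - (w + z) := G0.N0
  obtain ⟨N, hN'⟩ : ∃ N, N = tz r s - (w + z) := ⟨_, rfl⟩
  rw [← hN'] at hN
  have hT0 : Enc E (v1_t0.t (v1_sv.t W Q) Q) (tz r s) := by
    have := v1_t0.enc hS hr
    rwa [t0_val, show -2 * (r * E0.G.om s r) = tz r s from rfl] at this
  have hZ0 : Enc E (pnorm (psub (v1_t0.t (v1_sv.t W Q) Q) W)) (tz r s - w) :=
    enc_norm (enc_sub hT0 hw)
  have hD1 : Enc E (pneg pone) (-1) := enc_neg (enc_one E)
  have pW : Pr E N W W pzero w w := pr_const hw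
  have pT : Pr E N (pnorm (padd W Z)) (v1_t0.t (v1_sv.t W Q) Q) (pneg pone) (w + z) (tz r s) :=
    ⟨hT, hT0, -1, hD1, by rw [hN']; ring⟩
  have pZ : Pr E N Z (pnorm (psub (v1_t0.t (v1_sv.t W Q) Q) W)) (pneg pone) z (tz r s - w) :=
    ⟨hz, hZ0, -1, hD1, by rw [hN']; ring⟩
  have p0 : Pr E N pzero pzero pzero 0 0 := pr_const (enc_zero E)
  have hR0 : Enc E (pscale 3 2 (pnorm (pmul Q (v1_sv.t W Q)))) (3 / 2 * (r * s)) := by
    have := enc_scale 3 2 (enc_norm (enc_mul hr hS))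
    push_cast at this
    exact this
  have hU0 : Enc E (pnorm (psub (pscale 3 2 (v1_sv.t W Q)) (xi1.t (v1_t0.t (v1_sv.t W Q) Q) Q)))
      (3 / 2 * s - E0.G.xi1 (tz r s) r) := by
    have := enc_norm (enc_sub (enc_scale 3 2 hS) (xi1.enc hT0 hr))
    push_cast at this
    rwa [xi1_val] at this
  obtain ⟨ud, kud, eud⟩ := (v1_ut_cvvc.snd hw pZ pT hr).d
  rw [ut_val, ut_val] at eud
  have hx1 : E0.G.xi1 w r = 3 / 4 * s - r * E0.G.om s r / 2 := by
    have := E2_xi1 r0 s0.le rs16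
    rwa [← hws] at this
  have hx2 : E0.G.xi1 (tz r s - w) r = -(3 / 4 * s) - r * E0.G.om s r / 2 := by
    have := E1_xi1 r0 s0.le rs16
    rw [z0_eq hws]
    exact this
  have eU : R.U w z m r - (3 / 2 * s - E0.G.xi1 (tz r s) r) = N * ud := by
    rw [V.u, ← eud, hx1, hx2]
    ring
  have hG1 := F.g3.enc hR hT hm hr hX
  have hG0 := F.g3.enc hR0 hT0 hm hr hX
  obtain ⟨g, kg, eg⟩ := GG hR0 hR hT0 hm hr hX
  obtain ⟨w3d, kw3, ew3⟩ := (F.w3s.snd pT hm hr hX).d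
  obtain ⟨g3d, kg3, eg3⟩ := (F.g3s.snd hR pT hm hr hX).d
  obtain ⟨q1, eq1, q1a, q1b⟩ := G0.vN
  obtain ⟨q2, eq2, q2a, q2b⟩ := G0.sr
  rw [← hN'] at eq1 eq2
  have kq2 : Enc E (piv (prat 0 (Nat.add (Nat.mul 2 a) 9)) 27 (Nat.add (Nat.mul 2 a) 9)) q2 := by
    have h1 := enc_rat E 0 (Nat.add (Nat.mul 2 a) 9)
    have e1 : ((Nat.add (Nat.mul 2 a) 9 : ℕ) : ℝ) = 2 * a + 9 := by
      show ((2 * a + 9 : ℕ) : ℝ) = _
      push_cast
      ring
    refine enc_iv h1 (by norm_num) (Nat.succ_pos _) ?_ ?_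
    · simp only [Nat.cast_zero, zero_div]
      exact q2a
    · rw [e1]
      simp only [Nat.cast_zero, zero_div, zero_add]
      exact_mod_cast q2b
  have kq1 : Enc E (piv (prat 20 20) 1 20) q1 := by
    refine enc_iv (enc_rat E 20 20) (by norm_num) (by norm_num) ?_ ?_
    · push_cast
      linarith
    · push_cast
      linarith
  have hWA := F.w3.enc hT hm hr hX
  have hWB := F.w3.enc hT0 hm hr hX
  have eK : F.w3.v (w + z) m r (m * r) + R.U w z m r * F.g3.v (r * G.x3v (w + z) r) (w + z) m r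
      (m * r) - (F.w3.v (tz r s) m r (m * r) + (3 / 2 * s - E0.G.xi1 (tz r s) r) *
      F.g3.v (3 / 2 * (r * s)) (tz r s) m r (m * r)) = N * (w3d + ud *
      F.g3.v (r * G.x3v (w + z) r) (w + z) m r (m * r) +
      ((3 / 2 * s - E0.G.xi1 (tz r s) r) * g3d + q2 * g)) := by
    linear_combination ew3 + F.g3.v (r * G.x3v (w + z) r) (w + z) m r (m * r) * eU +
      (3 / 2 * s - E0.G.xi1 (tz r s) r) * (eg3 + eg) + g * eq2
  have pK13 := mk_pr (enc_norm (enc_add hWA (enc_mul hU hG1)))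
    (enc_norm (enc_add hWB (enc_mul hU0 hG0)))
    (enc_norm (enc_add (enc_add kw3 (enc_mul (enc_norm kud) hG1))
        (enc_add (enc_mul hU0 kg3) (enc_mul kq2 kg)))) eK
  rw [← V.k13, show F.w3.v (tz r s) m r (m * r) + (3 / 2 * s - E0.G.xi1 (tz r s) r) *
      F.g3.v (3 / 2 * (r * s)) (tz r s) m r (m * r) = kb F (tz r s) m r s from rfl] at pK13
  have hK12 : Enc E (R.k12.t pzero W Z (pnorm (padd W Z)) M Q (pnorm (pmul M Q)))
      (R.K12 w z m r) := by
    rw [V.k12]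
    exact R.k12.enc (enc_zero E) hw hz hT hm hr hX
  have hB12 : Enc E (R.b12.t pzero W Z (pnorm (padd W Z)) M Q (pnorm (pmul M Q)))
      (R.B12 w z m r) := by
    rw [V.b12]
    exact R.b12.enc (enc_zero E) hw hz hT hm hr hX
  have pK12 := pr_const (N := N) hK12
  have pB12 := pr_const (N := N) hB12
  have pK23 := S.k23.snd p0 (fun _ => rfl) pW pZ pT hm hr hX
  rw [← V.k23] at pK23
  have pB23 := S.b23.snd p0 (fun _ => rfl) pW pZ pT hm hr hX
  rw [← V.b23] at pB23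
  have hUB := enc_norm (enc_mul hU (v1_b1c.enc hR hT hr hX))
  have eB : R.U w z m r * v1_b1c.v (r * G.x3v (w + z) r) (w + z) r (m * r) * -(w + z) - 0 =
      N * (R.U w z m r * v1_b1c.v (r * G.x3v (w + z) r) (w + z) r (m * r) * q1) := by
    linear_combination (R.U w z m r * v1_b1c.v (r * G.x3v (w + z) r) (w + z) r (m * r)) * eq1
  have pB13 := mk_pr (enc_norm (enc_mul hUB (enc_neg hT))) (enc_zero E)
    (enc_norm (enc_mul hUB kq1)) eB
  rw [← V.b13] at pB13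
  have pD := dln_vvv.snd pK12 pK23 pK13
  have pL := S.l.snd pW pZ pT
  have pA := S.a.snd pW pZ pT
  have pB := S.b.snd pW pZ pT
  have pGM := S.gm.snd pW pZ pT pK12 pK23 pK13
  have pH := shf_cv.snd hr pL
  have pDS := dsf_zv.snd pD B.d pH
  have pNF := S.nf.snd pW pT hX
  have pBS := S.bs.snd pW pZ pT hm hr hX
  have pGP := gpf_cvv.snd hr pNF pGM
  have pV1 := S.v1.snd pW pZ pT hr hX pB12 pB23 pB13
  have pV2 := S.v2.snd pW pZ pT hr hX pB12 pB23 pB13
  have pBN := bnf_ccvvv.snd hX hm pNF pBS pGM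
  have pM2 := m2f_cv.snd hm pL
  have pBR := brf_cccvvvvvv.snd hX hr hm pL (pr_norm (pr_sub pA pB)) pNF pGM pDS pBS
  obtain ⟨nfd, knf, enf⟩ := pNF.d
  obtain ⟨bsd, kbs, ebs⟩ := pBS.d
  obtain ⟨dsd, kds, eds⟩ := pDS.d
  obtain ⟨gpd, kgp, egp⟩ := pGP.d
  obtain ⟨bnd, kbn, ebn⟩ := pBN.d
  obtain ⟨v1bd, k1b, e1b⟩ := pV1.d
  obtain ⟨v2bd, k2b, e2b⟩ := pV2.d
  obtain ⟨m2d, km2, em2⟩ := pM2.d
  obtain ⟨brd, kbr, ebr⟩ := pBR.d
  have k1 := enc_mul knf (m2f.enc hm pL.l)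
  have k0 := enc_sub (enc_add kbr (enc_mul (nb.enc hS hr hX) km2))
    (abf.enc hX hm pL.l pA.l pB.l kds kgp)
  have r1 := tst_sound hX hr hm pL.l pA.l pB.l kbn kbs kds kgp
    (fun h0 hh => lvs_sound hI (enc_zero E) k1b (enc_zero E) k2b (enc_zero E)
      (fun _ => ⟨rfl, rfl, rfl⟩) h0 hh)
    (fun h0 hh => lgs_sound hI (enc_zero E) k1b (enc_zero E) k2b knf h0 hh)
    (los_sound hI (enc_zero E) k1b (enc_zero E) k2b knf k1
      (fun e => ⟨fun hn => mul_nonneg hn (by rw [m2f_val]; positivity), rfl, rfl⟩) k0) h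
  obtain ⟨et, het, eet⟩ := B.bs
  have hd0 : dsf.v (dln.v (R.K12 w z m r) (R.k23.v 0 w (tz r s - w) (tz r s) m r (m * r))
      (kb F (tz r s) m r s)) (shf.v r (R.l.v w (tz r s - w) (tz r s))) = 0 := by
    rw [B.d, dsf_val, zero_mul]
  exact vb_end D um hN B.nf B.gm eet het hd0 B.l B.v1 B.v2 enf ebs eds egp ebn e1b e2b em2 ebr
    r1 hlev

end

end Pool.Agent.Strip051.LC.E1.V1
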